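import Mathlib
import Pool.Agent.Lib.MP_89bcae_ag.Wl.Gen

/-!
# Cyclic coverings given by a polynomial `P(t, x)`: the curve `y ^ ℓ = P(t, x)` over `F(t)`

Setting: `k` a field, `F` an algebraic closure of `k`, `L = F(t)`, `Ω` an algebraic closure of `L`;
`P` is in `k[t][x]`.
-/

open Polynomial IsDedekindDomain

open scoped Classical

namespace Pool.Agent.Lib.MP_89bcae_ag.Wt.Lns

open Pool.Agent.Lib.MP_89bcae_ag.Sup

universe u

/-- The polynomial `P` over `L = F(t)`. -/
noncomputable def curveL (k F L : Type u) [Field k] [Field F] [Algebra k F] [Field L]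
    [Algebra F[X] L] (P : k[X][X]) : L[X] :=
  P.map (base k F L L)

/-- The curve over the extension `A` of `L`. -/
noncomputable abbrev cOver (k F L A : Type u) [Field k] [Field F] [Algebra k F] [Field L]
    [Algebra F[X] L] [Field A] [Algebra L A] (P : k[X][X]) : A[X] :=
  (curveL k F L P).map (algebraMap L A)

/-- The hypotheses on `ℓ`, `P`, `ζ`. -/
structure LHyp (ℓ : ℕ) (k F L : Type u) [Field k] [Field F] [Algebra k F] [Field L]
    [Algebra F[X] L] (P : k[X][X]) (ζ : k) : Prop where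
  prime : ℓ.Prime
  ne : (ℓ : k) ≠ 0
  zeta : IsPrimitiveRoot ζ ℓ
  good : ∀ (A : Type u) [Field A] [Algebra L A] [IsAlgClosed A], IsGood ℓ (cOver k F L A P)

section

variable {k F L Ω : Type u} [Field k] [Field F] [Algebra k F] [Field L] [Algebra F[X] L]
  [Field Ω] [Algebra L Ω]

lemma cOver_eq (A : Type u) [Field A] [Algebra L A] (P : k[X][X]) :
    cOver k F L A P = P.map (base k F L A) := by
  unfold cOver curveL
  rw [Polynomial.map_map]
  rfl

private lemma gb_sym (P : k[X][X]) (γ : AutO k F L Ω) :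
    (γ : Ω ≃+* Ω) ∈ Sym (cOver k F L Ω P) := by
  rw [mem_Sym, cOver_eq, Polynomial.map_map]
  congr 1
  ext c
  · exact γ.2 (C c)
  · exact γ.2 X

/-- An automorphism over `k(t)` fixes the coefficients of the curve. -/
def toSym (P : k[X][X]) : AutO k F L Ω →* Sym (cOver k F L Ω P) where
  toFun γ := ⟨(γ : Ω ≃+* Ω), gb_sym P γ⟩
  map_one' := rfl
  map_mul' _ _ := rfl

@[simp] lemma toSym_coe (P : k[X][X]) (γ : AutO k F L Ω) :
    ((toSym P γ : Sym (cOver k F L Ω P)) : Ω ≃+* Ω) = (γ : Ω ≃+* Ω) := rfl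

end

section Cochains

variable {k F L Ω : Type u} [Field k] [Field F] [Algebra k F] [Field L] [Algebra F[X] L]
  [Field Ω] [Algebra L Ω]

/-- The cochains: sequences of maps from `Gal(Ω/L)` to the Jacobian. -/
abbrev Coch (ℓ : ℕ) (k F L Ω : Type u) [Field k] [Field F] [Algebra k F] [Field L]
    [Algebra F[X] L] [Field Ω] [Algebra L Ω] (P : k[X][X]) : Type u :=
  ℕ → (Ω ≃ₐ[L] Ω) → JacOver ℓ (curveL k F L P) Ω

/-- Locally trivial at all the places `t = a`. -/
def LTc [IsFractionRing F[X] L] {ℓ : ℕ} {P : k[X][X]} (c : Coch ℓ k F L Ω P) : Prop :=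
  ∀ (a : F) (n : ℕ), IsLocallyTrivial ℓ (curveL k F L P) (c n) ((plc a).adicCompletion L)

variable [IsAlgClosure k F] [IsFractionRing F[X] L] [IsAlgClosure L Ω] {ℓ : ℕ} {P : k[X][X]}

/-- The action of `Aut(Ω/k(t))` on the cochains: `(γ c)(σ) = γ (c (γ⁻¹ σ γ))`. -/
noncomputable def act (γ : AutO k F L Ω) (c : Coch ℓ k F L Ω P) : Coch ℓ k F L Ω P :=
  fun n σ => symJ (toSym P γ) (c n (conjG γ⁻¹ σ))

variable [hG : IsGood ℓ (cOver k F L Ω P)]

/-- The automorphism `Z` acting on the cochains. -/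
noncomputable def zC (ζ : k) (hζ : (zA F L Ω ζ) ^ ℓ = 1) :
    Coch ℓ k F L Ω P →+ Coch ℓ k F L Ω P where
  toFun c := fun n σ => zJ (zA F L Ω ζ) hζ (c n σ)
  map_zero' := by
    funext n σ
    exact map_zero _
  map_add' c c' := by
    funext n σ
    exact map_add _ _ _

end Cochains

end Pool.Agent.Lib.MP_89bcae_ag.Wt.Lns
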