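import Mathlib
import Pool.Agent.Lib.MP_89bcae_ag.Lns.ABase
import Pool.Agent.Lib.MP_89bcae_ag.Sup.L01
import Pool.Agent.Lib.MP_89bcae_ag.Sup.L02
import Pool.Agent.Lib.MP_89bcae_ag.Sup.L03
import Pool.Agent.Lib.MP_89bcae_ag.Wt.X2

/-!
# The roots of the curve at a place and the valuations of the functions `uval`

ROW LA01 = the lemmas of this file.
Compare `Sup/L03.lean`, `L04.lean`, `L05.lean`. All the roots `A i = aeval t (a i)` are in the image of
`F[t]`, so that `v (A i - A j) = 1` if `a_i(s) ≠ a_j(s)` (`residue_eval`).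
`val_uval` (analogue of `LocCtx.val_uval` in `L05.lean`, same proof with `d = 1`): for a point `P` of the
curve, the product over the `i` with `a_i(s) = r` of
`v (if P.x = A i then (f'(A i))⁻¹ else A i - P.x)` is
`v (if 1 < v P.x then P.x else 1) ^ card * v (if v (P.x - r) < 1 ∧ P.y ≠ 0 then P.y else 1) ^ ℓ`
(`P.y ^ ℓ = ∏ (P.x - A i)`); the products over `D` of the two functions of `P` are fixed by `Γ`, so
their values are in `ϖ ^ ℤ[1/p]`; for the first one, its `m`-th power, `m = card ι`, is an `ℓ`-th power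
(`v P.x ^ m = v P.y ^ ℓ` if `1 < v P.x`) and `m` is prime to `ℓ` (`Val.of_pow`).
-/

open Polynomial

open scoped Classical

namespace Pool.Agent.Lib.MP_89bcae_ag.Wt.Lns

open Pool.Agent.Lib.MP_89bcae_ag.Sup Pool.Agent.Lib.MP_89bcae_ag.Sup.Lns

universe u

variable {ι : Type} [Fintype ι] [LinearOrder ι] {F M : Type u} [Field F] [Field M] [Algebra F M]
  {v : AbsoluteValue M ℝ} {s : F} {t : M} {a : ι → F[X]} {w : ι → ℕ}

/-- The polynomial `∏ (x - a_i(t)) ^ w_i`. -/
noncomputable def lineW {ι : Type} [Fintype ι] {F M : Type u} [Field F] [Field M] [Algebra F M]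
    (w : ι → ℕ) (a : ι → F[X]) (t : M) : M[X] :=
  ∏ i, (X - C (aeval t (a i))) ^ w i

omit [LinearOrder ι] in
lemma eval_lineW (x : M) : (lineW w a t).eval x = ∏ i, (x - aeval t (a i)) ^ w i := by
  unfold lineW
  rw [eval_prod]
  simp

omit [LinearOrder ι] in
lemma lineW_ne_zero : lineW w a t ≠ 0 := by
  unfold lineW
  exact Finset.prod_ne_zero_iff.2 fun i _ => pow_ne_zero _ (X_sub_C_ne_zero _)

omit [LinearOrder ι] in
lemma lineW_natDegree : (lineW w a t).natDegree = ∑ i, w i := by
  unfold lineW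
  rw [natDegree_prod_of_monic _ _ fun i _ => (monic_X_sub_C _).pow _]
  simp

omit [LinearOrder ι] in
lemma eval_lineW_eq_zero (hw : ∀ i, w i ≠ 0) {x : M} :
    (lineW w a t).eval x = 0 ↔ ∃ i, x = aeval t (a i) := by
  rw [eval_lineW, Finset.prod_eq_zero_iff]
  constructor
  · rintro ⟨i, -, hi⟩
    exact ⟨i, sub_eq_zero.1 ((pow_eq_zero_iff (hw i)).1 hi)⟩
  · rintro ⟨i, hi⟩
    exact ⟨i, Finset.mem_univ i, by rw [sub_eq_zero.2 hi, zero_pow (hw i)]⟩

omit [LinearOrder ι] in
lemma root_lineW (hw : ∀ i, w i ≠ 0) (i : ι) : (lineW w a t).eval (aeval t (a i)) = 0 :=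
  (eval_lineW_eq_zero hw).2 ⟨i, rfl⟩

omit [LinearOrder ι] in
lemma mem_rts_lineW (hw : ∀ i, w i ≠ 0) {x : M} :
    x ∈ rts (lineW w a t) ↔ ∃ i, x = aeval t (a i) := by
  rw [mem_rts lineW_ne_zero, eval_lineW_eq_zero hw]

omit [LinearOrder ι] in
lemma prod_rts_lineW (hw : ∀ i, w i ≠ 0) {N : Type*} [CommMonoid N]
    (hinj : Function.Injective fun i => aeval t (a i)) (φ : M → N) :
    ∏ θ ∈ rts (lineW w a t), φ θ = ∏ i, φ (aeval t (a i)) := by
  have h1 : rts (lineW w a t) = Finset.univ.image (fun i => aeval t (a i)) := by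
    ext x
    rw [mem_rts_lineW hw, Finset.mem_image]
    constructor
    · rintro ⟨i, hi⟩
      exact ⟨i, Finset.mem_univ i, hi.symm⟩
    · rintro ⟨i, -, hi⟩
      exact ⟨i, hi.symm⟩
  rw [h1, Finset.prod_image fun i _ j _ hij => hinj hij]

omit [LinearOrder ι] in
lemma sum_rts_lineW (hw : ∀ i, w i ≠ 0) {N : Type*} [AddCommMonoid N]
    (hinj : Function.Injective fun i => aeval t (a i)) (φ : M → N) :
    ∑ θ ∈ rts (lineW w a t), φ θ = ∑ i, φ (aeval t (a i)) := by
  have h1 : rts (lineW w a t) = Finset.univ.image (fun i => aeval t (a i)) := by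
    ext x
    rw [mem_rts_lineW hw, Finset.mem_image]
    constructor
    · rintro ⟨i, hi⟩
      exact ⟨i, Finset.mem_univ i, hi.symm⟩
    · rintro ⟨i, -, hi⟩
      exact ⟨i, hi.symm⟩
  rw [h1, Finset.sum_image fun i _ j _ hij => hinj hij]

omit [LinearOrder ι] in
/-- The multiplicities of the roots. -/
lemma wt_lineW (hinj : Function.Injective fun i => aeval t (a i)) (i : ι) :
    wt (lineW w a t) (aeval t (a i)) = w i := by
  have h1 : lineW w a t = (X - C (aeval t (a i))) ^ w i *
      ∏ j ∈ Finset.univ.erase i, (X - C (aeval t (a j))) ^ w j := by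
    unfold lineW
    exact (Finset.mul_prod_erase Finset.univ (fun j => (X - C (aeval t (a j))) ^ w j)
      (Finset.mem_univ i)).symm
  have h2 : (∏ j ∈ Finset.univ.erase i, (X - C (aeval t (a j))) ^ w j).eval (aeval t (a i)) ≠ 0 := by
    rw [eval_prod, Finset.prod_ne_zero_iff]
    intro j hj
    rw [eval_pow, eval_sub, eval_X, eval_C]
    refine pow_ne_zero _ (sub_ne_zero.2 fun h0 => Finset.ne_of_mem_erase hj ?_)
    exact (hinj h0).symm
  unfold wt
  rw [h1, rootMultiplicity_mul (by rw [← h1]; exact lineW_ne_zero),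
    rootMultiplicity_X_sub_C_pow, rootMultiplicity_eq_zero h2, add_zero]

/-- The values of the cofactors. -/
lemma cof_lineW (hinj : Function.Injective fun i => aeval t (a i)) (i : ι) :
    cof (lineW w a t) (aeval t (a i)) =
      ∏ j ∈ Finset.univ.erase i, (aeval t (a i) - aeval t (a j)) ^ w j := by
  have h1 : lineW w a t = (X - C (aeval t (a i))) ^ w i *
      ∏ j ∈ Finset.univ.erase i, (X - C (aeval t (a j))) ^ w j := by
    unfold lineW
    exact (Finset.mul_prod_erase Finset.univ (fun j => (X - C (aeval t (a j))) ^ w j)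
      (Finset.mem_univ i)).symm
  have h2 : cofP (lineW w a t) (aeval t (a i)) =
      ∏ j ∈ Finset.univ.erase i, (X - C (aeval t (a j))) ^ w j := by
    have h3 := wt_mul (lineW w a t) (aeval t (a i))
    rw [wt_lineW hinj] at h3
    have h4 : (X - C (aeval t (a i))) ^ w i ≠ 0 := pow_ne_zero _ (X_sub_C_ne_zero _)
    exact mul_left_cancel₀ h4 (h3.trans h1)
  unfold cof
  rw [h2, eval_prod]
  simp

omit [Fintype ι] [LinearOrder ι] in
private lemma la01_res (h : LocCtx v s t) (i : ι) :
    v (aeval t (a i) - algebraMap F M ((a i).eval s)) < 1 :=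
  h.residue_eval h.lt_one (a i)

omit [Fintype ι] [LinearOrder ι] in
lemma v_line_le (h : LocCtx v s t) (i : ι) : v (aeval t (a i)) ≤ 1 :=
  h.v_le_one (la01_res h i)

omit [Fintype ι] [LinearOrder ι] in
lemma v_line_sub (h : LocCtx v s t) {i j : ι} (hij : (a i).eval s ≠ (a j).eval s) :
    v (aeval t (a i) - aeval t (a j)) = 1 := by
  have h1 := h.residue_eval h.lt_one (a i - a j)
  rw [map_sub (aeval (R := F) t)] at h1
  refine h.v_eq_one h1 ?_
  rw [eval_sub]
  exact sub_ne_zero.2 hij

omit [Fintype ι] [LinearOrder ι] in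
/-- At a simple root `s` of the polynomial `Q`, the residue of `Q(t) / (t - s)` is `Q'(s)`. -/
lemma residue_simple (h : LocCtx v s t) {Q : F[X]} (hQ : Q.eval s = 0) :
    v (aeval t Q / (t - algebraMap F M s) - algebraMap F M ((derivative Q).eval s)) < 1 := by
  obtain ⟨q, hq⟩ := dvd_iff_isRoot.2 hQ
  have h1 : aeval t Q / (t - algebraMap F M s) = aeval t q := by
    rw [hq, map_mul, map_sub (aeval (R := F) t), aeval_X, aeval_C,
      mul_div_cancel_left₀ _ (sub_ne_zero.2 h.ne)]
  have h2 : (derivative Q).eval s = q.eval s := by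
    rw [hq]
    simp
  rw [h1, h2]
  exact h.residue_eval h.lt_one q

omit [Fintype ι] [LinearOrder ι] in
lemma v_line_node (h : LocCtx v s t) {i j : ι} (hij : (a i).eval s = (a j).eval s)
    (hd : (derivative (a i - a j)).eval s ≠ 0) :
    v (aeval t (a i) - aeval t (a j)) = v (t - algebraMap F M s) := by
  have h1 := residue_simple h (Q := a i - a j) (by rw [eval_sub, hij, sub_self])
  have h2 := h.v_eq_one h1 hd
  have h3 : v (t - algebraMap F M s) ≠ 0 := v.ne_zero (sub_ne_zero.2 h.ne)
  rw [map_div₀, map_sub (aeval (R := F) t), div_eq_one_iff_eq h3] at h2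
  exact h2

/-! ### The valuations -/

omit [Fintype ι] [LinearOrder ι] in
private lemma la01_sub_comm (x y : M) : v (x - y) = v (y - x) := by
  rw [← neg_sub, map_neg_eq_map]

private lemma la01_sym_injective {ℓ : ℕ} {f : M[X]} (σ : Sym f) :
    Function.Injective (Pt.sym σ : Pt ℓ f → Pt ℓ f) := by
  intro P Q hPQ
  have hx : (σ : M ≃+* M) P.x = (σ : M ≃+* M) Q.x := congrArg Pt.x hPQ
  have hy : (σ : M ≃+* M) P.y = (σ : M ≃+* M) Q.y := congrArg Pt.y hPQ
  exact Pt.ext ((σ : M ≃+* M).injective hx) ((σ : M ≃+* M).injective hy)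

/-- A product over an invariant divisor of equivariant quantities is invariant. -/
private lemma la01_prod_fixed {ℓ : ℕ} {f : M[X]} (σ : Sym f) (D : Pt ℓ f →₀ ℤ)
    (hD : D.mapDomain (Pt.sym σ) = D) (φ : Pt ℓ f → M)
    (hφ : ∀ P, (σ : M ≃+* M) (φ P) = φ (P.sym σ)) :
    (σ : M ≃+* M) (D.prod fun P n => φ P ^ n) = D.prod fun P n => φ P ^ n := by
  conv_rhs => rw [← hD, Finsupp.prod_mapDomain_index_inj (la01_sym_injective σ)]
  rw [map_finsuppProd]
  refine Finsupp.prod_congr ?_
  intro P _
  rw [map_zpow₀, hφ]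

private lemma la01_prod_ne_zero {ℓ : ℕ} {f : M[X]} (D : Pt ℓ f →₀ ℤ) (φ : Pt ℓ f → M)
    (hφ : ∀ P, φ P ≠ 0) : (D.prod fun P n => φ P ^ n) ≠ 0 :=
  Finset.prod_ne_zero_iff.2 fun P _ => zpow_ne_zero _ (hφ P)

private lemma la01_v_prod {ℓ : ℕ} {f : M[X]} (D : Pt ℓ f →₀ ℤ) (φ : Pt ℓ f → M) :
    v (D.prod fun P n => φ P ^ n) = ∏ P ∈ D.support, v (φ P) ^ D P := by
  rw [Finsupp.prod, map_prod]
  refine Finset.prod_congr rfl ?_
  intro P _
  rw [map_zpow₀]

/-- The values of `∏ φ(P) ^ D(P)` for an equivariant function `φ`. -/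
private lemma la01_val {ℓ p : ℕ} {f : M[X]} {ϖ : ℝ} {Γ : Subgroup (Sym f)}
    (hΓ : LocGrp p F v t ϖ Γ) (D : Pt ℓ f →₀ ℤ) (hD : ∀ σ ∈ Γ, D.mapDomain (Pt.sym σ) = D)
    (φ : Pt ℓ f → M) (h0 : ∀ P, φ P ≠ 0)
    (hφ : ∀ σ ∈ Γ, ∀ P, (σ : M ≃+* M) (φ P) = φ (P.sym σ)) :
    Val p ϖ (∏ P ∈ D.support, v (φ P) ^ D P) := by
  rw [← la01_v_prod]
  exact hΓ.disc _ (la01_prod_ne_zero D φ h0) fun σ hσ =>
    la01_prod_fixed σ D (hD σ hσ) φ (hφ σ hσ)

omit [LinearOrder ι] in
private lemma la01_v_eq {ℓ : ℕ} (P : Pt ℓ (lineW w a t)) :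
    ∏ i, v (P.x - aeval t (a i)) ^ w i = v P.y ^ ℓ := by
  rw [← map_pow, P.eq, eval_lineW, map_prod]
  exact Finset.prod_congr rfl fun i _ => (map_pow v _ _).symm

omit [Fintype ι] [LinearOrder ι] in
/-- `v (x - A i) = v x` for `x` large. -/
private lemma la01_big (h : LocCtx v s t) {x : M} (hx : 1 < v x) (i : ι) :
    v (aeval t (a i) - x) = v x := by
  have hθ1 := v_line_le (a := a) h i
  apply le_antisymm
  · have h2 : aeval t (a i) - x = aeval t (a i) + -x := by ring
    rw [h2]
    refine (h.nonarch _ _).trans (max_le (hθ1.trans hx.le) ?_)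
    rw [map_neg_eq_map]
  · have h2 : x = -(aeval t (a i) - x) + aeval t (a i) := by ring
    have h1 := h.nonarch (-(aeval t (a i) - x)) (aeval t (a i))
    rw [← h2, map_neg_eq_map] at h1
    rcases le_max_iff.1 h1 with h3 | h3
    · exact h3
    · exact absurd (h3.trans hθ1) (not_le.2 hx)

omit [Fintype ι] [LinearOrder ι] in
/-- `v (x - A i) = 1` if the residues are different. -/
private lemma la01_far (h : LocCtx v s t) {x : M} {r : F} (hx : v (x - algebraMap F M r) < 1)
    {i : ι} (hi : (a i).eval s ≠ r) : v (x - aeval t (a i)) = 1 := by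
  have h1 := la01_res (a := a) h i
  have h2 : v (x - aeval t (a i) - algebraMap F M (r - (a i).eval s)) < 1 := by
    have h3 : x - aeval t (a i) - algebraMap F M (r - (a i).eval s) =
        (x - algebraMap F M r) + -(aeval t (a i) - algebraMap F M ((a i).eval s)) := by
      rw [map_sub]
      ring
    rw [h3]
    refine (h.nonarch _ _).trans_lt (max_lt hx ?_)
    rw [map_neg_eq_map]
    exact h1
  exact h.v_eq_one h2 (sub_ne_zero.2 hi.symm)

/-- The part of `P` near `r`. -/
private noncomputable def la01_psi (v : AbsoluteValue M ℝ) (w : ι → ℕ) (a : ι → F[X]) (t : M)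
    {ℓ : ℕ} (r : F) (P : Pt ℓ (lineW w a t)) : M :=
  if v (P.x - algebraMap F M r) < 1 then
    (if P.y ≠ 0 then P.y else (cof (lineW w a t) P.x ^ be ℓ (wt (lineW w a t) P.x))⁻¹)
  else 1

private lemma la01_factor (h : LocCtx v s t) (hw : ∀ i, w i ≠ 0)
    (hinj : Function.Injective fun i => aeval t (a i)) {ℓ : ℕ} [hG : IsGood ℓ (lineW w a t)]
    (r : F) (P : Pt ℓ (lineW w a t)) :
    ∏ i ∈ Finset.univ.filter (fun i => (a i).eval s = r),
      v (if P.x = aeval t (a i) then (cof (lineW w a t) (aeval t (a i)) ^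
          al ℓ (wt (lineW w a t) (aeval t (a i))))⁻¹
        else aeval t (a i) - P.x) ^ w i =
    v (if 1 < v P.x then P.x else 1) ^
        (∑ i ∈ Finset.univ.filter (fun i => (a i).eval s = r), w i) *
      v (la01_psi v w a t r P) ^ ℓ := by
  unfold la01_psi
  by_cases hbig : 1 < v P.x
  · have hnr : ¬ v (P.x - algebraMap F M r) < 1 := by
      intro h1
      exact absurd hbig (not_lt.2 (h.v_le_one h1))
    rw [if_pos hbig, if_neg hnr, map_one, one_pow, mul_one, ← Finset.prod_pow_eq_pow_sum]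
    refine Finset.prod_congr rfl fun i _ => ?_
    rw [if_neg, la01_big h hbig i]
    intro h1
    rw [h1] at hbig
    exact absurd hbig (not_lt.2 (v_line_le h i))
  · rw [if_neg hbig, map_one, one_pow, one_mul]
    by_cases hr : v (P.x - algebraMap F M r) < 1
    · rw [if_pos hr]
      by_cases hy : P.y = 0
      · rw [if_neg (fun hh => hh hy)]
        have hPx : (lineW w a t).eval P.x = 0 := by
          rw [← P.eq, hy, zero_pow hG.ne]
        obtain ⟨i₀, hi₀⟩ := (eval_lineW_eq_zero hw).1 hPx
        have hi₀r : (a i₀).eval s = r := by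
          rw [hi₀] at hr
          exact h.residue_unique (la01_res h i₀) hr
        have hmem : i₀ ∈ Finset.univ.filter (fun i => (a i).eval s = r) :=
          Finset.mem_filter.2 ⟨Finset.mem_univ _, hi₀r⟩
        have hcof0 : cof (lineW w a t) (aeval t (a i₀)) ≠ 0 := cof_ne_zero lineW_ne_zero _
        rw [← Finset.mul_prod_erase _ _ hmem, if_pos hi₀, map_inv₀, hi₀]
        have e1 : ∏ i ∈ (Finset.univ.filter (fun i => (a i).eval s = r)).erase i₀,
            v (if aeval t (a i₀) = aeval t (a i) then (cof (lineW w a t) (aeval t (a i)) ^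
              al ℓ (wt (lineW w a t) (aeval t (a i))))⁻¹
              else aeval t (a i) - aeval t (a i₀)) ^ w i =
            ∏ i ∈ (Finset.univ.filter (fun i => (a i).eval s = r)).erase i₀,
              v (aeval t (a i₀) - aeval t (a i)) ^ w i := by
          refine Finset.prod_congr rfl ?_
          intro i hi
          rw [if_neg, la01_sub_comm]
          intro h1
          exact Finset.ne_of_mem_erase hi (hinj h1).symm
        have e2 : ∏ i ∈ (Finset.univ.filter (fun i => (a i).eval s = r)).erase i₀,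
            v (aeval t (a i₀) - aeval t (a i)) ^ w i =
            ∏ i ∈ Finset.univ.erase i₀, v (aeval t (a i₀) - aeval t (a i)) ^ w i := by
          apply Finset.prod_subset (Finset.erase_subset_erase _ (Finset.filter_subset _ _))
          intro i hi hn
          rw [Finset.mem_erase] at hi
          rw [v_line_sub h, one_pow]
          intro h1
          exact hn (Finset.mem_erase.2 ⟨hi.1, Finset.mem_filter.2 ⟨Finset.mem_univ _,
            h1.symm.trans hi₀r⟩⟩)
        have e3 : ∏ i ∈ Finset.univ.erase i₀, v (aeval t (a i₀) - aeval t (a i)) ^ w i =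
            v (cof (lineW w a t) (aeval t (a i₀))) := by
          rw [cof_lineW hinj, map_prod]
          exact Finset.prod_congr rfl fun i _ => (map_pow v _ _).symm
        have e4 : al ℓ (w i₀) * w i₀ = be ℓ (w i₀) * ℓ + 1 := by
          have h5 := al_wt (N := ℓ) (root_lineW (t := t) (a := a) hw i₀)
          rwa [wt_lineW hinj] at h5
        have hv0 : v (cof (lineW w a t) (aeval t (a i₀))) ≠ 0 := v.ne_zero hcof0
        rw [e1, e2, e3, wt_lineW hinj, map_pow, map_inv₀, map_pow, inv_pow, inv_pow, ← pow_mul,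
          ← pow_mul, e4, pow_succ, mul_inv, mul_assoc, inv_mul_cancel₀ hv0, mul_one]
      · rw [if_pos hy, ← la01_v_eq P]
        have hne : ∀ i, P.x ≠ aeval t (a i) := by
          intro i h1
          apply hy
          have h2 := P.eq
          rw [h1, root_lineW hw] at h2
          exact (pow_eq_zero_iff hG.ne).1 h2
        have e1 : ∏ i, v (P.x - aeval t (a i)) ^ w i =
            ∏ i ∈ Finset.univ.filter (fun i => (a i).eval s = r),
              v (P.x - aeval t (a i)) ^ w i := by
          symm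
          apply Finset.prod_subset (Finset.filter_subset _ _)
          intro i _ hn
          rw [la01_far h hr, one_pow]
          intro h1
          exact hn (Finset.mem_filter.2 ⟨Finset.mem_univ _, h1⟩)
        rw [e1]
        refine Finset.prod_congr rfl ?_
        intro i _
        rw [if_neg (hne i), la01_sub_comm]
    · rw [if_neg hr, map_one, one_pow]
      refine Finset.prod_eq_one ?_
      intro i hi
      have hir : (a i).eval s = r := (Finset.mem_filter.1 hi).2
      have hθr := la01_res (a := a) h i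
      rw [hir] at hθr
      have hθ1 := v_line_le (a := a) h i
      rw [if_neg (by intro h1; rw [h1] at hr; exact hr hθr)]
      have h5 : v (aeval t (a i) - P.x) = 1 := by
        apply le_antisymm
        · have h2 : aeval t (a i) - P.x = aeval t (a i) + -P.x := by ring
          rw [h2]
          refine (h.nonarch _ _).trans (max_le hθ1 ?_)
          rw [map_neg_eq_map]
          exact not_lt.1 hbig
        · by_contra hlt
          apply hr
          have h2 : P.x - algebraMap F M r =
              -(aeval t (a i) - P.x) + (aeval t (a i) - algebraMap F M r) := by ring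
          rw [h2]
          refine lt_of_le_of_lt (h.nonarch _ _) (max_lt ?_ hθr)
          rw [map_neg_eq_map]
          exact not_le.1 hlt
      rw [h5, one_pow]

/-- The valuations of the functions `uval D`, for an invariant divisor `D`. -/
theorem val_uval_line (h : LocCtx v s t) (hw : ∀ i, w i ≠ 0)
    (hinj : Function.Injective fun i => aeval t (a i)) {ℓ p : ℕ} [hG : IsGood ℓ (lineW w a t)]
    {ϖ : ℝ} {Γ : Subgroup (Sym (lineW w a t))}
    (hΓ : LocGrp p F v t ϖ Γ) (D : Pt ℓ (lineW w a t) →₀ ℤ)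
    (hD : ∀ σ ∈ Γ, D.mapDomain (Pt.sym σ) = D) (r : F) :
    Val p (ϖ ^ ℓ) (∏ i ∈ Finset.univ.filter (fun i => (a i).eval s = r),
      v (uval D (aeval t (a i))) ^ w i) := by
  have hsymx : ∀ (σ : Sym (lineW w a t)) (P : Pt ℓ (lineW w a t)),
      (P.sym σ).x = (σ : M ≃+* M) P.x := fun σ P => rfl
  have hsymy : ∀ (σ : Sym (lineW w a t)) (P : Pt ℓ (lineW w a t)),
      (P.sym σ).y = (σ : M ≃+* M) P.y := fun σ P => rfl
  have hprod2 : ∏ i ∈ Finset.univ.filter (fun i => (a i).eval s = r),
      v (uval D (aeval t (a i))) ^ w i =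
      (∏ P ∈ D.support, v (if 1 < v P.x then P.x else 1) ^ D P) ^
        (∑ i ∈ Finset.univ.filter (fun i => (a i).eval s = r), w i) *
      (∏ P ∈ D.support, v (la01_psi v w a t r P) ^ D P) ^ ℓ := by
    have hcomm : ∀ (y : ℝ) (n : ℤ) (m : ℕ), (y ^ n) ^ m = (y ^ m) ^ n := by
      intro y n m
      rw [← zpow_natCast, ← zpow_natCast, ← zpow_mul, ← zpow_mul, mul_comm]
    have e1 : ∀ i ∈ Finset.univ.filter (fun i => (a i).eval s = r),
        v (uval D (aeval t (a i))) ^ w i = ∏ P ∈ D.support,
        (v (if P.x = aeval t (a i) then (cof (lineW w a t) (aeval t (a i)) ^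
          al ℓ (wt (lineW w a t) (aeval t (a i))))⁻¹
          else aeval t (a i) - P.x) ^ w i) ^ D P := by
      intro i _
      unfold uval
      rw [Finsupp.prod, map_prod, ← Finset.prod_pow]
      refine Finset.prod_congr rfl ?_
      intro P _
      rw [map_zpow₀]
      exact hcomm _ _ _
    rw [Finset.prod_congr rfl e1, Finset.prod_comm, ← Finset.prod_pow, ← Finset.prod_pow,
      ← Finset.prod_mul_distrib]
    refine Finset.prod_congr rfl ?_
    intro P _
    rw [Finset.prod_zpow, la01_factor h hw hinj r P, mul_zpow]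
    congr 1
    · rw [← zpow_natCast, ← zpow_natCast, ← zpow_mul, ← zpow_mul, mul_comm]
    · rw [← zpow_natCast, ← zpow_natCast, ← zpow_mul, ← zpow_mul, mul_comm]
  rw [hprod2]
  -- the big part
  have hX : Val p ϖ (∏ P ∈ D.support, v (if 1 < v P.x then P.x else 1) ^ D P) := by
    refine la01_val hΓ D hD (fun P => if 1 < v P.x then P.x else 1) ?_ ?_
    · intro P
      show (if 1 < v P.x then P.x else 1) ≠ 0
      split_ifs with h1
      · intro h0
        rw [h0, map_zero] at h1
        exact absurd h1 (not_lt.2 zero_le_one)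
      · exact one_ne_zero
    · intro σ hσ P
      simp only [hsymx, hΓ.inv σ hσ]
      split_ifs
      · rfl
      · exact map_one _
  have hbigprod : ∀ P : Pt ℓ (lineW w a t), 1 < v P.x →
      v P.x ^ (∑ i, w i) = v P.y ^ ℓ := by
    intro P hP
    rw [← la01_v_eq P, ← Finset.prod_pow_eq_pow_sum]
    refine Finset.prod_congr rfl fun i _ => ?_
    rw [la01_sub_comm, la01_big h hP i]
  have hX' : Val p ϖ (∏ P ∈ D.support, v (if 1 < v P.x then P.y else 1) ^ D P) := by
    refine la01_val hΓ D hD (fun P => if 1 < v P.x then P.y else 1) ?_ ?_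
    · intro P
      show (if 1 < v P.x then P.y else 1) ≠ 0
      split_ifs with h1
      · intro h0
        have h2 := hbigprod P h1
        rw [h0, map_zero, zero_pow hG.ne] at h2
        have h3 : 0 < v P.x ^ (∑ i, w i) := pow_pos (zero_lt_one.trans h1) _
        exact h3.ne' h2
      · exact one_ne_zero
    · intro σ hσ P
      simp only [hsymx, hsymy, hΓ.inv σ hσ]
      split_ifs
      · rfl
      · exact map_one _
  have hXm : (∏ P ∈ D.support, v (if 1 < v P.x then P.x else 1) ^ D P) ^ (∑ i, w i) =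
      (∏ P ∈ D.support, v (if 1 < v P.x then P.y else 1) ^ D P) ^ ℓ := by
    rw [← Finset.prod_pow, ← Finset.prod_pow]
    refine Finset.prod_congr rfl ?_
    intro P _
    have e1 : ∀ (x : ℝ) (m : ℕ), (x ^ D P) ^ m = (x ^ m) ^ D P := by
      intro x m
      rw [← zpow_natCast, ← zpow_natCast, ← zpow_mul, ← zpow_mul, mul_comm]
    rw [e1, e1]
    congr 1
    split_ifs with h1
    · exact hbigprod P h1
    · simp
  have hXpos : 0 < ∏ P ∈ D.support, v (if 1 < v P.x then P.x else 1) ^ D P := by
    refine Finset.prod_pos ?_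
    intro P _
    refine zpow_pos ?_ _
    split_ifs with h1
    · exact zero_lt_one.trans h1
    · rw [map_one]; exact one_pos
  have hmℓ : (∑ i, w i).Coprime ℓ := by
    have h1 := hG.coprime
    rwa [lineW_natDegree] at h1
  have hXval : Val p (ϖ ^ ℓ) (∏ P ∈ D.support, v (if 1 < v P.x then P.x else 1) ^ D P) := by
    refine Val.of_pow hΓ.pos hΓ.lt_one hmℓ hXpos hX ?_
    rw [hXm]
    exact Val.pow_self ℓ hX'
  -- the part near `r`
  have hB : Val p ϖ (∏ P ∈ D.support, v (la01_psi v w a t r P) ^ D P) := by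
    refine la01_val hΓ D hD (fun P => la01_psi v w a t r P) ?_ ?_
    · intro P
      show la01_psi v w a t r P ≠ 0
      unfold la01_psi
      split_ifs with h1 h2
      · exact h2
      · exact inv_ne_zero (pow_ne_zero _ (cof_ne_zero lineW_ne_zero _))
      · exact one_ne_zero
    · intro σ hσ P
      have e1 : v ((σ : M ≃+* M) P.x - algebraMap F M r) = v (P.x - algebraMap F M r) := by
        rw [← hΓ.inv σ hσ (P.x - algebraMap F M r), map_sub (σ : M ≃+* M), hΓ.fix σ hσ]
      have e2 : ((σ : M ≃+* M) P.y ≠ 0) = (P.y ≠ 0) := by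
        rw [ne_eq, map_eq_zero_iff _ (σ : M ≃+* M).injective]
      unfold la01_psi
      simp only [hsymx, hsymy, e1, e2]
      split_ifs
      · rfl
      · rw [map_inv₀, map_pow, ← cof_sym, wt_sym]
      · exact map_one _
  exact Val.mul (Val.pow hXval _) (Val.pow_self ℓ hB)

end Pool.Agent.Lib.MP_89bcae_ag.Wt.Lns
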