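import Mathlib
import Pool.Agent.Lib.MP_89bcae_ag.Wl.GDefs

/-!
ROW G04 (100-200 lines). Local triviality: sums, `Z`, coboundaries.

PROOFS. Unfold: for every algebraic closure `M` of `K`, every `j : Ω → M` over `L`, there is `Q` with
`j (c g') = g Q - Q`. Sum: add the `Q`s. `Z`: apply `Z` (of `M`, with `ζ_M = j ζ_Ω`; `zJ_jacMap`,
`push ℓ f σ = jacMap ..`; `M` is algebraically closed so `cOver k F L M P` is good, which is
obtained from the hypothesis `H : GlobHyp` by `isGood_cOver`). Coboundaries: if `c n σ = σ A - A` take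
`Q = j A` (`j ∘ g' = g ∘ j`; functoriality of `jacMap`: `CommRing.Pic.mapRingHom_comp_mapRingHom`).
`push_comp` : functoriality of `push`.
-/

open Polynomial IsDedekindDomain

open scoped Classical

namespace Pool.Agent.Lib.MP_89bcae_ag.Wt.Lns

open Pool.Agent.Lib.MP_89bcae_ag.Sup

universe u

variable {k F L Ω : Type u} [Field k] [Field F] [Algebra k F] [Field L] [Algebra F[X] L]
  [Field Ω] [Algebra L Ω] [IsAlgClosure k F] [IsFractionRing F[X] L] [IsAlgClosure L Ω]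
  {ℓ : ℕ} {P : k[X][X]} [hG : IsGood ℓ (cOver k F L Ω P)]

lemma LTc.add {c c' : Coch ℓ k F L Ω P} (hc : LTc c) (hc' : LTc c') : LTc (c + c') := by
  intro a n M _ _ _ _ _ j
  obtain ⟨Q, hQ⟩ := hc a n M j
  obtain ⟨Q', hQ'⟩ := hc' a n M j
  refine ⟨Q + Q', fun s s' h => ?_⟩
  rw [show (c + c') n s' = c n s' + c' n s' from rfl, map_add, hQ s s' h, hQ' s s' h, map_add]
  abel

lemma LTc.neg {c : Coch ℓ k F L Ω P} (hc : LTc c) : LTc (-c) := by
  intro a n M _ _ _ _ _ j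
  obtain ⟨Q, hQ⟩ := hc a n M j
  refine ⟨-Q, fun s s' h => ?_⟩
  rw [show (-c) n s' = -(c n s') from rfl, map_neg, hQ s s' h, map_neg]
  abel

lemma LTc.zC {ζ : k} (H : LHyp ℓ k F L P ζ) {c : Coch ℓ k F L Ω P} (hc : LTc c)
    (hζ : (zA F L Ω ζ) ^ ℓ = 1) : LTc (Lns.zC ζ hζ c) := by
  intro a n M _ _ _ _ _ j
  obtain ⟨Q, hQ⟩ := hc a n M j
  have : IsAlgClosed M := IsAlgClosure.isAlgClosed ((plc a).adicCompletion L)
  have hM : IsGood ℓ (cOver k F L M P) := H.good M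
  have hζM : ((j : Ω →+* M) (zA F L Ω ζ)) ^ ℓ = 1 := by
    rw [← map_pow, hζ, map_one]
  refine ⟨zJ ((j : Ω →+* M) (zA F L Ω ζ)) hζM Q, fun s s' h => ?_⟩
  have h1 : push ℓ (curveL k F L P) j (Lns.zC ζ hζ c n s') =
      zJ ((j : Ω →+* M) (zA F L Ω ζ)) hζM (push ℓ (curveL k F L P) j (c n s')) :=
    (zJ_jacMap (j : Ω →+* M) _ (zA F L Ω ζ) hζ hζM (c n s')).symm
  have hz : ((s.restrictScalars L : M →ₐ[L] M) : M →+* M) ((j : Ω →+* M) (zA F L Ω ζ)) =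
      (j : Ω →+* M) (zA F L Ω ζ) := by
    have h2 : (j : Ω →+* M) (zA F L Ω ζ) = algebraMap L M (base k F L L (C ζ)) :=
      j.commutes _
    rw [h2]
    exact (s.restrictScalars L : M →ₐ[L] M).commutes _
  have hζM' : (((s.restrictScalars L : M →ₐ[L] M) : M →+* M)
      ((j : Ω →+* M) (zA F L Ω ζ))) ^ ℓ = 1 := by
    rw [hz, hζM]
  have h3 : push ℓ (curveL k F L P) (s.restrictScalars L : M →ₐ[L] M)
      (zJ ((j : Ω →+* M) (zA F L Ω ζ)) hζM Q) = zJ ((j : Ω →+* M) (zA F L Ω ζ)) hζM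
        (push ℓ (curveL k F L P) (s.restrictScalars L : M →ₐ[L] M) Q) :=
    (zJ_jacMap ((s.restrictScalars L : M →ₐ[L] M) : M →+* M) _ _ hζM hζM' Q).symm.trans
      (G04_zJ_congr hz hζM' hζM _)
  rw [h1, hQ s s' h, map_sub, h3]

/-- A coboundary is locally trivial. -/
lemma LTc.of_coboundary {c : Coch ℓ k F L Ω P}
    (hc : ∀ n, ∃ A : JacOver ℓ (curveL k F L P) Ω, ∀ σ : Ω ≃ₐ[L] Ω,
      c n σ = symJ (toSym P (galA k F σ)) A - A) : LTc c := by
  intro a n M _ _ _ _ _ j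
  obtain ⟨A, hA⟩ := hc n
  refine ⟨push ℓ (curveL k F L P) j A, fun s s' h => ?_⟩
  have e : j.comp (s' : Ω →ₐ[L] Ω) = (s.restrictScalars L : M →ₐ[L] M).comp j :=
    AlgHom.ext h
  rw [hA s', ← push_eq (k := k) (F := F) (P := P) s' A, map_sub, push_push, push_push, e]

omit hG in
/-- A torsion cocycle is at every level a coboundary. -/
lemma TTc.exists_coboundary {c : Coch ℓ k F L Ω P} (hc : TTc c) (n : ℕ) :
    ∃ (s : ℕ) (A : JacOver ℓ (curveL k F L P) Ω), ℓ ^ (n + s) • A = 0 ∧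
      ∀ σ : Ω ≃ₐ[L] Ω, c n σ = push ℓ (curveL k F L P) (σ : Ω →ₐ[L] Ω) A - A := by
  obtain ⟨h1, s, h2⟩ := hc
  obtain ⟨A, hA, hcA⟩ := h2.2 (n + s)
  have h3 : ∀ (t j : ℕ) (σ : Ω ≃ₐ[L] Ω), ℓ ^ t • c (j + t) σ = c j σ := by
    intro t
    induction t with
    | zero =>
      intro j σ
      rw [pow_zero, one_smul, add_zero]
    | succ t ih =>
      intro j σ
      rw [pow_succ, mul_smul, ← add_assoc, h1.smul, ih]
  refine ⟨s, A, hA, fun σ => ?_⟩
  rw [← h3 s n σ]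
  exact hcA σ

lemma TTc.lt {c : Coch ℓ k F L Ω P} (hc : TTc c) : LTc c := by
  refine LTc.of_coboundary fun n => ?_
  obtain ⟨s, A, _, hA⟩ := hc.exists_coboundary n
  exact ⟨A, fun σ => hA σ⟩

/-- Shift of the levels. -/
lemma LTc.shift {c : Coch ℓ k F L Ω P} (hc : LTc c) (φ : ℕ → ℕ) :
    LTc (fun n => c (φ n) : Coch ℓ k F L Ω P) :=
  fun a n => hc a (φ n)

end Pool.Agent.Lib.MP_89bcae_ag.Wt.Lns
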