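import Mathlib
import Pool.Agent.Lib.MP_89bcae_ag.Wl.AGlob
import Pool.Agent.Lib.MP_89bcae_ag.Wl.G08

/-!
# The exponents of a cocycle
-/

open Polynomial IsDedekindDomain

open scoped Classical

namespace Pool.Agent.Lib.MP_89bcae_ag.Wt.Lns

open Pool.Agent.Lib.MP_89bcae_ag.Sup Pool.Agent.Lib.MP_89bcae_ag.Sup.Lns

universe u

set_option linter.unusedSectionVars false

/-- The product `∏ (t - s) ^ (m s)` over the roots `s` of the differences. -/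
noncomputable def TP {ι : Type} [Fintype ι] [LinearOrder ι] {F A : Type u} [Field F] [Field A]
    [Algebra F A] (a : ι → F[X]) (t : A) (m : F → ℤ) : A :=
  ∏ s ∈ SS a, (t - algebraMap F A s) ^ m s

section

variable {E : Type u} [Field E] {ℓ : ℕ}

lemma zpow_eq_iff {ζ : E} (hℓ : ℓ ≠ 0) (hζ : IsPrimitiveRoot ζ ℓ) (a b : ℤ) :
    ζ ^ a = ζ ^ b ↔ (ℓ : ℤ) ∣ a - b := by
  have h0 : ζ ≠ 0 := hζ.ne_zero hℓ
  rw [← hζ.zpow_eq_one_iff_dvd, zpow_sub₀ h0, div_eq_one_iff_eq (zpow_ne_zero _ h0)]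

lemma exists_zpow {ζ x y : E} (hℓ : ℓ ≠ 0) (hζ : IsPrimitiveRoot ζ ℓ) (hy : y ≠ 0)
    (h : x ^ ℓ = y ^ ℓ) : ∃ n : ℤ, x = ζ ^ n * y := by
  have : NeZero ℓ := ⟨hℓ⟩
  have h1 : (x / y) ^ ℓ = 1 := by
    rw [div_pow, h, div_self (pow_ne_zero _ hy)]
  obtain ⟨i, -, hi⟩ := hζ.eq_pow_of_pow_eq_one h1
  refine ⟨i, ?_⟩
  rw [zpow_natCast, hi, div_mul_cancel₀ _ hy]

lemma rm_zero' {f : E[X]} [hG : IsGood ℓ f] : (rm (fun _ => 0) : Jac ℓ f) = 0 := by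
  have h1 := rm_sub (N := ℓ) (f := f) (fun _ => 0) (fun _ => 0)
  exact h1.trans (sub_self _)

lemma rm_neg' {f : E[X]} [hG : IsGood ℓ f] (e : E → ℤ) :
    (rm (fun θ => -e θ) : Jac ℓ f) = -rm e := by
  have h1 := rm_sub (N := ℓ) (f := f) (fun _ => 0) e
  rw [rm_zero', zero_sub] at h1
  rw [← h1]
  congr 1
  funext θ
  rw [zero_sub]

lemma vJ_neg' {f : E[X]} [hG : IsGood ℓ f] (ζ : E) (hζ : ζ ^ ℓ = 1) (Q : Jac ℓ f) :
    vJ ζ hζ (-Q) = -vJ ζ hζ Q :=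
  (AddMonoidHom.mk' (vJ ζ hζ) (vJ_add ζ hζ)).map_neg Q

lemma coprime_expChar {K : Type*} [Field K] (hℓ : ℓ.Prime) (h : (ℓ : K) ≠ 0) :
    ℓ.Coprime (ringExpChar K) := by
  have h1 := ringExpChar.expChar K
  generalize ringExpChar K = q at h1 ⊢
  cases h1 with
  | zero => exact Nat.coprime_one_right ℓ
  | prime hp =>
    rw [Nat.coprime_primes hℓ hp]
    rintro rfl
    exact h (CharP.cast_eq_zero K _)

end

variable {ι : Type} [Fintype ι] [LinearOrder ι]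
  {k F L Ω : Type u} [Field k] [Field F] [Algebra k F] [Field L] [Algebra F[X] L]
  [Field Ω] [Algebra L Ω] [IsAlgClosure k F] [IsFractionRing F[X] L] [IsAlgClosure L Ω]
  [Algebra F Ω] {ℓ : ℕ} {W : ι → ℕ} {α : ι → k[X]} {ζ : k} {a : ι → F[X]}

lemma t_sub_ne (hF : CompatF F L Ω) (s : F) : tA F L Ω - algebraMap F Ω s ≠ 0 := by
  intro h0
  have h1 : aeval (tA F L Ω) (X - C s : F[X]) = aeval (tA F L Ω) (0 : F[X]) := by
    rw [map_sub, aeval_X, aeval_C, h0, map_zero]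
  exact X_sub_C_ne_zero s (tA_inj hF h1)

lemma TP_ne (hF : CompatF F L Ω) (m : F → ℤ) : TP a (tA F L Ω) m ≠ 0 :=
  Finset.prod_ne_zero_iff.2 fun s _ => zpow_ne_zero _ (t_sub_ne hF s)

lemma TP_add (hF : CompatF F L Ω) (m m' : F → ℤ) :
    TP a (tA F L Ω) (fun s => m s + m' s) = TP a (tA F L Ω) m * TP a (tA F L Ω) m' := by
  unfold TP
  rw [← Finset.prod_mul_distrib]
  exact Finset.prod_congr rfl fun s _ => zpow_add₀ (t_sub_ne hF s) _ _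

lemma TP_neg (m : F → ℤ) :
    TP a (tA F L Ω) (fun s => -m s) = (TP a (tA F L Ω) m)⁻¹ := by
  unfold TP
  rw [← Finset.prod_inv_distrib]
  exact Finset.prod_congr rfl fun s _ => zpow_neg _ _

lemma TP_sub (hF : CompatF F L Ω) (m m' : F → ℤ) :
    TP a (tA F L Ω) (fun s => m s - m' s) = TP a (tA F L Ω) m / TP a (tA F L Ω) m' := by
  unfold TP
  rw [← Finset.prod_div_distrib]
  exact Finset.prod_congr rfl fun s _ => zpow_sub₀ (t_sub_ne hF s) _ _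

lemma TP_mul (n : ℤ) (m : F → ℤ) :
    TP a (tA F L Ω) (fun s => n * m s) = (TP a (tA F L Ω) m) ^ n := by
  unfold TP
  rw [← Finset.prod_zpow]
  refine Finset.prod_congr rfl fun s _ => ?_
  rw [← zpow_mul, mul_comm]

lemma TP_sum (hF : CompatF F L Ω) {κ : Type*} (S : Finset κ) (m : κ → F → ℤ) :
    TP a (tA F L Ω) (fun s => ∑ i ∈ S, m i s) = ∏ i ∈ S, TP a (tA F L Ω) (m i) := by
  induction S using Finset.induction_on with
  | empty =>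
    unfold TP
    simp
  | insert i T hi ih =>
    rw [Finset.prod_insert hi, ← ih, ← TP_add hF]
    congr 1
    funext s
    rw [Finset.sum_insert hi]

lemma TP_congr (m m' : F → ℤ) (h : ∀ s ∈ SS a, m s = m' s) :
    TP a (tA F L Ω) m = TP a (tA F L Ω) m' :=
  Finset.prod_congr rfl fun s hs => by rw [h s hs]

lemma const_fixed (hF : CompatF F L Ω) (σ : Ω ≃ₐ[L] Ω) (c : F) :
    σ (algebraMap F Ω c) = algebraMap F Ω c := by
  rw [hF c]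
  exact σ.commutes _

lemma TP_gal (hF : CompatF F L Ω) (σ : Ω ≃ₐ[L] Ω) (m : F → ℤ) :
    σ (TP a (tA F L Ω) m) = TP a (tA F L Ω) m := by
  unfold TP
  rw [map_prod]
  refine Finset.prod_congr rfl fun s _ => ?_
  rw [map_zpow₀, map_sub, const_fixed hF]
  have h1 : σ (tA F L Ω) = tA F L Ω := σ.commutes _
  rw [h1]

lemma const_aut (hF : CompatF F L Ω) (γ : AutO k F L Ω) (c : F) :
    (γ : Ω ≃+* Ω) (algebraMap F Ω c) = algebraMap F Ω (resF γ c) := by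
  rw [hF c, resF_spec, map_C, hF]
  rfl

lemma tA_aut (γ : AutO k F L Ω) : (γ : Ω ≃+* Ω) (tA F L Ω) = tA F L Ω := by
  have h := γ.2 X
  have h1 : base k F L Ω X = tA F L Ω := by
    change algebraMap L Ω (algebraMap F[X] L ((X : k[X]).map (algebraMap k F))) = _
    rw [map_X]
    rfl
  rwa [h1] at h

lemma TP_aut (hF : CompatF F L Ω) (γ : AutO k F L Ω) (hγ : ∀ s ∈ SS a, resF γ s = s)
    (m : F → ℤ) : (γ : Ω ≃+* Ω) (TP a (tA F L Ω) m) = TP a (tA F L Ω) m := by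
  unfold TP
  rw [map_prod]
  refine Finset.prod_congr rfl fun s hs => ?_
  rw [map_zpow₀, map_sub, const_aut hF, hγ s hs, tA_aut]

/-- If `x ^ ℓ` is a product of powers of the `t - s` and `x` is fixed by the Galois group then the
exponents are divisible by `ℓ`. -/
lemma dvd_of_fixed (hF : CompatF F L Ω) (hℓ : ℓ.Prime) (hℓL : (ℓ : L) ≠ 0) {x : Ω} {c : F}
    (hc : c ≠ 0) {m : F → ℤ} (hx : x ^ ℓ = algebraMap F Ω c * TP a (tA F L Ω) m)
    (hfix : ∀ σ : Ω ≃ₐ[L] Ω, σ x = x) : ∀ s ∈ SS a, (ℓ : ℤ) ∣ m s := by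
  obtain ⟨r, y, hy⟩ := exists_pow_mem_L x hfix
  obtain ⟨A, B, hB, rfl⟩ := IsFractionRing.div_surjective (A := F[X]) y
  have hB0 : B ≠ 0 := nonZeroDivisors.ne_zero hB
  set q := ringExpChar L ^ r with hq
  have hc' : algebraMap F Ω c ≠ 0 := (_root_.map_ne_zero _).2 hc
  have h1 : TP a (tA F L Ω) (fun s => (q : ℤ) * m s) =
      algebraMap F Ω (c ^ q)⁻¹ * (aeval (tA F L Ω) A / aeval (tA F L Ω) B) ^ ℓ := by
    rw [TP_mul, zpow_natCast, aeval_tA hF, aeval_tA hF, ← map_div₀, ← hy, ← pow_mul, mul_comm q ℓ,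
      pow_mul, hx, mul_pow, map_inv₀, map_pow, ← mul_assoc,
      inv_mul_cancel₀ (pow_ne_zero _ hc'), one_mul]
  intro s hs
  have h2 := dvd_of_prod_eq_pow (θ := tA F L Ω) (fun p p' h => tA_inj hF h) (SS a)
    (fun s => (q : ℤ) * m s) (c ^ q)⁻¹ (inv_ne_zero (pow_ne_zero _ hc)) A B hB0 h1 s hs
  have h3 : IsCoprime (ℓ : ℤ) (q : ℤ) := by
    rw [Nat.isCoprime_iff_coprime]
    exact (coprime_expChar hℓ hℓL).pow_right r
  exact h3.dvd_of_dvd_mul_left h2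

lemma zA_gal (σ : Ω ≃ₐ[L] Ω) : σ (zA F L Ω ζ) = zA F L Ω ζ := σ.commutes _

/-- The converse. -/
lemma fixed_of_dvd (hF : CompatF F L Ω) (H : AHyp ℓ W α ζ) {x : Ω} {c : F} (hc : c ≠ 0)
    {m : F → ℤ} (hx : x ^ ℓ = algebraMap F Ω c * TP a (tA F L Ω) m)
    (hd : ∀ s ∈ SS a, (ℓ : ℤ) ∣ m s) (σ : Ω ≃ₐ[L] Ω) : σ x = x := by
  have hFc : IsAlgClosed F := IsAlgClosure.isAlgClosed k
  have hℓ0 := H.prime.ne_zero
  have h1 : ∀ s, ∃ i : ℤ, s ∈ SS a → m s = ℓ * i := by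
    intro s
    by_cases hs : s ∈ SS a
    · obtain ⟨i, hi⟩ := hd s hs
      exact ⟨i, fun _ => hi⟩
    · exact ⟨0, fun h => absurd h hs⟩
  choose i hi using h1
  obtain ⟨d, hd'⟩ := IsAlgClosed.exists_pow_nat_eq c (Nat.pos_of_ne_zero hℓ0)
  have hd0 : d ≠ 0 := by
    rintro rfl
    rw [zero_pow hℓ0] at hd'
    exact hc hd'.symm
  have h2 : x ^ ℓ = (algebraMap F Ω d * TP a (tA F L Ω) i) ^ ℓ := by
    rw [hx, mul_pow, ← map_pow, hd', ← zpow_natCast (TP a (tA F L Ω) i), ← TP_mul]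
    congr 1
    exact TP_congr _ _ hi
  have h3 : algebraMap F Ω d * TP a (tA F L Ω) i ≠ 0 :=
    mul_ne_zero ((_root_.map_ne_zero _).2 hd0) (TP_ne hF _)
  obtain ⟨n, hn⟩ := exists_zpow hℓ0 (zA_prim H.lhyp (F := F) (L := L) (A := Ω)) h3 h2
  rw [hn, map_mul, map_zpow₀, zA_gal, map_mul, const_fixed hF, TP_gal hF]

/-- The exponents `n` exist. -/
lemma exists_n (H : AHyp ℓ W α ζ) {z : ι → Ω} (hz : ∀ i, z i ≠ 0) (γ : AutO k F L Ω)
    (hγ : ∀ i, (γ : Ω ≃+* Ω) (z i ^ ℓ) = z i ^ ℓ) :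
    ∃ n : Ω → ℤ, ∀ i, (γ : Ω ≃+* Ω) (z i) = zA F L Ω ζ ^ n (rt k F L Ω α i) * z i := by
  have h1 : ∀ i, ∃ n : ℤ, (γ : Ω ≃+* Ω) (z i) = zA F L Ω ζ ^ n * z i := by
    intro i
    apply exists_zpow H.prime.ne_zero (zA_prim H.lhyp) (hz i)
    rw [← map_pow, hγ]
  choose n hn using h1
  obtain ⟨n', hn'⟩ := exists_fun (F := F) (L := L) (Ω := Ω) H n
  refine ⟨n', fun i => ?_⟩
  rw [hn']
  exact hn i

section

variable [hG : IsGood ℓ (cOver k F L Ω (arr W α))]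

/-- Comparison of the exponents. -/
lemma rm_eq_of_zpow (H : AHyp ℓ W α ζ) (n n' : Ω → ℤ)
    (h : ∀ i, zA F L Ω ζ ^ n (rt k F L Ω α i) = zA F L Ω ζ ^ n' (rt k F L Ω α i)) :
    (rm n : JacOver ℓ (curveL k F L (arr W α)) Ω) = rm n' := by
  apply rm_congr
  intro θ hθ
  obtain ⟨i, rfl⟩ := root_of_arr hθ
  exact (zpow_eq_iff H.prime.ne_zero (zA_prim H.lhyp) _ _).1 (h i)

/-- The exponents `e` describe the class of `c` modulo `1 - Z`. -/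
structure HasExp (hζ : (zA F L Ω ζ) ^ ℓ = 1) (c : Coch ℓ k F L Ω (arr W α)) (e : ι → F → ℤ) :
    Prop where
  node : ∀ s ∈ SS (aF F α), ∀ r : F,
    (ℓ : ℤ) ∣ ∑ i ∈ Finset.univ.filter (fun i => (aF F α i).eval s = r), W i * e i s
  ex : ∃ z : ι → Ω, (∀ i, z i ^ ℓ = TP (aF F α) (tA F L Ω) (e i)) ∧
    ∀ (σ : Ω ≃ₐ[L] Ω) (n : Ω → ℤ), (∀ i,
      σ (z i) = zA F L Ω ζ ^ n (rt k F L Ω α i) * z i) → vJ (zA F L Ω ζ) hζ (c 1 σ) = rm n

lemma z_ne (hF : CompatF F L Ω) (hℓ : ℓ.Prime) {x : Ω} {m : F → ℤ}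
    (hx : x ^ ℓ = TP a (tA F L Ω) m) : x ≠ 0 := by
  rintro rfl
  rw [zero_pow hℓ.ne_zero] at hx
  exact TP_ne hF m hx.symm

lemma exists_n_gal (hF : CompatF F L Ω) (H : AHyp ℓ W α ζ) {e : ι → F → ℤ} {z : ι → Ω}
    (hz : ∀ i, z i ^ ℓ = TP (aF F α) (tA F L Ω) (e i)) (σ : Ω ≃ₐ[L] Ω) :
    ∃ n : Ω → ℤ, ∀ i, σ (z i) = zA F L Ω ζ ^ n (rt k F L Ω α i) * z i := by
  refine exists_n H (fun i => z_ne hF H.prime (hz i)) (galA k F σ) fun i => ?_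
  rw [hz i]
  exact TP_gal hF σ _

variable {hζ : (zA F L Ω ζ) ^ ℓ = 1} {c c' : Coch ℓ k F L Ω (arr W α)} {e e' : ι → F → ℤ}

lemma HasExp.add (hF : CompatF F L Ω) (H : AHyp ℓ W α ζ) (h : HasExp hζ c e)
    (h' : HasExp hζ c' e') : HasExp hζ (c + c') (fun i s => e i s + e' i s) := by
  obtain ⟨z, hz, hzn⟩ := h.ex
  obtain ⟨z', hz', hzn'⟩ := h'.ex
  refine ⟨fun s hs r => ?_, fun i => z i * z' i, fun i => ?_, fun σ n hn => ?_⟩
  · simp only [mul_add]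
    rw [Finset.sum_add_distrib]
    exact dvd_add (h.node s hs r) (h'.node s hs r)
  · rw [mul_pow, hz i, hz' i]
    exact (TP_add hF _ _).symm
  · obtain ⟨n₁, hn₁⟩ := exists_n_gal hF H hz σ
    obtain ⟨n₂, hn₂⟩ := exists_n_gal hF H hz' σ
    have h1 : vJ (zA F L Ω ζ) hζ ((c + c') 1 σ) = rm (fun θ => n₁ θ + n₂ θ) := by
      rw [rm_add, ← hzn σ n₁ hn₁, ← hzn' σ n₂ hn₂, ← vJ_add]
      rfl
    rw [h1]
    refine rm_eq_of_zpow H _ _ fun i => ?_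
    have h2 := hn i
    rw [map_mul, hn₁ i, hn₂ i] at h2
    have h3 := z_ne hF H.prime (hz i)
    have h4 := z_ne hF H.prime (hz' i)
    rw [zpow_add₀ ((zA_prim H.lhyp).ne_zero H.prime.ne_zero)]
    apply mul_right_cancel₀ (mul_ne_zero h3 h4)
    rw [← h2]
    ring

lemma HasExp.neg (hF : CompatF F L Ω) (H : AHyp ℓ W α ζ) (h : HasExp hζ c e) :
    HasExp hζ (-c) (fun i s => -e i s) := by
  obtain ⟨z, hz, hzn⟩ := h.ex
  refine ⟨fun s hs r => ?_, fun i => (z i)⁻¹, fun i => ?_, fun σ n hn => ?_⟩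
  · simp only [mul_neg]
    rw [Finset.sum_neg_distrib]
    exact (dvd_neg).2 (h.node s hs r)
  · rw [inv_pow, hz i]
    exact (TP_neg _).symm
  · obtain ⟨n₁, hn₁⟩ := exists_n_gal hF H hz σ
    have h1 : vJ (zA F L Ω ζ) hζ ((-c) 1 σ) = rm (fun θ => -n₁ θ) := by
      rw [rm_neg', ← hzn σ n₁ hn₁, ← vJ_neg']
      rfl
    rw [h1]
    refine rm_eq_of_zpow H _ _ fun i => ?_
    have h2 := hn i
    have h3 := z_ne hF H.prime (hz i)
    rw [map_inv₀, hn₁ i, mul_inv, ← zpow_neg] at h2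
    exact mul_right_cancel₀ (inv_ne_zero h3) h2

lemma HasExp.congr (hF : CompatF F L Ω) (H : AHyp ℓ W α ζ) (h : HasExp hζ c e)
    (he : ∀ s ∈ SS (aF F α), ∀ i, (ℓ : ℤ) ∣ e' i s - e i s) : HasExp hζ c e' := by
  obtain ⟨z, hz, hzn⟩ := h.ex
  have h1 : ∀ i s, ∃ d : ℤ, s ∈ SS (aF F α) → e' i s = e i s + ℓ * d := by
    intro i s
    by_cases hs : s ∈ SS (aF F α)
    · obtain ⟨d, hd⟩ := he s hs i
      exact ⟨d, fun _ => by linarith⟩
    · exact ⟨0, fun h => absurd h hs⟩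
  choose d hd using h1
  refine ⟨fun s hs r => ?_, fun i => z i * TP (aF F α) (tA F L Ω) (d i), fun i => ?_,
    fun σ n hn => ?_⟩
  · have h2 : ∑ i ∈ Finset.univ.filter (fun i => (aF F α i).eval s = r), W i * e' i s =
        ∑ i ∈ Finset.univ.filter (fun i => (aF F α i).eval s = r), W i * e i s +
        ℓ * ∑ i ∈ Finset.univ.filter (fun i => (aF F α i).eval s = r), W i * d i s := by
      rw [Finset.mul_sum, ← Finset.sum_add_distrib]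
      refine Finset.sum_congr rfl fun i _ => ?_
      rw [hd i s hs]
      ring
    rw [h2]
    exact dvd_add (h.node s hs r) (dvd_mul_right _ _)
  · rw [mul_pow, hz i, ← zpow_natCast, ← TP_mul, ← TP_add hF]
    exact TP_congr _ _ fun s hs => (hd i s hs).symm
  · apply hzn
    intro i
    have h2 := hn i
    rw [map_mul, TP_gal hF, ← mul_assoc] at h2
    exact mul_right_cancel₀ (TP_ne hF _) h2

lemma HasExp.zC (h : HasExp hζ c e) : HasExp hζ (Lns.zC ζ hζ c) e := by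
  obtain ⟨z, hz, hzn⟩ := h.ex
  refine ⟨h.node, z, hz, fun σ n hn => ?_⟩
  have h1 : (Lns.zC ζ hζ c) 1 σ = zJ (zA F L Ω ζ) hζ (c 1 σ) := rfl
  rw [h1, vJ_zJ, hzn σ n hn, zJ_rm]

lemma conjG_inv_apply (γ : AutO k F L Ω) (σ : Ω ≃ₐ[L] Ω) (x : Ω) : (conjG γ⁻¹ σ) x =
    (γ : Ω ≃+* Ω).symm (σ ((γ : Ω ≃+* Ω) x)) := by
  have h2 := conjG_spec γ⁻¹ σ ((γ : Ω ≃+* Ω) x)
  have h3 : ∀ y : Ω, ((γ⁻¹ : AutO k F L Ω) : Ω ≃+* Ω) y = (γ : Ω ≃+* Ω).symm y :=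
    fun y => rfl
  rw [h3, h3, RingEquiv.symm_apply_apply] at h2
  exact h2

/-- The conjugates of `σ` act on the functions `z i` in the same way. -/
lemma conj_z (hF : CompatF F L Ω) (H : AHyp ℓ W α ζ) (γ : AutO k F L Ω)
    (hγ : ∀ s ∈ SS (aF F α), resF γ s = s) {z : ι → Ω}
    (hz : ∀ i, z i ^ ℓ = TP (aF F α) (tA F L Ω) (e i)) {σ : Ω ≃ₐ[L] Ω} {n : Ω → ℤ}
    (hn : ∀ i, σ (z i) = zA F L Ω ζ ^ n (rt k F L Ω α i) * z i) :
    ∀ i, (conjG γ⁻¹ σ) (z i) = zA F L Ω ζ ^ n (rt k F L Ω α i) * z i := by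
  intro i
  obtain ⟨q, hq⟩ := exists_n H (fun i => z_ne hF H.prime (hz i)) γ (fun i => by
    rw [hz i]
    exact TP_aut hF γ hγ _)
  have h6 : (γ : Ω ≃+* Ω).symm (zA F L Ω ζ) = zA F L Ω ζ := by
    rw [RingEquiv.symm_apply_eq]
    exact (zA_fixed ζ γ).symm
  have h7 : (γ : Ω ≃+* Ω).symm (z i) = (zA F L Ω ζ ^ q (rt k F L Ω α i))⁻¹ * z i := by
    rw [RingEquiv.symm_apply_eq, map_mul, map_inv₀, map_zpow₀, zA_fixed ζ γ, hq i, ← mul_assoc,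
      inv_mul_cancel₀, one_mul]
    exact zpow_ne_zero _ ((zA_prim H.lhyp).ne_zero H.prime.ne_zero)
  rw [conjG_inv_apply, hq i, map_mul, map_zpow₀, zA_gal, hn i, map_mul, map_mul, map_zpow₀,
    map_zpow₀, h6, h7]
  have h8 : zA F L Ω ζ ^ q (rt k F L Ω α i) ≠ 0 :=
    zpow_ne_zero _ ((zA_prim H.lhyp).ne_zero H.prime.ne_zero)
  field_simp

lemma HasExp.act (hF : CompatF F L Ω) (H : AHyp ℓ W α ζ) (h : HasExp hζ c e) (γ : AutO k F L Ω)
    (hγ : ∀ s ∈ SS (aF F α), resF γ s = s) : HasExp hζ (Lns.act γ c) e := by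
  obtain ⟨z, hz, hzn⟩ := h.ex
  refine ⟨h.node, z, hz, fun σ n hn => ?_⟩
  have h1 : (Lns.act γ c) 1 σ = symJ (toSym (arr W α) γ) (c 1 (conjG γ⁻¹ σ)) := rfl
  rw [h1, vJ_symJ _ _ _ (zA_fixed ζ γ), hzn _ n (conj_z hF H γ hγ hz hn), symJ_rm_arr]

/-- The exponents are unique modulo `ℓ`. -/
lemma HasExp.unique (hF : CompatF F L Ω) (H : AHyp ℓ W α ζ) (h : HasExp hζ c e)
    (h' : HasExp hζ c e') : ∀ s ∈ SS (aF F α), ∀ i, (ℓ : ℤ) ∣ e i s - e' i s := by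
  obtain ⟨z, hz, hzn⟩ := h.ex
  obtain ⟨z', hz', hzn'⟩ := h'.ex
  have hprim : IsPrimitiveRoot (zA F L Ω ζ) ℓ := zA_prim H.lhyp
  have hℓ0 := H.prime.ne_zero
  have hz0 : ∀ i, z i ≠ 0 := fun i => z_ne hF H.prime (hz i)
  have hz0' : ∀ i, z' i ≠ 0 := fun i => z_ne hF H.prime (hz' i)
  have hℓL : (ℓ : L) ≠ 0 := by
    intro h0
    apply H.ne
    have h1 : Function.Injective ((base k F L L).comp C) := RingHom.injective _
    apply h1
    rw [map_natCast, h0, map_zero]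
  have hsum : ∀ (e : ι → F → ℤ), (∀ s ∈ SS (aF F α), ∀ r : F,
      (ℓ : ℤ) ∣ ∑ i ∈ Finset.univ.filter (fun i => (aF F α i).eval s = r), W i * e i s) →
      ∀ s ∈ SS (aF F α), (ℓ : ℤ) ∣ ∑ i, W i * e i s := by
    intro e he s hs
    rw [← Finset.sum_fiberwise_of_maps_to (s := Finset.univ)
      (t := Finset.univ.image fun i => (aF F α i).eval s) (g := fun i => (aF F α i).eval s)
      (fun i hi => Finset.mem_image_of_mem _ hi)]
    exact Finset.dvd_sum fun r _ => he s hs r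
  -- the common multiplier
  have hk : ∀ σ : Ω ≃ₐ[L] Ω, ∃ j : ℤ, ∀ i, σ (z i / z' i) = zA F L Ω ζ ^ j * (z i / z' i) := by
    intro σ
    obtain ⟨n, hn⟩ := exists_n_gal hF H hz σ
    obtain ⟨n', hn'⟩ := exists_n_gal hF H hz' σ
    have h1 : (rm (fun θ => n θ - n' θ) : JacOver ℓ (curveL k F L (arr W α)) Ω) = 0 := by
      rw [rm_sub, ← hzn σ n hn, ← hzn' σ n' hn', sub_self]
    obtain ⟨j, hj⟩ := (rm_eq_zero_iff (zA F L Ω ζ) hprim _).1 h1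
    refine ⟨j, fun i => ?_⟩
    have h2 := hj _ (root_rt (F := F) (L := L) (A := Ω) H i)
    rw [map_div₀, hn i, hn' i]
    have h3 : zA F L Ω ζ ^ j = zA F L Ω ζ ^ (n (rt k F L Ω α i) - n' (rt k F L Ω α i)) := by
      rw [zpow_eq_iff hℓ0 hprim, ← dvd_neg, neg_sub]
      exact h2
    rw [h3, zpow_sub₀ (hprim.ne_zero hℓ0)]
    have h4 := hz0' i
    have h5 : zA F L Ω ζ ^ n' (rt k F L Ω α i) ≠ 0 := zpow_ne_zero _ (hprim.ne_zero hℓ0)
    field_simp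
  have hY : (∏ i, (z i / z' i) ^ W i) ^ ℓ = algebraMap F Ω 1 *
      TP (aF F α) (tA F L Ω) (fun s => ∑ i, W i * (e i s - e' i s)) := by
    rw [map_one, one_mul, TP_sum hF, ← Finset.prod_pow]
    refine Finset.prod_congr rfl fun i _ => ?_
    rw [TP_mul, zpow_natCast, TP_sub hF, ← pow_mul, mul_comm (W i) ℓ, pow_mul, div_pow, hz, hz']
  have hYd : ∀ s ∈ SS (aF F α), (ℓ : ℤ) ∣ ∑ i, W i * (e i s - e' i s) := by
    intro s hs
    simp only [mul_sub]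
    rw [Finset.sum_sub_distrib]
    exact dvd_sub (hsum e h.node s hs) (hsum e' h'.node s hs)
  have hfix : ∀ (σ : Ω ≃ₐ[L] Ω) i, σ (z i / z' i) = z i / z' i := by
    intro σ i
    obtain ⟨j, hj⟩ := hk σ
    have h1 := fixed_of_dvd hF H one_ne_zero hY hYd σ
    have h1' : ∀ i ∈ (Finset.univ : Finset ι), σ ((z i / z' i) ^ W i) =
        (zA F L Ω ζ ^ j) ^ W i * (z i / z' i) ^ W i := by
      intro i _
      rw [map_pow, hj i, mul_pow]
    rw [map_prod, Finset.prod_congr rfl h1', Finset.prod_mul_distrib,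
      Finset.prod_pow_eq_pow_sum] at h1
    have h2 : ∏ i, (z i / z' i) ^ W i ≠ 0 :=
      Finset.prod_ne_zero_iff.2 fun i _ => pow_ne_zero _ (div_ne_zero (hz0 i) (hz0' i))
    have h3 : (zA F L Ω ζ ^ j) ^ (∑ i, W i) = 1 := by
      apply mul_right_cancel₀ h2
      rw [one_mul]
      exact h1
    rw [← zpow_natCast, ← zpow_mul, hprim.zpow_eq_one_iff_dvd] at h3
    have h4 : (ℓ : ℤ) ∣ j := by
      have h5 : IsCoprime (ℓ : ℤ) ((∑ i, W i : ℕ) : ℤ) := by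
        rw [Nat.isCoprime_iff_coprime]
        exact H.sum.symm
      exact h5.dvd_of_dvd_mul_right h3
    rw [hj i, (hprim.zpow_eq_one_iff_dvd j).2 h4, one_mul]
  intro s hs i
  refine dvd_of_fixed hF H.prime hℓL (c := 1) one_ne_zero (x := z i / z' i)
    (m := fun s => e i s - e' i s) ?_ (fun σ => hfix σ i) s hs
  rw [map_one, one_mul, TP_sub hF, div_pow, hz, hz']

end

end Pool.Agent.Lib.MP_89bcae_ag.Wt.Lns
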