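import Mathlib
import Pool.Agent.Lib.MP_89bcae_ag.Wl.GA06

/-!
# Division by `1 - Z`
-/

open Polynomial IsDedekindDomain

open scoped Classical

namespace Pool.Agent.Lib.MP_89bcae_ag.Wt.Lns

open Pool.Agent.Lib.MP_89bcae_ag.Sup Pool.Agent.Lib.MP_89bcae_ag.Sup.Lns

universe u

set_option linter.unusedSectionVars false

section

variable {k F L Ω : Type u} [Field k] [Field F] [Algebra k F] [Field L] [Algebra F[X] L]
  [Field Ω] [Algebra L Ω] [IsAlgClosure k F] [IsFractionRing F[X] L] [IsAlgClosure L Ω]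
  {ℓ : ℕ} {P : k[X][X]} {ζ : k} [hG : IsGood ℓ (cOver k F L Ω P)]

theorem locConst_symJ (Q : JacOver ℓ (curveL k F L P) Ω) :
    IsLocallyConstant fun σ : Ω ≃ₐ[L] Ω => symJ (toSym P (galA k F σ)) Q := by
  obtain ⟨E, rfl⟩ := cl_surjective Q
  rw [IsLocallyConstant.iff_exists_open]
  intro σ₀
  let S : Set Ω := (fun P : Pt ℓ (cOver k F L Ω P) => P.x) '' (E.support : Set _) ∪
    (fun P : Pt ℓ (cOver k F L Ω P) => P.y) '' (E.support : Set _)
  have hSf : S.Finite := (E.support.finite_toSet.image _).union (E.support.finite_toSet.image _)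
  let K : IntermediateField L Ω := IntermediateField.adjoin L S
  have halg : Algebra.IsAlgebraic L Ω := IsAlgClosure.isAlgebraic
  have : FiniteDimensional L K :=
    IntermediateField.finiteDimensional_adjoin fun x _ => Algebra.IsIntegral.isIntegral x
  have hopen : IsOpen (K.fixingSubgroup : Set (Ω ≃ₐ[L] Ω)) := K.fixingSubgroup_isOpen
  refine ⟨(fun σ => σ₀⁻¹ * σ) ⁻¹' (K.fixingSubgroup : Set (Ω ≃ₐ[L] Ω)),
    hopen.preimage (continuous_const_mul σ₀⁻¹), ?_, ?_⟩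
  · show σ₀⁻¹ * σ₀ ∈ K.fixingSubgroup
    rw [inv_mul_cancel]
    exact one_mem _
  · intro σ hσ
    have hσ' : σ₀⁻¹ * σ ∈ K.fixingSubgroup := hσ
    have hS : ∀ x ∈ S, σ x = σ₀ x := by
      intro x hx
      have h1 := (IntermediateField.mem_fixingSubgroup_iff K _).mp hσ' x
        (IntermediateField.subset_adjoin L S hx)
      have h2 : σ₀ ((σ₀⁻¹ * σ) x) = σ x := σ₀.apply_symm_apply (σ x)
      rw [← h2, h1]
    show symJ (toSym P (galA k F σ)) (cl E) = symJ (toSym P (galA k F σ₀)) (cl E)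
    rw [symJ_cl, symJ_cl]
    congr 1
    refine Finsupp.mapDomain_congr fun P hP => ?_
    refine Pt.ext ?_ ?_
    · exact hS P.x (Or.inl ⟨P, hP, rfl⟩)
    · exact hS P.y (Or.inr ⟨P, hP, rfl⟩)

private lemma GA05_iter (ζ : k) (hζ : (zA F L Ω ζ) ^ ℓ = 1) (c : Coch ℓ k F L Ω P) (i n : ℕ)
    (σ : Ω ≃ₐ[L] Ω) :
    ((Lns.zC ζ hζ)^[i] c) n σ = (zJ (zA F L Ω ζ) hζ)^[i] (c n σ) := by
  induction i with
  | zero => rfl
  | succ i ih =>
    rw [Function.iterate_succ_apply', Function.iterate_succ_apply', ← ih]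
    rfl

private lemma GA05_lt_sum {c : ℕ → Coch ℓ k F L Ω P} (s : Finset ℕ)
    (h : ∀ i ∈ s, LTc (c i)) : LTc (∑ i ∈ s, c i) := by
  induction s using Finset.induction_on with
  | empty =>
    rw [Finset.sum_empty]
    exact LTc.of_coboundary fun n => ⟨0, fun σ => by rw [map_zero, sub_zero]; rfl⟩
  | insert a T ha ih =>
    rw [Finset.sum_insert ha]
    exact (h a (Finset.mem_insert_self a T)).add
      (ih fun i hi => h i (Finset.mem_insert_of_mem hi))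

private lemma GA05_lt_iter (H : LHyp ℓ k F L P ζ) (hζ : (zA F L Ω ζ) ^ ℓ = 1)
    {c : Coch ℓ k F L Ω P} (hc : LTc c) (i : ℕ) : LTc ((Lns.zC ζ hζ)^[i] c) := by
  induction i with
  | zero => exact hc
  | succ i ih =>
    rw [Function.iterate_succ_apply']
    exact ih.zC H hζ

lemma LTc.vJ (H : LHyp ℓ k F L P ζ) (hζ : (zA F L Ω ζ) ^ ℓ = 1)
    {c : Coch ℓ k F L Ω P} (hc : LTc c) :
    LTc (fun n σ => Wt.vJ (zA F L Ω ζ) hζ (c n σ) : Coch ℓ k F L Ω P) := by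
  have h1 : (fun n σ => Wt.vJ (zA F L Ω ζ) hζ (c n σ) : Coch ℓ k F L Ω P) =
      ∑ j ∈ Finset.range ℓ, ∑ i ∈ Finset.range j, (Lns.zC ζ hζ)^[i] c := by
    funext n σ
    rw [Finset.sum_apply, Finset.sum_apply]
    unfold Wt.vJ
    apply Finset.sum_congr rfl
    intro j _
    rw [Finset.sum_apply, Finset.sum_apply]
    apply Finset.sum_congr rfl
    intro i _
    rw [GA05_iter]
  rw [h1]
  exact GA05_lt_sum _ fun j _ => GA05_lt_sum _ fun i _ => GA05_lt_iter H hζ hc i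

end

variable {ι : Type} [Fintype ι] [LinearOrder ι]
  {k F L Ω : Type u} [Field k] [Field F] [Algebra k F] [Field L] [Algebra F[X] L]
  [Field Ω] [Algebra L Ω] [IsAlgClosure k F] [IsFractionRing F[X] L] [IsAlgClosure L Ω]
  [Algebra F Ω] {ℓ : ℕ} {W : ι → ℕ} {α : ι → k[X]} {ζ : k}
  [hG : IsGood ℓ (cOver k F L Ω (arr W α))] {hζ : (zA F L Ω ζ) ^ ℓ = 1}

/-- A class whose exponents are those of a ramification point is divisible by `1 - Z` up to
torsion. -/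
theorem exists_division (hF : CompatF F L Ω) (H : AHyp ℓ W α ζ) {c : Coch ℓ k F L Ω (arr W α)}
    (hc : WWc c) {e : ι → F → ℤ} (h : HasExp hζ c e) (b : ι → ℤ)
    (he : ∀ s ∈ SS (aF F α), ∀ i, (ℓ : ℤ) ∣ e i s - cutE W (aF F α) b i s) :
    ∃ y : Coch ℓ k F L Ω (arr W α), WWc y ∧ TTc (c - (y - Lns.zC ζ hζ y)) := by
  have Hζ : IsPrimitiveRoot (zA F L Ω ζ) ℓ := zA_prim H.lhyp
  obtain ⟨b', hb'⟩ := exists_fun (F := F) (L := L) (Ω := Ω) H b
  obtain ⟨B, hB⟩ := exists_sub_zJ (zA F L Ω ζ) Hζ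
    (rm b' : JacOver ℓ (curveL k F L (arr W α)) Ω)
  obtain ⟨z', hz', hk⟩ := kummer_rm_arr (hζ := hζ) hF H b' B hB
  obtain ⟨z, hz, hzσ⟩ := h.ex
  have hbb : (fun j => b' (rt k F L Ω α j)) = b := funext hb'
  rw [hbb] at hz'
  have hfix' : ∀ σ : Ω ≃ₐ[L] Ω, ((toSym (arr W α) (galA k F σ) :
      Sym (cOver k F L Ω (arr W α))) : Ω ≃+* Ω) (zA F L Ω ζ) = zA F L Ω ζ :=
    fun σ => zA_fixed ζ (galA k F σ)
  -- the first level
  have hv1 : ∀ σ : Ω ≃ₐ[L] Ω, vJ (zA F L Ω ζ) hζ (c 1 σ) =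
      symJ (toSym (arr W α) (galA k F σ)) B - B := by
    intro σ
    obtain ⟨n, hn⟩ := exists_n_gal hF H hz' σ
    rw [hk σ n hn]
    apply hzσ
    intro i
    have h1 : σ (z i / z' i) = z i / z' i := by
      refine fixed_of_dvd hF H (a := aF F α) (c := 1) one_ne_zero
        (m := fun s => e i s - cutE W (aF F α) b i s) ?_ (fun s hs => he s hs i) σ
      rw [map_one, one_mul, TP_sub hF, div_pow, hz, hz']
    have h2 := z_ne hF H.prime (hz' i)
    have h3 : z i = z i / z' i * z' i := (div_mul_cancel₀ _ h2).symm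
    rw [h3, map_mul, h1, hn i]
    ring
  -- the divisions of B
  choose dv hdv using fun Q : JacOver ℓ (curveL k F L (arr W α)) Ω =>
    exists_smul_eq H.prime (zA F L Ω ζ) Hζ Q
  set Q : ℕ → JacOver ℓ (curveL k F L (arr W α)) Ω := fun n => dv^[n] B with hQ
  have hQ0 : Q 0 = B := rfl
  have hQs : ∀ n, ℓ • Q (n + 1) = Q n := by
    intro n
    simp only [hQ]
    rw [Function.iterate_succ_apply']
    exact hdv _
  set y : Coch ℓ k F L Ω (arr W α) := fun n σ => vJ (zA F L Ω ζ) hζ (c (n + 1) σ) -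
    (symJ (toSym (arr W α) (galA k F σ)) (Q n) - Q n) with hy
  have hyTC : IsTateCocycle ℓ (curveL k F L (arr W α)) y := by
    refine ⟨?_, ?_, ?_, ?_⟩
    · intro σ
      simp only [hy]
      rw [Nat.zero_add, hv1 σ, hQ0, sub_self]
    · intro n σ
      simp only [hy]
      rw [smul_sub, smul_sub, ← vJ_smul, hc.1.smul, ← map_nsmul, hQs]
    · intro n σ τ
      simp only [hy]
      rw [hc.1.cocycle, vJ_add, push_eq, push_eq, vJ_symJ _ _ _ (hfix' σ), map_mul, map_mul,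
        symJ_mul, map_sub, map_sub]
      abel
    · intro n
      have h1 : IsLocallyConstant fun σ : Ω ≃ₐ[L] Ω => vJ (zA F L Ω ζ) hζ (c (n + 1) σ) :=
        (hc.1.locallyConstant (n + 1)).comp (fun Q => vJ (zA F L Ω ζ) hζ Q)
      have h2 := locConst_symJ (P := arr W α) (k := k) (F := F) (L := L) (Ω := Ω) (Q n)
      exact h1.comp₂ h2 fun a b => a - (b - Q n)
  have hyLT : LTc y := by
    have h1 : LTc (fun n σ => vJ (zA F L Ω ζ) hζ ((fun n => c (n + 1)) n σ) :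
        Coch ℓ k F L Ω (arr W α)) := LTc.vJ H.lhyp hζ (hc.2.1.shift fun n => n + 1)
    have h2 : LTc (fun n σ => symJ (toSym (arr W α) (galA k F σ)) (Q n) - Q n :
        Coch ℓ k F L Ω (arr W α)) := LTc.of_coboundary fun n => ⟨Q n, fun σ => rfl⟩
    have h3 := h1.add h2.neg
    have h4 : y = (fun n σ => vJ (zA F L Ω ζ) hζ ((fun n => c (n + 1)) n σ) :
        Coch ℓ k F L Ω (arr W α)) + -(fun n σ => symJ (toSym (arr W α) (galA k F σ)) (Q n) - Q n :
        Coch ℓ k F L Ω (arr W α)) := by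
      funext n σ
      simp only [hy, Pi.add_apply, Pi.neg_apply]
      abel
    rw [h4]
    exact h3
  have hyZ : IsTateCocycle ℓ (curveL k F L (arr W α)) (c - (y - Lns.zC ζ hζ y)) := by
    have h1 : c - (y - Lns.zC ζ hζ y) = c + -(y + -(Lns.zC ζ hζ y)) := by abel
    rw [h1]
    exact tc_add hc.1 (tc_neg (tc_add hyTC (tc_neg (tc_zC hyTC ζ hζ))))
  have hQn : ∀ n, ℓ ^ n • Q n = B := by
    intro n
    induction n with
    | zero => rw [pow_zero, one_smul, hQ0]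
    | succ n ih =>
      rw [pow_succ, mul_smul, hQs, ih]
  have hT : TTc (c - (y - Lns.zC ζ hζ y)) := by
    refine ⟨hyZ, 1, tc_smul_nat hyZ _, ?_⟩
    intro n
    refine ⟨ℓ ^ 1 • (Q n - zJ (zA F L Ω ζ) hζ (Q n)), ?_, ?_⟩
    · rw [smul_comm, smul_sub, ← map_nsmul, hQn, hB, pow_one, smul_rm]
    · intro σ
      rw [push_eq, map_nsmul, ← smul_sub]
      change ℓ ^ 1 • (c - (y - Lns.zC ζ hζ y)) n σ = _
      congr 1
      rw [map_sub, ← zJ_symJ _ _ _ (hfix' σ)]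
      have h1 : (c - (y - Lns.zC ζ hζ y)) n σ =
          c n σ - (y n σ - zJ (zA F L Ω ζ) hζ (y n σ)) := rfl
      rw [h1]
      simp only [hy]
      rw [map_sub, map_sub]
      have h2 := vJ_sub_zJ (zA F L Ω ζ) Hζ (c (n + 1) σ)
      rw [hc.1.smul] at h2
      rw [← h2]
      abel
  refine ⟨y, ⟨hyTC, hyLT, ?_⟩, hT⟩
  intro γ
  obtain ⟨M, hM, hMT⟩ := hc.2.2 γ
  refine ⟨M, hM, ?_⟩
  have hx : IsTateCocycle ℓ (curveL k F L (arr W α)) (Lns.act (γ ^ M) y - y) := by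
    have h1 : Lns.act (γ ^ M) y - y = Lns.act (γ ^ M) y + -y := by abel
    rw [h1]
    exact tc_add (tc_act hyTC (γ ^ M)) (tc_neg hyTC)
  apply TTc.of_sub_zC H.lhyp hζ hx
  have h1 : Lns.act (γ ^ M) y - y - Lns.zC ζ hζ (Lns.act (γ ^ M) y - y) =
      (Lns.act (γ ^ M) c - c) - (Lns.act (γ ^ M) (c - (y - Lns.zC ζ hζ y)) -
        (c - (y - Lns.zC ζ hζ y))) := by
    rw [act_sub, act_sub, act_zC, map_sub]
    abel
  rw [h1]
  exact hMT.sub ((hT.act (γ ^ M)).sub hT)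

end Pool.Agent.Lib.MP_89bcae_ag.Wt.Lns
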