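import Mathlib
import Pool.Agent.Lib.MP_89bcae_ag.Wl.AGlob
import Pool.Agent.Lib.MP_89bcae_ag.Wl.G08
import Pool.Agent.Lib.MP_89bcae_ag.Wl.Rm14
import Pool.Agent.Lib.MP_89bcae_ag.Sup.G09

/-!
# The functions attached to a cocycle
-/

open Polynomial IsDedekindDomain

open scoped Classical

namespace Pool.Agent.Lib.MP_89bcae_ag.Wt.Lns

open Pool.Agent.Lib.MP_89bcae_ag.Sup Pool.Agent.Lib.MP_89bcae_ag.Sup.Lns

universe u

variable {ι : Type} [Fintype ι] [LinearOrder ι]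
  {k F L Ω : Type u} [Field k] [Field F] [Algebra k F] [Field L] [Algebra F[X] L]
  [Field Ω] [Algebra L Ω] [IsAlgClosure k F] [IsFractionRing F[X] L] [IsAlgClosure L Ω]
  [Algebra F Ω] {ℓ : ℕ} {W : ι → ℕ} {α : ι → k[X]} {ζ : k}

private lemma ga2_mem_rts (H : AHyp ℓ W α ζ) {θ : Ω} :
    θ ∈ (cOver k F L Ω (arr W α)).roots.toFinset ↔ ∃ i, θ = rt k F L Ω α i := by
  rw [Multiset.mem_toFinset, mem_roots arr_ne_zero, IsRoot.def]
  exact root_arr H

private lemma ga2_sum (H : AHyp ℓ W α ζ) (hG : IsGood ℓ (cOver k F L Ω (arr W α)))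
    {N : Type*} [AddCommMonoid N] (φ : Ω → N) :
    ∑ θ ∈ (cOver k F L Ω (arr W α)).roots.toFinset, φ θ = ∑ i, φ (rt k F L Ω α i) := by
  have h1 : (cOver k F L Ω (arr W α)).roots.toFinset = Finset.univ.image (rt k F L Ω α) := by
    ext θ
    rw [ga2_mem_rts H, Finset.mem_image]
    constructor
    · rintro ⟨i, rfl⟩
      exact ⟨i, Finset.mem_univ i, rfl⟩
    · rintro ⟨i, -, rfl⟩
      exact ⟨i, rfl⟩
  rw [h1, Finset.sum_image fun i _ j _ hij => rt_injective (F := F) (L := L) H Ω hij]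

private lemma ga2_zpow_eq {E : Type u} [Field E] {ζ : E} (hℓ : ℓ ≠ 0) (hζ : IsPrimitiveRoot ζ ℓ)
    (a b : ℤ) : ζ ^ a = ζ ^ b ↔ (a : ZMod ℓ) = b := by
  have h0 : ζ ≠ 0 := hζ.ne_zero hℓ
  rw [ZMod.intCast_eq_intCast_iff_dvd_sub, ← hζ.zpow_eq_one_iff_dvd, zpow_sub₀ h0,
    div_eq_one_iff_eq (zpow_ne_zero _ h0)]
  exact eq_comm

private lemma ga2_coprime {K : Type*} [Field K] {ℓ : ℕ} (hℓ : ℓ.Prime) (h : (ℓ : K) ≠ 0) :
    ℓ.Coprime (ringExpChar K) := by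
  have h1 := ringExpChar.expChar K
  generalize ringExpChar K = q at h1 ⊢
  cases h1 with
  | zero => exact Nat.coprime_one_right ℓ
  | prime hp =>
    rw [Nat.coprime_primes hℓ hp]
    rintro rfl
    exact h (CharP.cast_eq_zero K _)

omit [IsAlgClosure k F] [IsFractionRing F[X] L] [IsAlgClosure L Ω] [Algebra F Ω] in
private lemma ga2_zA (ζ : k) (σ : Ω ≃ₐ[L] Ω) : σ (zA F L Ω ζ) = zA F L Ω ζ :=
  σ.commutes _

/-- The exponents of the cocycle `v(c 1 σ)`. -/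
private lemma ga2_cochain (H : AHyp ℓ W α ζ)
    [hG : IsGood ℓ (cOver k F L Ω (arr W α))] (hζ : (zA F L Ω ζ) ^ ℓ = 1)
    (hζ' : IsPrimitiveRoot (zA F L Ω ζ) ℓ)
    {c : Coch ℓ k F L Ω (arr W α)} (hc : IsTateCocycle ℓ (curveL k F L (arr W α)) c) :
    ∃ (e : (Ω ≃ₐ[L] Ω) → Ω → ℤ) (S : Finset Ω),
      (∀ σ, vJ (zA F L Ω ζ) hζ (c 1 σ) = rm (e σ)) ∧
      (∀ σ, ∑ θ ∈ (cOver k F L Ω (arr W α)).roots.toFinset,
        (wt (cOver k F L Ω (arr W α)) θ : ZMod ℓ) * (e σ θ : ZMod ℓ) = 0) ∧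
      (∀ σ τ, ∀ θ ∈ (cOver k F L Ω (arr W α)).roots.toFinset,
        (e (σ * τ) θ : ZMod ℓ) = e σ θ + e τ θ) ∧
      (∀ σ, (∀ x ∈ S, σ x = x) → ∀ θ ∈ (cOver k F L Ω (arr W α)).roots.toFinset, (e σ θ : ZMod ℓ) = 0) := by
  have h1 : ∀ σ, ∃ e : Ω → ℤ, vJ (zA F L Ω ζ) hζ (c 1 σ) = rm e ∧
      ∑ θ ∈ (cOver k F L Ω (arr W α)).roots.toFinset,
        (wt (cOver k F L Ω (arr W α)) θ : ZMod ℓ) * (e θ : ZMod ℓ) = 0 := by
    intro σ
    apply rm14_exists H.prime hζ'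
    have h2 := vJ_sub_zJ (zA F L Ω ζ) hζ' (c 1 σ)
    have h3 : ℓ • c 1 σ = 0 := by
      have h4 := hc.smul 0 σ
      rw [hc.zero σ] at h4
      exact h4
    rw [h3, sub_eq_zero] at h2
    exact h2.symm
  choose e he hs using h1
  have hc1 : c 1 1 = 0 := by
    have h2 := hc.cocycle 1 1 1
    rw [mul_one] at h2
    have h3 : push ℓ (curveL k F L (arr W α)) ((1 : Ω ≃ₐ[L] Ω) : Ω →ₐ[L] Ω) (c 1 1) = 0 := by
      have h4 := add_left_cancel ((add_zero (c 1 1)).trans h2)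
      exact h4.symm
    rw [push_eq, map_one, map_one, symJ_one] at h3
    exact h3
  have hopen : {σ : Ω ≃ₐ[L] Ω | c 1 σ = 0} ∈ nhds (1 : Ω ≃ₐ[L] Ω) := by
    apply (((hc.locallyConstant 1).isOpen_fiber 0)).mem_nhds
    exact hc1
  obtain ⟨N, hN, hNS⟩ := (krullTopology_mem_nhds_one_iff L Ω _).1 hopen
  obtain ⟨S, hS⟩ := (IntermediateField.essFiniteType_iff (K := N)).1 inferInstance
  refine ⟨e, S, he, hs, ?_, ?_⟩
  · intro σ τ θ hθ
    have h2 : (rm (e (σ * τ)) : Jac ℓ (cOver k F L Ω (arr W α))) =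
        rm (fun θ => e σ θ + e τ θ) := by
      rw [← he, hc.cocycle, vJ_add, he, push_eq, vJ_symJ, he]
      · rw [rm_add]
        congr 1
        exact symJ_rm_arr (galA k F σ) (e τ)
      · exact ga2_zA ζ σ
    have h3 := rm14_unique H.prime hζ' _ _ h2 (by
      rw [hs]
      have h4 : ∀ θ ∈ (cOver k F L Ω (arr W α)).roots.toFinset,
          (wt (cOver k F L Ω (arr W α)) θ : ZMod ℓ) * (((e σ θ + e τ θ : ℤ)) : ZMod ℓ) =
          (wt (cOver k F L Ω (arr W α)) θ : ZMod ℓ) * (e σ θ : ZMod ℓ) +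
          (wt (cOver k F L Ω (arr W α)) θ : ZMod ℓ) * e τ θ := fun θ _ => by
        rw [Int.cast_add, mul_add]
      rw [Finset.sum_congr rfl h4, Finset.sum_add_distrib, hs, hs, add_zero]) θ hθ
    rw [h3, Int.cast_add]
  · intro σ hσ θ hθ
    have h2 : c 1 σ = 0 := by
      apply hNS
      rw [SetLike.mem_coe, IntermediateField.mem_fixingSubgroup_iff]
      rw [← hS]
      intro x hx
      induction hx using IntermediateField.adjoin_induction with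
      | mem x hx => exact hσ x hx
      | algebraMap x => exact σ.commutes x
      | add x y _ _ h1 h2 => rw [map_add, h1, h2]
      | inv x _ h1 => rw [map_inv₀, h1]
      | mul x y _ _ h1 h2 => rw [map_mul, h1, h2]
    have h3 : (rm (e σ) : Jac ℓ (cOver k F L Ω (arr W α))) = rm (fun _ => 0) := by
      rw [← he, h2, (rm_eq_zero_iff (zA F L Ω ζ) hζ' _).2 ⟨0, fun _ _ => by simp⟩]
      exact (AddMonoidHom.mk' (vJ (zA F L Ω ζ) hζ) (vJ_add (zA F L Ω ζ) hζ)).map_zero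
    have h4 := rm14_unique H.prime hζ' _ _ h3 (by rw [hs]; simp) θ hθ
    rw [h4, Int.cast_zero]

/-- The Kummer generator of a character. -/
private lemma ga2_exists_z (hF : CompatF F L Ω) (H : AHyp ℓ W α ζ)
    (hζ : IsPrimitiveRoot (zA F L Ω ζ) ℓ) (χ : (Ω ≃ₐ[L] Ω) → ZMod ℓ)
    (hχ : ∀ σ τ : Ω ≃ₐ[L] Ω, χ (σ * τ) = χ σ + χ τ) (S : Finset Ω)
    (hS : ∀ σ : Ω ≃ₐ[L] Ω, (∀ x ∈ S, σ x = x) → χ σ = 0) :
    ∃ (z : Ω) (P : F[X]), z ≠ 0 ∧ P.Monic ∧ z ^ ℓ = aeval (tA F L Ω) P ∧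
      ∀ σ : Ω ≃ₐ[L] Ω, σ z = zA F L Ω ζ ^ (χ σ).val * z := by
  have hp : Fact ℓ.Prime := ⟨H.prime⟩
  have hFc : IsAlgClosed F := IsAlgClosure.isAlgClosed k
  have hN : Normal L Ω := IsAlgClosure.normal L Ω
  obtain ⟨z₀, hz₀, hz⟩ := exists_kummer_char hζ (⊤ : Subgroup (Ω ≃ₐ[L] Ω))
    (fun σ _ => ga2_zA ζ σ) χ (fun σ _ τ _ => hχ σ τ) S (fun σ _ => hS σ)
  have hz' : ∀ σ : Ω ≃ₐ[L] Ω, σ z₀ = zA F L Ω ζ ^ (χ σ).val * z₀ :=
    fun σ => hz σ (Subgroup.mem_top σ)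
  obtain ⟨s, y, hy⟩ := exists_pow_mem_L (L := L) (z₀ ^ ℓ) (by
    intro σ
    rw [map_pow, hz' σ, mul_pow, ← pow_mul, mul_comm (χ σ).val, pow_mul, hζ.pow_eq_one,
      one_pow, one_mul])
  obtain ⟨A, B, hB', hAB'⟩ := IsFractionRing.div_surjective (A := F[X]) y
  have hB : B ≠ 0 := nonZeroDivisors.ne_zero hB'
  generalize hq : ringExpChar L ^ s = q at hy
  have hAB : (z₀ ^ ℓ) ^ q = aeval (tA F L Ω) A / aeval (tA F L Ω) B := by
    rw [hy, ← hAB', map_div₀, aeval_tA hF, aeval_tA hF]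
  have hLne : (ℓ : L) ≠ 0 := by
    have h1 := H.ne
    intro h2
    apply h1
    have h3 : ((algebraMap F[X] L).comp (C.comp (algebraMap k F))) (ℓ : k) = 0 := by
      rw [map_natCast, h2]
    exact (map_eq_zero _).1 h3
  have hcop : ℓ.Coprime q := by
    rw [← hq]
    exact (ga2_coprime H.prime hLne).pow_right s
  obtain ⟨j, -, hj⟩ := Nat.exists_mul_mod_eq_one_of_coprime hcop.symm H.prime.one_lt
  have hζq : ∀ i : ℕ, (zA F L Ω ζ ^ i) ^ (q * j) = zA F L Ω ζ ^ i := by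
    intro i
    have h1 := Nat.div_add_mod (q * j) ℓ
    rw [hj] at h1
    rw [← pow_mul, mul_comm i, pow_mul]
    congr 1
    rw [← h1, pow_succ, pow_mul, hζ.pow_eq_one, one_pow, one_mul]
  have hB0 : aeval (tA F L Ω) (B ^ j) ≠ 0 := by
    rw [map_pow]
    apply pow_ne_zero
    rw [Ne, map_eq_zero_iff _ (tA_injective hF)]
    exact hB
  have hz1 : (z₀ ^ (q * j)) ^ ℓ = aeval (tA F L Ω) (A ^ j) / aeval (tA F L Ω) (B ^ j) := by
    rw [← pow_mul, mul_comm (q * j) ℓ, ← mul_assoc, pow_mul, pow_mul z₀, hAB, div_pow, map_pow,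
      map_pow]
  set P' : F[X] := A ^ j * (B ^ j) ^ (ℓ - 1) with hP'
  have hz2 : (z₀ ^ (q * j) * aeval (tA F L Ω) (B ^ j)) ^ ℓ = aeval (tA F L Ω) P' := by
    obtain ⟨n, hn⟩ := Nat.exists_eq_succ_of_ne_zero H.prime.ne_zero
    rw [mul_pow, hz1, hP', map_mul, map_pow _ (B ^ j)]
    rw [hn]
    rw [Nat.succ_sub_one, pow_succ]
    field_simp
  have hz20 : z₀ ^ (q * j) * aeval (tA F L Ω) (B ^ j) ≠ 0 :=
    mul_ne_zero (pow_ne_zero _ hz₀) hB0
  have hP0 : P' ≠ 0 := by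
    intro h1
    rw [h1, map_zero] at hz2
    exact pow_ne_zero _ hz20 hz2
  obtain ⟨d, hd⟩ := IsAlgClosed.exists_pow_nat_eq (P'.leadingCoeff⁻¹) H.prime.pos
  have hd0 : d ≠ 0 := by
    rintro rfl
    rw [zero_pow H.prime.ne_zero] at hd
    exact inv_ne_zero (leadingCoeff_ne_zero.2 hP0) hd.symm
  have hconst : ∀ (σ : Ω ≃ₐ[L] Ω) (c : F), σ (algebraMap F Ω c) = algebraMap F Ω c := by
    intro σ c
    rw [hF c]
    exact σ.commutes _
  refine ⟨z₀ ^ (q * j) * aeval (tA F L Ω) (B ^ j) * algebraMap F Ω d,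
    P' * C (P'.leadingCoeff⁻¹),
    mul_ne_zero hz20 ?_, monic_mul_leadingCoeff_inv hP0, ?_, ?_⟩
  · rwa [Ne, map_eq_zero_iff _ (algebraMap F Ω).injective]
  · rw [mul_pow, hz2, ← map_pow, hd, map_mul (aeval (tA F L Ω)) P', aeval_C]
  · intro σ
    have h1 : σ (aeval (tA F L Ω) (B ^ j)) = aeval (tA F L Ω) (B ^ j) := by
      rw [aeval_tA hF]
      exact σ.commutes _
    rw [map_mul, map_mul, map_pow, hz' σ, mul_pow, hζq, h1, hconst]
    ring

/-- The root multiplicities of the product. -/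
private lemma ga2_mult (P : ι → F[X]) (hP : ∀ i, (P i).Monic) (s : F) :
    (∏ i, P i).rootMultiplicity s = ∑ i, (P i).rootMultiplicity s := by
  have h0 : ∏ i, P i ≠ 0 := Finset.prod_ne_zero_iff.2 fun i _ => (hP i).ne_zero
  rw [← count_roots, roots_prod _ _ h0, Multiset.count_bind]
  rw [Finset.sum]
  congr 1
  refine Multiset.map_congr rfl fun i _ => ?_
  rw [count_roots]

/-- The multiplicities of the product are divisible by `ℓ`. -/
private lemma ga2_dvd (hF : CompatF F L Ω) (H : AHyp ℓ W α ζ) {P : F[X]} (hP : P.Monic)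
    (z : Ω) (hz : z ^ ℓ = aeval (tA F L Ω) P) (hfix : ∀ σ : Ω ≃ₐ[L] Ω, σ z = z) (s : F) :
    ℓ ∣ P.rootMultiplicity s := by
  have hFc : IsAlgClosed F := IsAlgClosure.isAlgClosed k
  obtain ⟨m, y, hy⟩ := exists_pow_mem_L _ hfix
  generalize hq : ringExpChar L ^ m = q at hy
  have hLne : (ℓ : L) ≠ 0 := by
    have h1 := H.ne
    intro h2
    apply h1
    have h3 : ((algebraMap F[X] L).comp (C.comp (algebraMap k F))) (ℓ : k) = 0 := by
      rw [map_natCast, h2]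
    exact (map_eq_zero _).1 h3
  have hcop : ℓ.Coprime q := by
    rw [← hq]
    exact (ga2_coprime H.prime hLne).pow_right m
  by_cases hs : s ∈ P.roots.toFinset
  · have hPt : aeval (tA F L Ω) P = ∏ β ∈ P.roots.toFinset,
        (tA F L Ω - algebraMap F Ω β) ^ P.rootMultiplicity β := by
      conv_lhs => rw [(IsAlgClosed.splits P).eq_prod_roots_of_monic hP]
      rw [prod_multiset_root_eq_finset_root, map_prod]
      refine Finset.prod_congr rfl fun β _ => ?_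
      rw [map_pow, map_sub, aeval_X, aeval_C]
    obtain ⟨p, r, hr, hpr⟩ := IsFractionRing.div_surjective (A := F[X]) y
    have hr0 : r ≠ 0 := nonZeroDivisors.ne_zero hr
    have hfin := dvd_of_prod_eq_pow (tA_injective hF) (ℓ := ℓ)
      P.roots.toFinset (fun a => ((P.rootMultiplicity a * q : ℕ) : ℤ)) 1
      one_ne_zero p r hr0 (by
        have h2 : (aeval (tA F L Ω) p / aeval (tA F L Ω) r : Ω) = z ^ q := by
          rw [hy, ← hpr, map_div₀, aeval_tA hF, aeval_tA hF]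
        rw [h2, ← pow_mul, mul_comm q ℓ, pow_mul, hz, hPt, map_one, one_mul,
          ← Finset.prod_pow]
        refine Finset.prod_congr rfl fun a _ => ?_
        rw [zpow_natCast, pow_mul])
    have h3 := hfin s hs
    rw [Int.natCast_dvd_natCast] at h3
    exact hcop.dvd_of_dvd_mul_right h3
  · rw [Multiset.mem_toFinset] at hs
    rw [← count_roots, Multiset.count_eq_zero_of_notMem hs]
    exact dvd_zero _

theorem exists_kummer_arr (hF : CompatF F L Ω) (H : AHyp ℓ W α ζ)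
    [hG : IsGood ℓ (cOver k F L Ω (arr W α))] (hζ : (zA F L Ω ζ) ^ ℓ = 1)
    {c : Coch ℓ k F L Ω (arr W α)} (hc : IsTateCocycle ℓ (curveL k F L (arr W α)) c) :
    ∃ (P : ι → F[X]) (z : ι → Ω), (∀ i, (P i).Monic) ∧
      (∀ s : F, ℓ ∣ ∑ i, W i * (P i).rootMultiplicity s) ∧
      (∀ i, z i ^ ℓ = aeval (tA F L Ω) (P i)) ∧
      ∀ (σ : Ω ≃ₐ[L] Ω) (n : Ω → ℤ), (∀ i,
        σ (z i) = zA F L Ω ζ ^ n (rt k F L Ω α i) * z i) →
          vJ (zA F L Ω ζ) hζ (c 1 σ) = rm n := by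
  have hp : Fact ℓ.Prime := ⟨H.prime⟩
  have hζ' : IsPrimitiveRoot (zA F L Ω ζ) ℓ := zA_prim H.lhyp
  have hζ0 : zA F L Ω ζ ≠ 0 := hζ'.ne_zero H.prime.ne_zero
  obtain ⟨e, S, he, hs, hcoc, hloc⟩ := ga2_cochain H hζ hζ' hc
  have hmem : ∀ i, rt k F L Ω α i ∈ (cOver k F L Ω (arr W α)).roots.toFinset :=
    fun i => (ga2_mem_rts H).2 ⟨i, rfl⟩
  have hsum : ∀ σ, ∑ i, (W i : ZMod ℓ) * (e σ (rt k F L Ω α i) : ZMod ℓ) = 0 := by
    intro σ
    have h1 := hs σ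
    rw [ga2_sum H hG] at h1
    simp only [wt_rt H] at h1
    exact h1
  have hex : ∀ i, ∃ (z : Ω) (P : F[X]), z ≠ 0 ∧ P.Monic ∧ z ^ ℓ = aeval (tA F L Ω) P ∧
      ∀ σ : Ω ≃ₐ[L] Ω, σ z = zA F L Ω ζ ^ ((e σ (rt k F L Ω α i) : ZMod ℓ)).val * z := by
    intro i
    exact ga2_exists_z hF H hζ' (fun σ => (e σ (rt k F L Ω α i) : ZMod ℓ))
      (fun σ τ => hcoc σ τ _ (hmem i)) S (fun σ hσ => hloc σ hσ _ (hmem i))
  choose z P hz0 hP hzP hzσ using hex
  refine ⟨P, z, hP, ?_, hzP, ?_⟩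
  · intro s
    have hPW : ∀ i, (P i ^ W i).Monic := fun i => (hP i).pow _
    have h1 := ga2_mult (fun i => P i ^ W i) hPW s
    have h2 : ∀ i, (P i ^ W i).rootMultiplicity s = W i * (P i).rootMultiplicity s := by
      intro i
      rw [← count_roots, roots_pow, Multiset.count_nsmul, count_roots]
    simp only [h2] at h1
    rw [← h1]
    refine ga2_dvd hF H (monic_prod_of_monic _ _ fun i _ => hPW i) (∏ i, z i ^ W i) ?_ ?_ s
    · rw [← Finset.prod_pow, map_prod]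
      refine Finset.prod_congr rfl fun i _ => ?_
      rw [map_pow, ← hzP i, ← pow_mul, ← pow_mul, mul_comm]
    · intro σ
      rw [map_prod]
      have h3 : ∀ i ∈ (Finset.univ : Finset ι), σ (z i ^ W i) =
          (zA F L Ω ζ ^ (W i * ((e σ (rt k F L Ω α i) : ZMod ℓ)).val)) * z i ^ W i := by
        intro i _
        rw [map_pow, hzσ i σ, mul_pow, ← pow_mul, mul_comm (W i)]
      rw [Finset.prod_congr rfl h3, Finset.prod_mul_distrib]
      have h1 : ∏ i, zA F L Ω ζ ^ (W i * ((e σ (rt k F L Ω α i) : ZMod ℓ)).val) = 1 := by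
        rw [Finset.prod_pow_eq_pow_sum, hζ'.pow_eq_one_iff_dvd, ← ZMod.natCast_eq_zero_iff]
        push_cast
        rw [← hsum σ]
        refine Finset.sum_congr rfl fun i _ => ?_
        rw [ZMod.natCast_zmod_val]
      rw [h1, one_mul]
  · intro σ n hn
    rw [he σ]
    apply rm_congr
    intro θ hθ
    obtain ⟨i, rfl⟩ := root_of_arr hθ
    have h1 := hn i
    rw [hzσ i σ] at h1
    have h3 := mul_right_cancel₀ (hz0 i) h1
    rw [← zpow_natCast, ga2_zpow_eq H.prime.ne_zero hζ'] at h3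
    push_cast at h3
    rw [ZMod.natCast_zmod_val, ZMod.intCast_eq_intCast_iff_dvd_sub] at h3
    rw [← dvd_neg, neg_sub]
    exact h3

end Pool.Agent.Lib.MP_89bcae_ag.Wt.Lns
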