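import Mathlib
import Pool.Agent.Lib.MP_89bcae_ag.Wl.LA03

/-!
# The formula at a node
-/

open Polynomial

open scoped Classical

namespace Pool.Agent.Lib.MP_89bcae_ag.Wt.Lns

open Pool.Agent.Lib.MP_89bcae_ag.Sup Pool.Agent.Lib.MP_89bcae_ag.Sup.Lns

universe u

variable {ι : Type} [Fintype ι] [LinearOrder ι] {F M : Type u} [Field F] [Field M] [Algebra F M]
  {v : AbsoluteValue M ℝ} {s : F} {t : M} {a : ι → F[X]} {W : ι → ℕ} {ℓ p : ℕ}
  [hG : IsGood ℓ (lineW W a t)] {ζ : F} {Γ : Subgroup (Sym (lineW W a t))}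

/-- The product which appears in the formula at a root `s` of `a_i - a_j`. -/
noncomputable def nodeW (W : ι → ℕ) (a : ι → F[X]) (e : ι → F → ℤ) (i j : ι) (s : F) : F :=
  (derivative (a i - a j)).eval s ^ (-(W i + W j) * (W i * e i s)) *
    (∏ l ∈ (Finset.univ.erase i).erase j, ((a i).eval s - (a l).eval s) ^ (-W l * (W i * e i s))) *
      ∏ s' ∈ (SS a).erase s, (s - s') ^ (W i * W j * (e i s' - e j s'))

private lemma LA04_exists_zpow {K : Type*} [Field K] {ℓ : ℕ} (hℓ : ℓ ≠ 0) {ζ : K}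
    (hζ : IsPrimitiveRoot ζ ℓ) {x y : K} (hy : y ≠ 0) (h : x ^ ℓ = y ^ ℓ) :
    ∃ k : ℤ, x = ζ ^ k * y := by
  have : NeZero ℓ := ⟨hℓ⟩
  have h1 : (x / y) ^ ℓ = 1 := by
    rw [div_pow, h, div_self (pow_ne_zero _ hy)]
  obtain ⟨i, _, hi⟩ := hζ.eq_pow_of_pow_eq_one h1
  refine ⟨i, ?_⟩
  rw [zpow_natCast, hi, div_mul_cancel₀ _ hy]

private lemma LA04_zpow_eq {K : Type*} [Field K] {ℓ : ℕ} (hℓ : ℓ ≠ 0) {ζ : K}
    (hζ : IsPrimitiveRoot ζ ℓ) {i j : ℤ} (h : (ℓ : ℤ) ∣ i - j) : ζ ^ i = ζ ^ j := by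
  obtain ⟨k, hk⟩ := h
  have h0 : ζ ≠ 0 := hζ.ne_zero hℓ
  have : i = j + ℓ * k := by omega
  rw [this, zpow_add₀ h0, zpow_mul, zpow_natCast, hζ.pow_eq_one, one_zpow, mul_one]

private lemma LA04_symJ_mul {ℓ : ℕ} {E : Type u} [Field E] {f : E[X]} [hG : IsGood ℓ f]
    (σ τ : Sym f) (Q : Jac ℓ f) : symJ (σ * τ) Q = symJ σ (symJ τ Q) := by
  obtain ⟨D, rfl⟩ := cl_surjective Q
  rw [symJ_cl, symJ_cl, symJ_cl, ← Finsupp.mapDomain_comp]
  rfl

private lemma LA04_res_const (x : F) : v (algebraMap F M x - algebraMap F M x) < 1 := by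
  rw [sub_self, map_zero]; exact one_pos

private lemma LA04_res_sub (h : LocCtx v s t) {x y : M} {c d : F}
    (hc : v (x - algebraMap F M c) < 1) (hd : v (y - algebraMap F M d) < 1) :
    v (x - y - algebraMap F M (c - d)) < 1 := by
  have e : x - y - algebraMap F M (c - d) =
      (x - algebraMap F M c) + -(y - algebraMap F M d) := by
    rw [map_sub]; ring
  rw [e]
  refine lt_of_le_of_lt (h.nonarch _ _) (max_lt hc ?_)
  rw [map_neg_eq_map]
  exact hd

private lemma LA04_res_prod (h : LocCtx v s t) {κ : Type*} (S : Finset κ) (x : κ → M) (c : κ → F)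
    (hx : ∀ i ∈ S, v (x i - algebraMap F M (c i)) < 1) :
    v (∏ i ∈ S, x i - algebraMap F M (∏ i ∈ S, c i)) < 1 := by
  induction S using Finset.induction_on with
  | empty => simp
  | insert i S hi ih =>
    rw [Finset.prod_insert hi, Finset.prod_insert hi]
    exact h.residue_mul (hx i (Finset.mem_insert_self _ _))
      (ih fun j hj => hx j (Finset.mem_insert_of_mem hj))

private lemma LA04_res_pow (h : LocCtx v s t) {x : M} {c : F}
    (hc : v (x - algebraMap F M c) < 1) (n : ℕ) :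
    v (x ^ n - algebraMap F M (c ^ n)) < 1 := by
  have := h.residue_eval hc (X ^ n)
  simpa using this

private lemma LA04_res_t (h : LocCtx v s t) (s' : F) :
    v (t - algebraMap F M s' - algebraMap F M (s - s')) < 1 := by
  have e : t - algebraMap F M s' - algebraMap F M (s - s') = t - algebraMap F M s := by
    rw [map_sub]; ring
  rw [e]
  exact h.lt_one

omit [Fintype ι] [LinearOrder ι] in
private lemma LA04_res_line (h : LocCtx v s t) (i : ι) :
    v (aeval t (a i) - algebraMap F M ((a i).eval s)) < 1 :=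
  h.residue_eval h.lt_one _

/-- The sums of the exponents. -/
private lemma LA04_node (hg : AGeom a) {i j : ι} (hij : i ≠ j)
    (hs : (a i).eval s = (a j).eval s) (e : ι → ℤ) {m : ℤ}
    (hnode : ∀ r, m ∣ ∑ i ∈ Finset.univ.filter (fun i => (a i).eval s = r), e i) :
    m ∣ e i + e j ∧ (∀ l, l ≠ i → l ≠ j → m ∣ e l) := by
  constructor
  · have h1 := hnode ((a i).eval s)
    have h2 : Finset.univ.filter (fun l => (a l).eval s = (a i).eval s) = {i, j} := by
      ext l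
      rw [Finset.mem_filter, Finset.mem_insert, Finset.mem_singleton]
      constructor
      · rintro ⟨-, hl⟩
        by_contra hne
        push Not at hne
        exact hg.third hij hne.1 hne.2 hs hl
      · rintro (rfl | rfl)
        · exact ⟨Finset.mem_univ _, rfl⟩
        · exact ⟨Finset.mem_univ _, hs.symm⟩
    rw [h2, Finset.sum_pair hij] at h1
    exact h1
  · intro l hli hlj
    have h1 := hnode ((a l).eval s)
    have h2 : Finset.univ.filter (fun l' => (a l').eval s = (a l).eval s) = {l} := by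
      ext l'
      rw [Finset.mem_filter, Finset.mem_singleton]
      constructor
      · rintro ⟨-, hl⟩
        by_contra hne
        rcases hg.pair hij hne hs hl with ⟨-, h3⟩ | ⟨-, h3⟩
        · exact hlj h3
        · exact hli h3
      · rintro rfl
        exact ⟨Finset.mem_univ _, rfl⟩
    rw [h2, Finset.sum_singleton] at h1
    exact h1

private lemma LA04_dvd_sum {i j : ι} (hij : i ≠ j) (w : ι → ℤ) {m : ℤ} (h1 : m ∣ w i + w j)
    (h2 : ∀ l, l ≠ i → l ≠ j → m ∣ w l) : m ∣ ∑ l, w l := by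
  rw [← Finset.add_sum_erase _ _ (Finset.mem_univ i),
    ← Finset.add_sum_erase _ _ (Finset.mem_erase.2 ⟨hij.symm, Finset.mem_univ j⟩), ← add_assoc]
  refine dvd_add h1 (Finset.dvd_sum fun l hl => ?_)
  rw [Finset.mem_erase, Finset.mem_erase] at hl
  exact h2 l hl.2.1 hl.1

omit [LinearOrder ι] in
private lemma LA04_sum_rts (hW : ∀ i, W i ≠ 0) (hinj : Function.Injective fun i => aeval t (a i))
    (w : M → ℤ) :
    ∑ θ ∈ rts (lineW W a t), wt (lineW W a t) θ * w θ = ∑ i, W i * w (aeval t (a i)) := by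
  rw [sum_rts_lineW hW hinj]
  exact Finset.sum_congr rfl fun i _ => by rw [wt_lineW hinj]

omit [LinearOrder ι] in
private lemma LA04_fn (hinj : Function.Injective fun i => aeval t (a i)) (g : ι → ℤ) :
    ∃ w : M → ℤ, ∀ i, w (aeval t (a i)) = g i :=
  ⟨Function.extend (fun i => aeval t (a i)) g 0, fun i => hinj.extend_apply g 0 i⟩

private lemma LA04_aeval (u : M ≃+* M) (U : F ≃+* F)
    (huF : ∀ c : F, u (algebraMap F M c) = algebraMap F M (U c)) (hut : u t = t) {P : F[X]}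
    (hP : P.map (U : F →+* F) = P) : u (aeval t P) = aeval t P := by
  have h1 := Polynomial.hom_eval₂ P (algebraMap F M) (u : M →+* M) t
  have h2 : ((u : M →+* M)).comp (algebraMap F M) = (algebraMap F M).comp (U : F →+* F) := by
    ext c
    exact huF c
  have h3 : (u : M →+* M) t = t := hut
  rw [h2, ← Polynomial.eval₂_map, hP, h3] at h1
  rw [aeval_def]
  exact h1

private lemma LA04_v_prod (h : LocCtx v s t) (S : Finset F) (e : F → ℤ) :
    v (∏ s' ∈ S.erase s, (t - algebraMap F M s') ^ e s') = 1 := by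
  have h1 := LA04_res_prod h (S.erase s) (fun s' => (t - algebraMap F M s') ^ e s')
    (fun s' => (s - s') ^ e s') fun s' hs' => h.residue_zpow (LA04_res_t h s')
      (sub_ne_zero.2 (Finset.ne_of_mem_erase hs').symm) _
  refine h.v_eq_one h1 (Finset.prod_ne_zero_iff.2 fun s' hs' => zpow_ne_zero _
    (sub_ne_zero.2 (Finset.ne_of_mem_erase hs').symm))

private lemma LA04_key_i (hg : AGeom a) (h : LocCtx v s t) {i j : ι} (hij : i ≠ j)
    (hs : (a i).eval s = (a j).eval s) (e : F → ℤ) :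
    v ((aeval t (a i) - aeval t (a j)) ^ e s / ∏ s' ∈ SS a, (t - algebraMap F M s') ^ e s' -
      algebraMap F M ((derivative (a i - a j)).eval s ^ e s *
        ∏ s' ∈ (SS a).erase s, (s - s') ^ (-e s'))) < 1 := by
  have hsS : s ∈ SS a := mem_SS_of_eq hg hij hs
  have e1 : (aeval t (a i) - aeval t (a j)) ^ e s /
      ∏ s' ∈ SS a, (t - algebraMap F M s') ^ e s' =
      (aeval t (a i - a j) / (t - algebraMap F M s)) ^ e s *
        ∏ s' ∈ (SS a).erase s, (t - algebraMap F M s') ^ (-e s') := by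
    rw [← Finset.mul_prod_erase _ _ hsS, map_sub]
    simp only [zpow_neg, Finset.prod_inv_distrib, div_eq_mul_inv, mul_inv, mul_zpow, inv_zpow]
    ring
  rw [e1]
  refine h.residue_mul (h.residue_zpow (residue_simple h (by rw [eval_sub, hs, sub_self]))
    (hg.simple hij hs) _) ?_
  exact LA04_res_prod h _ _ _ fun s' hs' => h.residue_zpow (LA04_res_t h s')
    (sub_ne_zero.2 (Finset.ne_of_mem_erase hs').symm) _

private lemma LA04_key_j (hg : AGeom a) (h : LocCtx v s t) {i j : ι} (hij : i ≠ j)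
    (hs : (a i).eval s = (a j).eval s) (ℓ : ℕ) (e : F → ℤ) {ε A k : ℤ}
    (hε : e s = -(W i * A) + ℓ * k) :
    v (((-1) ^ (ℓ + 1)) ^ ε * (cof (lineW W a t) (aeval t (a j))) ^ (-A) /
      (∏ s' ∈ SS a, (t - algebraMap F M s') ^ e s') * (t - algebraMap F M s) ^ (ℓ * k) -
      algebraMap F M (((-1) ^ (ℓ + 1)) ^ ε * ((derivative (a j - a i)).eval s ^ (-(W i * A)) *
        ∏ l ∈ (Finset.univ.erase i).erase j, ((a j).eval s - (a l).eval s) ^ (-(W l * A))) *
          ∏ s' ∈ (SS a).erase s, (s - s') ^ (-e s'))) < 1 := by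
  have hsS : s ∈ SS a := mem_SS_of_eq hg hij hs
  have hta : t - algebraMap F M s ≠ 0 := sub_ne_zero.2 h.ne
  have hT : (t - algebraMap F M s) ^ ((ℓ : ℤ) * k) ≠ 0 := zpow_ne_zero _ hta
  have hT' : (t - algebraMap F M s) ^ (-(W i * A)) ≠ 0 := zpow_ne_zero _ hta
  have e1 : ((-1) ^ (ℓ + 1)) ^ ε * (cof (lineW W a t) (aeval t (a j))) ^ (-A) /
      (∏ s' ∈ SS a, (t - algebraMap F M s') ^ e s') * (t - algebraMap F M s) ^ (ℓ * k) =
      ((-1) ^ (ℓ + 1)) ^ ε * ((aeval t (a j - a i) / (t - algebraMap F M s)) ^ (-(W i * A)) *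
        ∏ l ∈ (Finset.univ.erase i).erase j, (aeval t (a j) - aeval t (a l)) ^ (-(W l * A))) *
        ∏ s' ∈ (SS a).erase s, (t - algebraMap F M s') ^ (-e s') := by
    have hm : i ∈ (Finset.univ : Finset ι).erase j :=
      Finset.mem_erase.2 ⟨hij, Finset.mem_univ i⟩
    have hpw : ∀ (y : M) (n : ℕ), (y ^ n) ^ (-A) = y ^ (-(n * A)) := by
      intro y n
      rw [← zpow_natCast, ← zpow_mul, mul_neg]
    rw [← Finset.mul_prod_erase _ _ hsS, hε, zpow_add₀ hta, cof_lineW (line_inj hg h),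
      ← Finset.mul_prod_erase _ _ hm, Finset.erase_right_comm, map_sub, 
      mul_zpow, ← Finset.prod_zpow, div_zpow, hpw]
    have e3 : ∏ l ∈ (Finset.univ.erase i).erase j, ((aeval t (a j) - aeval t (a l)) ^ W l) ^ (-A) =
        ∏ l ∈ (Finset.univ.erase i).erase j, (aeval t (a j) - aeval t (a l)) ^ (-(W l * A)) :=
      Finset.prod_congr rfl fun l _ => hpw _ _
    rw [e3]
    have e2 : ∏ s' ∈ (SS a).erase s, (t - algebraMap F M s') ^ (-e s') =
        (∏ s' ∈ (SS a).erase s, (t - algebraMap F M s') ^ e s')⁻¹ := by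
      rw [← Finset.prod_inv_distrib]
      exact Finset.prod_congr rfl fun _ _ => zpow_neg _ _
    rw [e2]
    generalize (∏ s' ∈ (SS a).erase s, (t - algebraMap F M s') ^ e s') = P
    generalize (t - algebraMap F M s) ^ ((ℓ : ℤ) * k) = T at hT ⊢
    generalize (t - algebraMap F M s) ^ (-(W i * A)) = T' at hT' ⊢
    field_simp
  rw [e1]
  have hd : (derivative (a j - a i)).eval s ≠ 0 := hg.simple hij.symm hs.symm
  refine h.residue_mul (h.residue_mul ?_ (h.residue_mul (h.residue_zpow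
    (residue_simple h (by rw [eval_sub, hs, sub_self])) hd _) ?_)) ?_
  · have : (((-1 : M) ^ (ℓ + 1)) ^ ε) = algebraMap F M (((-1) ^ (ℓ + 1)) ^ ε) := by
      rw [map_zpow₀, map_pow, map_neg, map_one]
    rw [this]
    exact LA04_res_const _
  · refine LA04_res_prod h _ _ _ fun l hl => h.residue_zpow (LA04_res_sub h
      (LA04_res_line h j) (LA04_res_line h l)) ?_ _
    rw [Finset.mem_erase, Finset.mem_erase] at hl
    exact sub_ne_zero.2 (hg.third' hij hl.2.1 hl.1 hs).symm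
  · exact LA04_res_prod h _ _ _ fun s' hs' => h.residue_zpow (LA04_res_t h s')
      (sub_ne_zero.2 (Finset.ne_of_mem_erase hs').symm) _

/-- A sign is an `ℓ`-th power of a sign. -/
private lemma LA04_sgn {K : Type*} [Field K] (hℓ : ℓ.Prime) (m : ℤ) (hm : ℓ = 2 → (2 : ℤ) ∣ m) :
    ∃ c : ℤ, ((-1 : K) ^ c) ^ ℓ = (-1) ^ m := by
  rcases hℓ.eq_two_or_odd' with h2 | h2
  · obtain ⟨k, hk⟩ := hm h2
    refine ⟨k, ?_⟩
    rw [hk, h2, ← zpow_natCast, ← zpow_mul, mul_comm]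
    rfl
  · refine ⟨m, ?_⟩
    rw [← zpow_natCast, ← zpow_mul, mul_comm, zpow_mul, zpow_natCast, h2.neg_one_pow]

/-- The quotient of the two residues. -/
private lemma LA04_quot (hℓ : ℓ.Prime) (hg : AGeom a) {i j : ι} (hij : i ≠ j)
    (hs : (a i).eval s = (a j).eval s) (e : ι → F → ℤ) {A B : ℤ} (hA : A * W j = B * ℓ + 1)
    (hWi : (W i).Coprime ℓ) (hWj : (W j).Coprime ℓ) :
    ∃ (c : ℤ) (T : F), T ≠ 0 ∧
      (∀ U : F ≃+* F, (∀ i, (a i).map (U : F →+* F) = a i) → U s = s → U T = T) ∧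
      ((((-1) ^ (ℓ + 1)) ^ e i s * ((derivative (a j - a i)).eval s ^ (-(W i * (A * e i s))) *
        ∏ l ∈ (Finset.univ.erase i).erase j,
          ((a j).eval s - (a l).eval s) ^ (-(W l * (A * e i s)))) *
          ∏ s' ∈ (SS a).erase s, (s - s') ^ (-e j s')) /
      ((derivative (a i - a j)).eval s ^ e i s *
        ∏ s' ∈ (SS a).erase s, (s - s') ^ (-e i s'))) ^ (W i * W j) =
      ((-1) ^ c * T) ^ ℓ * nodeW W a e i j s := by
  have hd : (derivative (a i - a j)).eval s ≠ 0 := hg.simple hij hs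
  have hl0 : ∀ l ∈ (Finset.univ.erase i).erase j, (a i).eval s - (a l).eval s ≠ 0 := by
    intro l hl
    rw [Finset.mem_erase, Finset.mem_erase] at hl
    exact sub_ne_zero.2 (hg.third hij hl.2.1 hl.1 hs).symm
  have hm1 : (-1 : F) ≠ 0 := neg_ne_zero.2 one_ne_zero
  -- the sign
  obtain ⟨c, hc⟩ := LA04_sgn (K := F) hℓ
    (((ℓ : ℤ) + 1) * e i s * (W i * W j) - W i * (A * e i s) * (W i * W j)) (by
      intro h2
      have ha : Odd (W i) := by
        rw [h2] at hWi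
        exact Nat.coprime_two_right.1 hWi
      have hb : Odd (W j) := by
        rw [h2] at hWj
        exact Nat.coprime_two_right.1 hWj
      obtain ⟨x, hx⟩ := ha
      obtain ⟨y, hy⟩ := hb
      have hx' : (W i : ℤ) = 2 * x + 1 := by exact_mod_cast hx
      have hy' : (W j : ℤ) = 2 * y + 1 := by exact_mod_cast hy
      rw [h2] at hA ⊢
      push_cast at hA ⊢
      refine ⟨e i s * W i * W j + e i s * W i * y - e i s * W i * B * W i - e i s * W i * x, ?_⟩
      linear_combination (-(W i : ℤ) * W i * e i s) * hA + e i s * W i * hy' - e i s * W i * hx')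
  refine ⟨c, (derivative (a i - a j)).eval s ^ (-(W i * e i s * W i * B)) *
    ∏ l ∈ (Finset.univ.erase i).erase j,
      ((a i).eval s - (a l).eval s) ^ (-(W l * e i s * W i * B)), ?_, ?_, ?_⟩
  · exact mul_ne_zero (zpow_ne_zero _ hd)
      (Finset.prod_ne_zero_iff.2 fun l hl => zpow_ne_zero _ (hl0 l hl))
  · intro U hU hUs
    have h1 : ∀ P : F[X], P.map (U : F →+* F) = P → U (P.eval s) = P.eval s := by
      intro P hP
      have h2 := Polynomial.eval₂_hom (U : F →+* F) s (p := P)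
      rw [← Polynomial.eval_map, hP] at h2
      have h3 : (U : F →+* F) s = s := hUs
      rw [h3] at h2
      exact h2.symm
    rw [map_mul, map_zpow₀, map_prod, h1]
    · congr 1
      refine Finset.prod_congr rfl fun l _ => ?_
      rw [map_zpow₀, map_sub, h1 _ (hU i), h1 _ (hU l)]
    · rw [← derivative_map, Polynomial.map_sub, hU, hU]
  · unfold nodeW
    have e1 : (derivative (a j - a i)).eval s = (-1) * (derivative (a i - a j)).eval s := by
      rw [derivative_sub, derivative_sub, eval_sub, eval_sub]; ring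
    have hz : ∀ (y : F) (m : ℤ) (n : ℕ), (y ^ m) ^ n = y ^ (m * n) := fun y m n => by
      rw [← zpow_natCast, ← zpow_mul]
    have hpr : ∀ (κ : Type u) (S : Finset κ) (g : κ → F) (n : ℤ) (m : κ → ℤ),
        (∏ l ∈ S, g l ^ m l) ^ n = ∏ l ∈ S, g l ^ (m l * n) := by
      intro κ S g n m
      rw [← Finset.prod_zpow]
      exact Finset.prod_congr rfl fun l _ => by rw [← zpow_mul]
    have hS0 : ∀ s' ∈ (SS a).erase s, s - s' ≠ 0 := fun s' hs' =>
      sub_ne_zero.2 (Finset.ne_of_mem_erase hs').symm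
    have h1 : (((-1 : F) ^ (ℓ + 1)) ^ e i s) ^ (W i * W j) *
        ((-1 : F) ^ (-(W i * (A * e i s)))) ^ (W i * W j) = ((-1) ^ c) ^ ℓ := by
      rw [hc, ← zpow_natCast (-1 : F) (ℓ + 1), ← zpow_mul, hz, hz, ← zpow_add₀ hm1]
      congr 1
      push_cast
      ring
    have h2 : ((derivative (a i - a j)).eval s ^ (-(W i * (A * e i s)))) ^ (W i * W j) /
        ((derivative (a i - a j)).eval s ^ e i s) ^ (W i * W j) =
        ((derivative (a i - a j)).eval s ^ (-(W i * e i s * W i * B))) ^ ℓ *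
          (derivative (a i - a j)).eval s ^ (-(W i + W j) * (W i * e i s)) := by
      rw [hz, hz, hz, ← zpow_sub₀ hd, ← zpow_add₀ hd]
      congr 1
      push_cast
      linear_combination (-(W i : ℤ) * W i * e i s) * hA
    have h3 : (∏ l ∈ (Finset.univ.erase i).erase j,
        ((a i).eval s - (a l).eval s) ^ (-(W l * (A * e i s)))) ^ (W i * W j) =
        (∏ l ∈ (Finset.univ.erase i).erase j,
          ((a i).eval s - (a l).eval s) ^ (-(W l * e i s * W i * B))) ^ ℓ *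
        ∏ l ∈ (Finset.univ.erase i).erase j,
          ((a i).eval s - (a l).eval s) ^ (-W l * (W i * e i s)) := by
      rw [← Finset.prod_pow, ← Finset.prod_pow, ← Finset.prod_mul_distrib]
      refine Finset.prod_congr rfl fun l hl => ?_
      rw [hz, hz, ← zpow_add₀ (hl0 l hl)]
      congr 1
      push_cast
      linear_combination (-(W l : ℤ) * W i * e i s) * hA
    have h4 : (∏ s' ∈ (SS a).erase s, (s - s') ^ (-e j s')) ^ (W i * W j) /
        (∏ s' ∈ (SS a).erase s, (s - s') ^ (-e i s')) ^ (W i * W j) =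
        ∏ s' ∈ (SS a).erase s, (s - s') ^ (W i * W j * (e i s' - e j s')) := by
      rw [← Finset.prod_pow, ← Finset.prod_pow, ← Finset.prod_div_distrib]
      refine Finset.prod_congr rfl fun s' hs' => ?_
      rw [hz, hz, ← zpow_sub₀ (hS0 s' hs')]
      congr 1
      push_cast
      ring
    rw [e1, ← hs, mul_zpow, div_pow]
    simp only [mul_pow]
    have h5 : (((-1 : F) ^ (ℓ + 1)) ^ e i s) ^ (W i * W j) *
        ((((-1 : F) ^ (-(W i * (A * e i s)))) ^ (W i * W j) *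
          ((derivative (a i - a j)).eval s ^ (-(W i * (A * e i s)))) ^ (W i * W j)) *
          (∏ l ∈ (Finset.univ.erase i).erase j,
            ((a i).eval s - (a l).eval s) ^ (-(W l * (A * e i s)))) ^ (W i * W j)) *
          (∏ s' ∈ (SS a).erase s, (s - s') ^ (-e j s')) ^ (W i * W j) /
        (((derivative (a i - a j)).eval s ^ e i s) ^ (W i * W j) *
          (∏ s' ∈ (SS a).erase s, (s - s') ^ (-e i s')) ^ (W i * W j)) =
        ((((-1 : F) ^ (ℓ + 1)) ^ e i s) ^ (W i * W j) *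
          ((-1 : F) ^ (-(W i * (A * e i s)))) ^ (W i * W j)) *
        (((derivative (a i - a j)).eval s ^ (-(W i * (A * e i s)))) ^ (W i * W j) /
          ((derivative (a i - a j)).eval s ^ e i s) ^ (W i * W j)) *
        (∏ l ∈ (Finset.univ.erase i).erase j,
            ((a i).eval s - (a l).eval s) ^ (-(W l * (A * e i s)))) ^ (W i * W j) *
        ((∏ s' ∈ (SS a).erase s, (s - s') ^ (-e j s')) ^ (W i * W j) /
          (∏ s' ∈ (SS a).erase s, (s - s') ^ (-e i s')) ^ (W i * W j)) := by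
      simp only [div_eq_mul_inv, mul_inv]
      ring
    rw [h5, h1, h2, h3, h4]
    ring

theorem node_formula (hℓ : ℓ.Prime) (hW : ∀ i, (W i).Coprime ℓ) (h : LocCtx v s t)
    (hg : AGeom a) (hp : p.Coprime ℓ)
    (hζ : IsPrimitiveRoot ζ ℓ) (hζ' : IsPrimitiveRoot (algebraMap F M ζ) ℓ)
    (hΓ : LocGrp p F v t (v (t - algebraMap F M s)) Γ)
    -- the automorphism `u`
    (u : Sym (lineW W a t)) (U : F ≃+* F) (huv : ∀ x, v ((u : M ≃+* M) x) = v x)
    (huF : ∀ c : F, (u : M ≃+* M) (algebraMap F M c) = algebraMap F M (U c))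
    (hut : (u : M ≃+* M) t = t) (hua : ∀ i, (a i).map (U : F →+* F) = a i)
    (hUζ : U ζ = ζ) (hnorm : ∀ τ ∈ Γ, u⁻¹ * τ * u ∈ Γ)
    (hUS : ∀ s' ∈ SS a, U s' = s')
    -- the exponents
    (e e' : ι → F → ℤ)
    (hnode : ∀ r, (ℓ : ℤ) ∣ ∑ i ∈ Finset.univ.filter (fun i => (a i).eval s = r), W i * e i s)
    (hnode' : ∀ r, (ℓ : ℤ) ∣ ∑ i ∈ Finset.univ.filter (fun i => (a i).eval s = r), W i * e' i s)
    (z z' : ι → M) (hz : ∀ i, z i ^ ℓ = ∏ s' ∈ SS a, (t - algebraMap F M s') ^ e i s')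
    (hz' : ∀ i, z' i ^ ℓ = ∏ s' ∈ SS a, (t - algebraMap F M s') ^ e' i s')
    (Q : Jac ℓ (lineW W a t))
    (hQ : ∀ τ ∈ Γ, ∀ n : M → ℤ,
      (∀ i, (τ : M ≃+* M) (z i) = algebraMap F M ζ ^ n (aeval t (a i)) * z i) →
        (symJ τ Q - Q) - zJ (algebraMap F M ζ) hζ'.pow_eq_one (symJ τ Q - Q) = rm n)
    (b q : M → ℤ) (hq : ∀ i, (u : M ≃+* M) (z i) = algebraMap F M ζ ^ q (aeval t (a i)) * z i)
    (B : Jac ℓ (lineW W a t))
    (hB : B - zJ (algebraMap F M ζ) hζ'.pow_eq_one B = rm fun θ => b θ - q θ)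
    (hy : ∀ τ ∈ Γ, ∀ n : M → ℤ,
      (∀ i, (τ : M ≃+* M) (z' i) = algebraMap F M ζ ^ n (aeval t (a i)) * z' i) →
        rm n = symJ u (symJ (u⁻¹ * τ * u) Q - Q) - (symJ τ Q - Q) + (symJ τ B - B))
    {i j : ι} (hij : i ≠ j) (hs : (a i).eval s = (a j).eval s) (x : F)
    (hx : x ^ ℓ = nodeW W a e i j s) :
    U x = ζ ^ (W i * e' i s - W i * W j * (b (aeval t (a j)) - b (aeval t (a i)))) * x := by
  have hAM : IsAlgClosed M := hG.alg
  have hℓ0 : ℓ ≠ 0 := hℓ.ne_zero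
  have hW0 : ∀ i, W i ≠ 0 := by
    intro i h0
    have h1 := hW i
    rw [h0, Nat.coprime_zero_left] at h1
    exact hℓ.one_lt.ne' h1
  have hζ0 : ζ ≠ 0 := hζ.ne_zero hℓ0
  have hζ0' : algebraMap F M ζ ≠ 0 := hζ'.ne_zero hℓ0
  have hinj := line_inj hg h
  have hsS : s ∈ SS a := mem_SS_of_eq hg hij hs
  have hta : t - algebraMap F M s ≠ 0 := sub_ne_zero.2 h.ne
  obtain ⟨ϖ, hϖ⟩ := IsAlgClosed.exists_pow_nat_eq (t - algebraMap F M s)
    (Nat.pos_of_ne_zero hℓ0)
  have hϖ0 : ϖ ≠ 0 := by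
    rintro rfl
    rw [zero_pow hℓ0] at hϖ
    exact hta hϖ.symm
  have hc := leCtx hℓ hW0 h hp hζ hζ' hΓ hϖ
  have huζ : (u : M ≃+* M) (algebraMap F M ζ) = algebraMap F M ζ := by rw [huF, hUζ]
  have huA : ∀ l, (u : M ≃+* M) (aeval t (a l)) = aeval t (a l) := fun l =>
    LA04_aeval (u : M ≃+* M) U huF hut (hua l)
  have hur : ∀ θ, (lineW W a t).eval θ = 0 → (u : M ≃+* M) θ = θ := by
    intro θ hθ
    obtain ⟨l, rfl⟩ := (eval_lineW_eq_zero hW0).1 hθ
    exact huA l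
  have hur' : ∀ θ, (lineW W a t).eval θ = 0 → ((u⁻¹ : Sym (lineW W a t)) : M ≃+* M) θ = θ := by
    intro θ hθ
    have h1 : ((u⁻¹ : Sym (lineW W a t)) : M ≃+* M) ((u : M ≃+* M) θ) = θ :=
      (u : M ≃+* M).symm_apply_apply θ
    rwa [hur θ hθ] at h1
  have huts : (u : M ≃+* M) (t - algebraMap F M s) = t - algebraMap F M s := by
    rw [map_sub, hut, huF, hUS s hsS]
  have huϖ : ∃ c : ℤ, (u : M ≃+* M) ϖ = algebraMap F M ζ ^ c * ϖ :=
    LA04_exists_zpow hℓ0 hζ' hϖ0 (by rw [← map_pow, hϖ, huts])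
  have hσζ : ∀ σ ∈ Γ, (σ : M ≃+* M) (algebraMap F M ζ) = algebraMap F M ζ := fun σ hσ =>
    hΓ.fix σ hσ ζ
  have hroot0 : ∀ l, (lineW W a t).eval (aeval t (a l)) = 0 := fun l => root_lineW hW0 l
  -- the exponents
  have hcopW : ∀ (l : ι) (y : ℤ), (ℓ : ℤ) ∣ W l * y → (ℓ : ℤ) ∣ y := by
    intro l y hy
    have h2 : IsCoprime (ℓ : ℤ) (W l : ℤ) := (Nat.isCoprime_iff_coprime.2 (hW l)).symm
    exact h2.dvd_of_dvd_mul_left hy
  obtain ⟨hn1, hn2'⟩ := LA04_node hg hij hs (fun l => W l * e l s) hnode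
  have hn2 : ∀ l, l ≠ i → l ≠ j → (ℓ : ℤ) ∣ e l s := fun l h1 h2 => hcopW l _ (hn2' l h1 h2)
  obtain ⟨hn1', hn2''⟩ := LA04_node hg hij hs (fun l => W l * e' l s) hnode'
  have hal : ((al ℓ (W j) : ℕ) : ℤ) * W j = ((be ℓ (W j) : ℕ) : ℤ) * ℓ + 1 := by
    exact_mod_cast al_mul hℓ.one_lt (hW j)
  obtain ⟨A, hA⟩ : ∃ A : ℤ, A = al ℓ (W j) := ⟨_, rfl⟩
  obtain ⟨B', hB'⟩ : ∃ B' : ℤ, B' = be ℓ (W j) := ⟨_, rfl⟩
  have hAB : A * W j = B' * ℓ + 1 := by rw [hA, hB', hal]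
  obtain ⟨we, hwe⟩ := LA04_fn hinj (fun l => e l s)
  obtain ⟨we', hwe'⟩ := LA04_fn hinj (fun l => e' l s)
  -- step 1
  have hfixprod : ∀ σ ∈ Γ, ∀ e₁ : F → ℤ,
      (σ : M ≃+* M) (∏ s' ∈ (SS a).erase s, (t - algebraMap F M s') ^ e₁ s') =
        ∏ s' ∈ (SS a).erase s, (t - algebraMap F M s') ^ e₁ s' := by
    intro σ hσ e₁
    rw [map_prod]
    refine Finset.prod_congr rfl fun s' _ => ?_
    rw [map_zpow₀, map_sub, hΓ.fixt σ hσ, hΓ.fix σ hσ]
  obtain ⟨Q₁, hQ₁⟩ : ∃ Q₁ : Jac ℓ (lineW W a t),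
      Q₁ = Q - zJ (algebraMap F M ζ) hζ'.pow_eq_one Q := ⟨_, rfl⟩
  have hLE1 : LE Γ hζ'.pow_eq_one ϖ (Q₁ - zJ (algebraMap F M ζ) hζ'.pow_eq_one Q₁) we := by
    refine LE_of_kummer hℓ h hζ hζ' hΓ hϖ Q₁ z
      (fun l => ∏ s' ∈ (SS a).erase s, (t - algebraMap F M s') ^ e l s') (fun l => e l s)
      ?_ ?_ ?_ ?_ we hwe
    · intro l
      rw [hz l, ← Finset.mul_prod_erase _ _ hsS]
    · intro l
      exact LA04_v_prod h _ _
    · intro σ hσ l
      exact hfixprod σ hσ _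
    · intro σ hσ n hn
      rw [← hQ σ hσ n hn, hQ₁, map_sub, map_sub, zJ_symJ _ _ σ (hσζ σ hσ)]
      abel
  -- step 2
  obtain ⟨ρ, hρ⟩ := LA04_fn hinj (fun l => if l = j then e i s else 0)
  have hρi : ρ (aeval t (a i)) = 0 := by rw [hρ, if_neg hij]
  have hρj : ρ (aeval t (a j)) = e i s := by rw [hρ, if_pos rfl]
  obtain ⟨V, hV⟩ := LA04_fn hinj (fun l => if l = i then W j * (A * e i s) else
    if l = j then -(W i * (A * e i s)) else 0)
  have hLE2 : LE Γ hζ'.pow_eq_one ϖ (ram ρ) V := by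
    rw [ram_eq_rm]
    refine LE_ram hℓ hW0 hg h hp hζ hζ' hΓ hϖ hij hs
      (fun θ => al ℓ (wt (lineW W a t) θ) * ρ θ) V ?_ ?_ ?_
    · rw [hV, if_pos rfl, hρi, hρj, wt_lineW hinj, mul_zero, sub_zero, hA]
    · rw [hV, if_neg hij.symm, if_pos rfl, hρi, hρj, wt_lineW hinj i, wt_lineW hinj j, mul_zero,
        zero_sub, hA]
      ring
    · intro l hli hlj
      rw [hV, if_neg hli, if_neg hlj]
  obtain ⟨x', hx', hx'fix⟩ := LE.exists_fixed hc (hLE1.sub hLE2) (c := 0) (by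
    intro θ hθ
    obtain ⟨l, rfl⟩ := (eval_lineW_eq_zero hW0).1 hθ
    rw [hwe, hV, sub_zero]
    by_cases hli : l = i
    · subst hli
      rw [if_pos rfl]
      exact ⟨-(B' * e l s), by linear_combination (-e l s) * hAB⟩
    · rw [if_neg hli]
      by_cases hlj : l = j
      · subst hlj
        rw [if_pos rfl, sub_neg_eq_add]
        obtain ⟨m, hm⟩ := hn1
        exact ⟨A * m - B' * e l s, by linear_combination A * hm - e l s * hAB⟩
      · rw [if_neg hlj, sub_zero]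
        exact hn2 l hli hlj)
  obtain ⟨B₀, hB₀⟩ : ∃ B₀ : Jac ℓ (lineW W a t), B₀ = Q₁ - x' := ⟨_, rfl⟩
  have hB₀' : B₀ - zJ (algebraMap F M ζ) hζ'.pow_eq_one B₀ = cl (ramDiv ρ) := by
    have h1 : B₀ - zJ (algebraMap F M ζ) hζ'.pow_eq_one B₀ = ram ρ := by
      have h2 : B₀ - zJ (algebraMap F M ζ) hζ'.pow_eq_one B₀ =
          (Q₁ - zJ (algebraMap F M ζ) hζ'.pow_eq_one Q₁) -
            (x' - zJ (algebraMap F M ζ) hζ'.pow_eq_one x') := by
        rw [hB₀, map_sub]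
        abel
      rw [h2, hx']
      abel
    exact h1
  -- step 3
  obtain ⟨Q', hQ'⟩ : ∃ Q' : Jac ℓ (lineW W a t), Q' = symJ u Q - Q + B := ⟨_, rfl⟩
  have hLE3 : LE Γ hζ'.pow_eq_one ϖ (Q' - zJ (algebraMap F M ζ) hζ'.pow_eq_one Q') we' := by
    refine LE_of_kummer hℓ h hζ hζ' hΓ hϖ Q' z'
      (fun l => ∏ s' ∈ (SS a).erase s, (t - algebraMap F M s') ^ e' l s') (fun l => e' l s)
      ?_ ?_ ?_ ?_ we' hwe'
    · intro l
      rw [hz' l, ← Finset.mul_prod_erase _ _ hsS]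
    · intro l
      exact LA04_v_prod h _ _
    · intro σ hσ l
      exact hfixprod σ hσ _
    · intro σ hσ n hn
      rw [hy σ hσ n hn, hQ', map_add, map_sub, map_sub, ← symJ_mul, ← symJ_mul]
      have h1 : u * (u⁻¹ * σ * u) = σ * u := by group
      rw [h1]
      abel
  -- step 4
  obtain ⟨zz, hzz, hker⟩ := kummer_rm (algebraMap F M ζ) hζ' B₀ (ramDiv ρ) hB₀'
  have hDfix : (ramDiv ρ : Pt ℓ (lineW W a t) →₀ ℤ).mapDomain (Pt.sym u) = ramDiv ρ := by
    rw [mapDomain_sym_ramDiv]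
    refine ramDiv_congr _ _ ?_
    intro θ hθ
    rw [hur' θ hθ]
  have hn : ∀ θ : M, ∃ n : ℤ, (lineW W a t).eval θ = 0 →
      (u : M ≃+* M) (zz θ) = algebraMap F M ζ ^ n * zz θ := by
    intro θ
    by_cases hθ : (lineW W a t).eval θ = 0
    · obtain ⟨n, hn⟩ : ∃ n : ℤ, (u : M ≃+* M) (zz θ) = algebraMap F M ζ ^ n * zz θ := by
        refine LA04_exists_zpow hℓ0 hζ' (hzz θ hθ).1 ?_
        rw [← map_pow, (hzz θ hθ).2, map_mul, map_zpow₀, map_pow, map_neg, map_one,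
          sym_uval u _ hDfix, hur θ hθ]
      exact ⟨n, fun _ => hn⟩
    · exact ⟨0, fun h0 => absurd h0 hθ⟩
  choose n hn using hn
  have hkn : symJ u B₀ - B₀ = rm n := by
    refine hker u huζ hDfix n ?_
    intro θ hθ
    rw [hur θ hθ]
    exact hn θ hθ
  obtain ⟨w₁, hw₁, -⟩ := exists_LE hℓ hW0 hg h hp hζ hζ' hΓ hϖ x' hx'fix
  have hLE4 := (hw₁.act hc u hnorm huζ hur huϖ).sub hw₁
  obtain ⟨β, hβ⟩ : ∃ β : M → ℤ, β = fun θ => n θ + (b θ - q θ) := ⟨_, rfl⟩
  obtain ⟨V', hV'⟩ := LA04_fn hinj (fun l =>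
    if l = i then W j * (β (aeval t (a j)) - β (aeval t (a i))) else
      if l = j then W i * (β (aeval t (a i)) - β (aeval t (a j))) else 0)
  have hLE5 : LE Γ hζ'.pow_eq_one ϖ (rm β) V' := by
    refine LE_ram hℓ hW0 hg h hp hζ hζ' hΓ hϖ hij hs β V' ?_ ?_ ?_
    · rw [hV', if_pos rfl]
    · rw [hV', if_neg hij.symm, if_pos rfl]
    · intro l hli hlj
      rw [hV', if_neg hli, if_neg hlj]
  have hQ'eq : Q' - zJ (algebraMap F M ζ) hζ'.pow_eq_one Q' = rm β + (symJ u x' - x') := by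
    have h1 : Q' - zJ (algebraMap F M ζ) hζ'.pow_eq_one Q' =
        (symJ u Q₁ - Q₁) + (B - zJ (algebraMap F M ζ) hζ'.pow_eq_one B) := by
      rw [hQ', hQ₁, map_add, map_sub, map_sub, zJ_symJ _ _ u huζ]
      abel
    have h2 : symJ u Q₁ - Q₁ = (symJ u B₀ - B₀) + (symJ u x' - x') := by
      rw [hB₀, map_sub]
      abel
    have h3 : (rm β : Jac ℓ (lineW W a t)) = rm n + rm fun θ => b θ - q θ := by
      rw [hβ]
      exact rm_add n fun θ => b θ - q θ
    rw [h1, h2, hkn, hB, h3]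
    abel
  have hLE6 : LE Γ hζ'.pow_eq_one ϖ (Q' - zJ (algebraMap F M ζ) hζ'.pow_eq_one Q') V' := by
    rw [hQ'eq]
    refine (hLE5.add hLE4).congr fun θ _ => ?_
    exact ⟨0, by ring⟩
  have hfin := LE.unique_sum hc hLE3 hLE6 (by
      rw [LA04_sum_rts hW0 hinj]
      refine LA04_dvd_sum hij (fun l => W l * we' (aeval t (a l))) ?_ ?_
      · rw [hwe', hwe']
        exact hn1'
      · intro l hli hlj
        rw [hwe']
        exact hn2'' l hli hlj) (by
      rw [LA04_sum_rts hW0 hinj]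
      refine LA04_dvd_sum hij (fun l => W l * V' (aeval t (a l))) ?_ ?_
      · rw [hV', hV', if_pos rfl, if_neg hij.symm, if_pos rfl]
        exact ⟨0, by ring⟩
      · intro l hli hlj
        rw [hV', if_neg hli, if_neg hlj, mul_zero]
        exact dvd_zero _) _ (hroot0 i)
  rw [hwe', hV', if_pos rfl] at hfin
  -- step 5: the units
  have hej : ∃ k : ℤ, e j s = -(W i * (A * e i s)) + ℓ * k := by
    obtain ⟨k, hk⟩ := hn1
    exact ⟨A * k - B' * e j s, by linear_combination A * hk - e j s * hAB⟩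
  obtain ⟨k, hk⟩ := hej
  have hzzi : zz (aeval t (a i)) ^ ℓ = (aeval t (a i) - aeval t (a j)) ^ e i s := by
    rw [(hzz _ (hroot0 i)).2, atR_ramDiv _ (hroot0 i), uval_ramDiv _ (hroot0 i), hρi, zpow_zero,
      one_mul, zpow_zero, one_mul]
    have h1 : aeval t (a j) ∈ (lineW W a t).roots.toFinset.erase (aeval t (a i)) := by
      rw [Finset.mem_erase]
      exact ⟨fun h0 => hij.symm (hinj h0), (mem_rts_lineW hW0).2 ⟨j, rfl⟩⟩
    rw [← Finset.mul_prod_erase _ _ h1, hρj, Finset.prod_eq_one, mul_one]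
    intro θ hθ
    rw [Finset.mem_erase, Finset.mem_erase] at hθ
    obtain ⟨l, rfl⟩ := (mem_rts_lineW hW0).1 hθ.2.2
    rw [hρ, if_neg, zpow_zero]
    rintro rfl
    exact hθ.1 rfl
  have hzzj : zz (aeval t (a j)) ^ ℓ = ((-1) ^ (ℓ + 1)) ^ e i s *
      (cof (lineW W a t) (aeval t (a j))) ^ (-(A * e i s)) := by
    rw [(hzz _ (hroot0 j)).2, atR_ramDiv _ (hroot0 j), uval_ramDiv _ (hroot0 j), hρj,
      Finset.prod_eq_one, mul_one, wt_lineW hinj, inv_zpow, ← zpow_natCast (cof _ _) (al ℓ (W j)),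
      ← zpow_mul, ← zpow_neg, hA]
    intro θ hθ
    rw [Finset.mem_erase] at hθ
    obtain ⟨l, rfl⟩ := (mem_rts_lineW hW0).1 hθ.2
    rw [hρ, if_neg, zpow_zero]
    rintro rfl
    exact hθ.1 rfl
  obtain ⟨Xi, hXi⟩ : ∃ Xi : F, Xi = (derivative (a i - a j)).eval s ^ e i s *
        ∏ s' ∈ (SS a).erase s, (s - s') ^ (-e i s') := ⟨_, rfl⟩
  obtain ⟨Xj, hXj⟩ : ∃ Xj : F, Xj = ((-1) ^ (ℓ + 1)) ^ e i s *
      ((derivative (a j - a i)).eval s ^ (-(W i * (A * e i s))) *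
        ∏ l ∈ (Finset.univ.erase i).erase j,
          ((a j).eval s - (a l).eval s) ^ (-(W l * (A * e i s)))) *
          ∏ s' ∈ (SS a).erase s, (s - s') ^ (-e j s') := ⟨_, rfl⟩
  have hS0 : ∀ e₁ : F → ℤ, ∏ s' ∈ (SS a).erase s, (s - s') ^ (-e₁ s') ≠ 0 := fun e₁ =>
    Finset.prod_ne_zero_iff.2 fun s' hs' => zpow_ne_zero _
      (sub_ne_zero.2 (Finset.ne_of_mem_erase hs').symm)
  have hXi0 : Xi ≠ 0 := by
    rw [hXi]
    exact mul_ne_zero (zpow_ne_zero _ (hg.simple hij hs)) (hS0 _)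
  have hXj0 : Xj ≠ 0 := by
    rw [hXj]
    refine mul_ne_zero (mul_ne_zero (zpow_ne_zero _ (pow_ne_zero _ (neg_ne_zero.2 one_ne_zero)))
      (mul_ne_zero (zpow_ne_zero _ (hg.simple hij.symm hs.symm)) ?_)) (hS0 _)
    refine Finset.prod_ne_zero_iff.2 fun l hl => zpow_ne_zero _ ?_
    rw [Finset.mem_erase, Finset.mem_erase] at hl
    exact sub_ne_zero.2 (hg.third' hij hl.2.1 hl.1 hs).symm
  -- the residue of a unit with a given power
  have hres : ∀ (Y : M) (X₀ : F) (m : ℤ), v (Y ^ ℓ - algebraMap F M X₀) < 1 → X₀ ≠ 0 →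
      (u : M ≃+* M) Y = algebraMap F M ζ ^ m * Y →
      ∃ y : F, y ≠ 0 ∧ y ^ ℓ = X₀ ∧ U y = ζ ^ m * y := by
    intro Y X₀ m h1 h2 h3
    have hvY : v Y = 1 := by
      have h4 := h.v_eq_one h1 h2
      rw [map_pow] at h4
      exact (pow_eq_one_iff_of_nonneg (v.nonneg _) hℓ0).1 h4
    obtain ⟨y, hy⟩ := h.residue _ hvY.le
    have hyX : y ^ ℓ = X₀ := h.residue_unique (LA04_res_pow h hy ℓ) h1
    refine ⟨y, ?_, hyX, ?_⟩
    · rintro rfl
      rw [zero_pow hℓ0] at hyX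
      exact h2 hyX.symm
    · have hr1 : v ((u : M ≃+* M) Y - algebraMap F M (U y)) < 1 := by
        rw [← huF, ← map_sub, huv]
        exact hy
      have hr2 : v ((u : M ≃+* M) Y - algebraMap F M (ζ ^ m * y)) < 1 := by
        rw [h3, ← map_zpow₀]
        exact h.residue_mul (LA04_res_const _) hy
      exact h.residue_unique hr1 hr2
  obtain ⟨yi, hyi0, hyi, hUyi⟩ := hres (zz (aeval t (a i)) / z i) Xi
    (n (aeval t (a i)) - q (aeval t (a i))) (by
      rw [div_pow, hzzi, hz i, hXi]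
      exact LA04_key_i hg h hij hs (e i)) hXi0 (by
      rw [map_div₀, hn _ (hroot0 i), hq i, zpow_sub₀ hζ0']
      simp only [div_eq_mul_inv, mul_inv]
      ring)
  obtain ⟨yj, hyj0, hyj, hUyj⟩ := hres (zz (aeval t (a j)) / z j * (t - algebraMap F M s) ^ k) Xj
    (n (aeval t (a j)) - q (aeval t (a j))) (by
      rw [mul_pow, div_pow, hzzj, hz j, hXj, ← zpow_natCast ((t - algebraMap F M s) ^ k) ℓ,
        ← zpow_mul, mul_comm k]
      exact LA04_key_j hg h hij hs ℓ (e j) hk) hXj0 (by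
      rw [map_mul, map_zpow₀, huts, map_div₀, hn _ (hroot0 j), hq j, zpow_sub₀ hζ0']
      simp only [div_eq_mul_inv, mul_inv]
      ring)
  -- the conclusion
  obtain ⟨c, T, hT0, hTU, hT⟩ := LA04_quot hℓ hg hij hs e (A := A) (B := B') hAB (hW i) (hW j)
  have hcT0 : (-1 : F) ^ c * T ≠ 0 :=
    mul_ne_zero (zpow_ne_zero _ (neg_ne_zero.2 one_ne_zero)) hT0
  have hquot : ((yj / yi) ^ (W i * W j)) ^ ℓ = (((-1) ^ c * T) * x) ^ ℓ := by
    rw [← pow_mul, mul_comm (W i * W j), pow_mul, div_pow, hyi, hyj, hXi, hXj, hT,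
      mul_pow ((-1) ^ c * T) x, hx]
  have hy0 : (yj / yi) ^ (W i * W j) ≠ 0 := pow_ne_zero _ (div_ne_zero hyj0 hyi0)
  obtain ⟨k', hk'⟩ := LA04_exists_zpow hℓ0 hζ hy0 hquot.symm
  have hUy1 : U (yj / yi) = ζ ^ ((n (aeval t (a j)) - q (aeval t (a j))) -
          (n (aeval t (a i)) - q (aeval t (a i)))) * (yj / yi) := by
    rw [map_div₀, hUyi, hUyj, zpow_sub₀ hζ0 (n (aeval t (a j)) - q (aeval t (a j)))
      (n (aeval t (a i)) - q (aeval t (a i)))]
    simp only [div_eq_mul_inv, mul_inv]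
    ring
  have hUy : U ((yj / yi) ^ (W i * W j)) =
      ζ ^ (W i * e' i s - W i * W j * (b (aeval t (a j)) - b (aeval t (a i)))) *
        (yj / yi) ^ (W i * W j) := by
    have h1 : ζ ^ (W i * e' i s - W i * W j * (b (aeval t (a j)) - b (aeval t (a i)))) =
        ζ ^ (((n (aeval t (a j)) - q (aeval t (a j))) -
          (n (aeval t (a i)) - q (aeval t (a i)))) * (W i * W j : ℤ)) := by
      refine LA04_zpow_eq hℓ0 hζ ?_
      rw [hβ] at hfin
      obtain ⟨m, hm⟩ := hfin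
      exact ⟨W i * m, by linear_combination (W i : ℤ) * hm⟩
    rw [map_pow, hUy1, mul_pow, h1, zpow_mul]
    norm_cast
  have h1 : U ((-1) ^ c * T * x) =
      ζ ^ (W i * e' i s - W i * W j * (b (aeval t (a j)) - b (aeval t (a i)))) *
        ((-1) ^ c * T * x) := by
    rw [hk', map_mul, map_zpow₀, hUζ, hUy]
    ring
  rw [map_mul, map_mul, map_zpow₀, map_neg, map_one, hTU U hua (hUS s hsS)] at h1
  apply mul_left_cancel₀ hcT0
  rw [h1]
  ring

end Pool.Agent.Lib.MP_89bcae_ag.Wt.Lns
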