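import Mathlib
import Pool.Agent.Lib.MP_89bcae_ag.Wl.LA04

/-!
# The local theorems for a curve equal to `lineW W a t`
-/

open Polynomial

open scoped Classical

namespace Pool.Agent.Lib.MP_89bcae_ag.Wt.Lns

open Pool.Agent.Lib.MP_89bcae_ag.Sup Pool.Agent.Lib.MP_89bcae_ag.Sup.Lns

universe u

variable {ι : Type} [Fintype ι] [LinearOrder ι] {F M : Type u} [Field F] [Field M] [Algebra F M]
  {v : AbsoluteValue M ℝ} {s : F} {t : M} {a : ι → F[X]} {W : ι → ℕ} {ℓ p : ℕ} {ζ : F}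

/-- The sums of the exponents over the classes of roots. -/
theorem place_sum (hℓ : ℓ.Prime) (hW : ∀ i, (W i).Coprime ℓ) (hg : AGeom a) (h : LocCtx v s t) (hp : p.Coprime ℓ) {f : M[X]} (hf : f = lineW W a t)
    [hG : IsGood ℓ f] (hζ : IsPrimitiveRoot ζ ℓ) (hζ' : IsPrimitiveRoot (algebraMap F M ζ) ℓ)
    {Γ : Subgroup (Sym f)} (hΓ : LocGrp p F v t (v (t - algebraMap F M s)) Γ)
    (Q : Jac ℓ f) (z y : ι → M) (e : ι → ℤ)
    (hz : ∀ i, z i ^ ℓ = (t - algebraMap F M s) ^ e i * y i) (hy : ∀ i, v (y i) = 1)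
    (hfix : ∀ σ ∈ Γ, ∀ i, (σ : M ≃+* M) (y i) = y i)
    (hQ : ∀ σ ∈ Γ, ∀ n : M → ℤ,
      (∀ i, (σ : M ≃+* M) (z i) = algebraMap F M ζ ^ n (aeval t (a i)) * z i) →
        symJ σ Q - Q = rm n)
    (hsum : (ℓ : ℤ) ∣ ∑ i, W i * e i) (r : F) :
    (ℓ : ℤ) ∣ ∑ i ∈ Finset.univ.filter (fun i => (a i).eval s = r), W i * e i := by
  subst hf
  have hM : IsAlgClosed M := hG.alg
  have hinj := line_inj hg h
  have hW0 : ∀ i, W i ≠ 0 := by
    intro i h0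
    have h1 := hW i
    rw [h0, Nat.coprime_zero_left] at h1
    exact hℓ.one_lt.ne' h1
  obtain ⟨ϖ, hϖ⟩ := IsAlgClosed.exists_pow_nat_eq (t - algebraMap F M s) hℓ.pos
  -- the exponents as a function on `M`
  obtain ⟨w, hw⟩ : ∃ w : M → ℤ, ∀ i, w (aeval t (a i)) = e i := by
    refine ⟨fun θ => if h : ∃ i, aeval t (a i) = θ then e h.choose else 0, fun i => ?_⟩
    have h : ∃ j, aeval t (a j) = aeval t (a i) := ⟨i, rfl⟩
    beta_reduce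
    rw [dif_pos h, hinj h.choose_spec]
  have h1 := LE_of_kummer hℓ h hζ hζ' hΓ hϖ Q z y e hz hy hfix hQ w hw
  have h2 := LE.sum_dvd hℓ hW0 hg h hp hζ hζ' hΓ hϖ h1 (by simpa only [hw] using hsum) r
  simpa only [hw] using h2

theorem node_formula' (hℓ : ℓ.Prime) (hW : ∀ i, (W i).Coprime ℓ) (h : LocCtx v s t) (hg : AGeom a) (hp : p.Coprime ℓ) {f : M[X]}
    (hf : f = lineW W a t) [hG : IsGood ℓ f]
    (hζ : IsPrimitiveRoot ζ ℓ) (hζ' : IsPrimitiveRoot (algebraMap F M ζ) ℓ)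
    {Γ : Subgroup (Sym f)} (hΓ : LocGrp p F v t (v (t - algebraMap F M s)) Γ)
    -- the automorphism `u`
    (u : Sym f) (U : F ≃+* F) (huv : ∀ x, v ((u : M ≃+* M) x) = v x)
    (huF : ∀ c : F, (u : M ≃+* M) (algebraMap F M c) = algebraMap F M (U c))
    (hut : (u : M ≃+* M) t = t) (hua : ∀ i, (a i).map (U : F →+* F) = a i)
    (hUζ : U ζ = ζ) (hnorm : ∀ τ ∈ Γ, u⁻¹ * τ * u ∈ Γ)
    (hUS : ∀ s' ∈ SS a, U s' = s')
    -- the exponents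
    (e e' : ι → F → ℤ)
    (hnode : ∀ r, (ℓ : ℤ) ∣ ∑ i ∈ Finset.univ.filter (fun i => (a i).eval s = r), W i * e i s)
    (hnode' : ∀ r, (ℓ : ℤ) ∣ ∑ i ∈ Finset.univ.filter (fun i => (a i).eval s = r), W i * e' i s)
    (z z' : ι → M) (hz : ∀ i, z i ^ ℓ = ∏ s' ∈ SS a, (t - algebraMap F M s') ^ e i s')
    (hz' : ∀ i, z' i ^ ℓ = ∏ s' ∈ SS a, (t - algebraMap F M s') ^ e' i s')
    (Q : Jac ℓ f)
    (hQ : ∀ τ ∈ Γ, ∀ n : M → ℤ,
      (∀ i, (τ : M ≃+* M) (z i) = algebraMap F M ζ ^ n (aeval t (a i)) * z i) →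
        (symJ τ Q - Q) - zJ (algebraMap F M ζ) hζ'.pow_eq_one (symJ τ Q - Q) = rm n)
    (b q : M → ℤ) (hq : ∀ i, (u : M ≃+* M) (z i) = algebraMap F M ζ ^ q (aeval t (a i)) * z i)
    (B : Jac ℓ f)
    (hB : B - zJ (algebraMap F M ζ) hζ'.pow_eq_one B = rm fun θ => b θ - q θ)
    (hy : ∀ τ ∈ Γ, ∀ n : M → ℤ,
      (∀ i, (τ : M ≃+* M) (z' i) = algebraMap F M ζ ^ n (aeval t (a i)) * z' i) →
        rm n = symJ u (symJ (u⁻¹ * τ * u) Q - Q) - (symJ τ Q - Q) + (symJ τ B - B))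
    {i j : ι} (hij : i ≠ j) (hs : (a i).eval s = (a j).eval s) (x : F)
    (hx : x ^ ℓ = nodeW W a e i j s) :
    U x = ζ ^ (W i * e' i s - W i * W j * (b (aeval t (a j)) - b (aeval t (a i)))) * x := by
  subst hf
  exact node_formula hℓ hW h hg hp hζ hζ' hΓ u U huv huF hut hua hUζ hnorm hUS e e' hnode hnode' z z' hz
    hz' Q hQ b q hq B hB hy hij hs x hx

end Pool.Agent.Lib.MP_89bcae_ag.Wt.Lns
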