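import Mathlib
import Pool.Agent.Lib.MP_89bcae_ag.Wl.GA04
import Pool.Agent.Lib.MP_89bcae_ag.Wl.GA07

/-!
# The formula for the exponents
-/

open Polynomial IsDedekindDomain

open scoped Classical

namespace Pool.Agent.Lib.MP_89bcae_ag.Wt.Lns

open Pool.Agent.Lib.MP_89bcae_ag.Sup Pool.Agent.Lib.MP_89bcae_ag.Sup.Lns

universe u

set_option linter.unusedSectionVars false

private lemma ga8_sq {A B : Type u} [Field A] [Field B] {ℓ : ℕ} (σ : A →+* A) (j : A →+* B)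
    (w : B →+* B) {f : A[X]} {f' : B[X]} (hσ : f.map σ = f) (hj : f.map j = f')
    (hw : f'.map w = f') (hc : ∀ x, j (σ x) = w (j x)) (Q : Jac ℓ f) :
    jacMap ℓ j hj (jacMap ℓ σ hσ Q) = jacMap ℓ w hw (jacMap ℓ j hj Q) := by
  have h0 : j.comp σ = w.comp j := RingHom.ext hc
  have h1 : f.map (j.comp σ) = f' := by rw [← Polynomial.map_map, hσ, hj]
  have h2 : f.map (w.comp j) = f' := by rw [← Polynomial.map_map, hj, hw]
  rw [jacMap_jacMap ℓ σ j hσ hj h1, jacMap_jacMap ℓ j w hj hw h2]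
  congr 1
  simp only [h0]

private lemma ga8_vJ {A B : Type u} [Field A] [Field B] {ℓ : ℕ} (j : A →+* B)
    {f : A[X]} {f' : B[X]} [IsGood ℓ f] [IsGood ℓ f'] (hj : f.map j = f') (ζ : A) (ζ' : B)
    (hζ : ζ ^ ℓ = 1) (hζ' : ζ' ^ ℓ = 1) (h : j ζ = ζ') (Q : Jac ℓ f) :
    jacMap ℓ j hj (vJ ζ hζ Q) = vJ ζ' hζ' (jacMap ℓ j hj Q) := by
  subst h
  exact (vJ_jacMap j hj ζ hζ hζ' Q).symm

private lemma ga8_zJ {A B : Type u} [Field A] [Field B] {ℓ : ℕ} (j : A →+* B)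
    {f : A[X]} {f' : B[X]} [IsGood ℓ f] [IsGood ℓ f'] (hj : f.map j = f') (ζ : A) (ζ' : B)
    (hζ : ζ ^ ℓ = 1) (hζ' : ζ' ^ ℓ = 1) (h : j ζ = ζ') (Q : Jac ℓ f) :
    jacMap ℓ j hj (zJ ζ hζ Q) = zJ ζ' hζ' (jacMap ℓ j hj Q) := by
  subst h
  exact (zJ_jacMap j hj ζ hζ hζ' Q).symm

variable {ι : Type} [Fintype ι] [LinearOrder ι]
  {k F L Ω : Type u} [Field k] [Field F] [Algebra k F] [Field L] [Algebra F[X] L]
  [Field Ω] [Algebra L Ω] [IsAlgClosure k F] [IsFractionRing F[X] L] [IsAlgClosure L Ω]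
  [Algebra F Ω] {ℓ : ℕ} {W : ι → ℕ} {α : ι → k[X]} {ζ : k}
  [hG : IsGood ℓ (cOver k F L Ω (arr W α))] {hζ : (zA F L Ω ζ) ^ ℓ = 1}

omit [Algebra F Ω] hG in
private lemma ga8_poly {M : Type u} [Field M] [Algebra L M] (j : Ω →ₐ[L] M) (γ : AutO k F L Ω)
    (w : M ≃+* M) (hw : ∀ x, j ((γ : Ω ≃+* Ω) x) = w (j x)) (P : F[X]) :
    w (algebraMap L M (algebraMap F[X] L P)) =
      algebraMap L M (algebraMap F[X] L (P.map (resF γ : F →+* F))) := by
  rw [← j.commutes, ← hw, resF_spec, j.commutes]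

omit [Algebra F Ω] hG in
private lemma ga8_map {M : Type u} [Field M] [Algebra L M] (j : Ω →ₐ[L] M) :
    (cOver k F L Ω (arr W α)).map (j : Ω →+* M) = cOver k F L M (arr W α) := by
  rw [Polynomial.map_map]
  congr 1
  exact j.comp_algebraMap

omit [Algebra F Ω] hG in
private lemma ga8_sym {M : Type u} [Field M] [Algebra L M] (j : Ω →ₐ[L] M) (γ : AutO k F L Ω)
    (w : M ≃+* M) (hw : ∀ x, j ((γ : Ω ≃+* Ω) x) = w (j x)) :
    w ∈ Sym (cOver k F L M (arr W α)) := by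
  rw [mem_Sym, ← ga8_map j, Polynomial.map_map]
  have h2 : (w : M →+* M).comp (j : Ω →+* M) =
      (j : Ω →+* M).comp (((γ : Ω ≃+* Ω)) : Ω →+* Ω) := by
    ext x
    exact (hw x).symm
  rw [h2, ← Polynomial.map_map]
  congr 1
  exact (toSym (arr W α) γ).2

private theorem ga8_local (hF : CompatF F L Ω) (H : AHyp ℓ W α ζ) {c y : Coch ℓ k F L Ω (arr W α)}
    (hc : IsTateCocycle ℓ (curveL k F L (arr W α)) c)
    {e e' : ι → F → ℤ} (h : HasExp hζ c e)
    (h' : HasExp hζ y e') (γ : AutO k F L Ω) (hγ : ∀ s ∈ SS (aF F α), resF γ s = s)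
    {z : ι → Ω} {b : Ω → ℤ} (hz : ∀ i, z i ^ ℓ = TP (aF F α) (tA F L Ω) (e i))
    (hzn : ∀ (σ : Ω ≃ₐ[L] Ω) (n : Ω → ℤ), (∀ i,
        σ (z i) = zA F L Ω ζ ^ n (rt k F L Ω α i) * z i) → vJ (zA F L Ω ζ) hζ (c 1 σ) = rm n)
    {A : JacOver ℓ (curveL k F L (arr W α)) Ω} {q : Ω → ℤ}
    (hzq : ∀ i, (γ : Ω ≃+* Ω) (z i) = zA F L Ω ζ ^ q (rt k F L Ω α i) * z i)
    (hA : A - zJ (zA F L Ω ζ) hζ A = rm (fun θ => b θ - q θ))
    (hR : ∀ σ : Ω ≃ₐ[L] Ω, vJ (zA F L Ω ζ) hζ (y 1 σ) =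
            symJ (toSym (arr W α) γ)
              (vJ (zA F L Ω ζ) hζ (vJ (zA F L Ω ζ) hζ (c 2 (conjG γ⁻¹ σ)))) -
              vJ (zA F L Ω ζ) hζ (vJ (zA F L Ω ζ) hζ (c 2 σ)) +
              (symJ (toSym (arr W α) (galA k F σ)) A - A))
    {s : F}
    {K M : Type u} [Field K] [Algebra L K] [Field M] [Algebra K M] [IsAlgClosure K M]
    [Algebra L M] [IsScalarTower L K M] [Algebra F M] (hFM : CompatF F L M)
    {v : AbsoluteValue M ℝ}
    (hv : LocCtx v s (tA F L M)) (hinv : ∀ (σ : M ≃ₐ[K] M) x, v (σ x) = v x)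
    (hval : ∀ x : K, x ≠ 0 → ∃ i : ℤ,
      v (algebraMap K M x) = v (tA F L M - algebraMap F M s) ^ i)
    (j : Ω →ₐ[L] M) (w : M ≃+* M) (φ : K ≃+* K)
    (hwφ : ∀ x, w (algebraMap K M x) = algebraMap K M (φ x))
    (hvw : ∀ x, v (w x) = v x) (hjw : ∀ x, j ((γ : Ω ≃+* Ω) x) = w (j x))
    (Q₂ : JacOver ℓ (curveL k F L (arr W α)) M)
    (hQ₂ : ∀ (τ : M ≃ₐ[K] M) (τ' : Ω ≃ₐ[L] Ω), (∀ x, j (τ' x) = τ (j x)) →
      push ℓ (curveL k F L (arr W α)) j (c 2 τ') =
        push ℓ (curveL k F L (arr W α)) (τ.restrictScalars L : M →ₐ[L] M) Q₂ - Q₂)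
    {i i' : ι} (hii : i ≠ i') (hs : (aF F α i).eval s = (aF F α i').eval s) (x : F)
    (hx : x ^ ℓ = nodeW W (aF F α) e i i' s) :
    resF γ x = algebraMap k F ζ ^ (W i * e' i s -
      W i * W i' * (b (rt k F L Ω α i') - b (rt k F L Ω α i))) * x := by
  have hFc : IsAlgClosed F := IsAlgClosure.isAlgClosed k
  have hMc : IsAlgClosed M := IsAlgClosure.isAlgClosed K
  have hg : AGeom (aF F α) := H.geomF
  have hS : s ∈ SS (aF F α) := mem_SS_of_eq hg hii hs
  have hGM : IsGood ℓ (cOver k F L M (arr W α)) := isGood_arr H M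
  have hjm := ga8_map (k := k) (F := F) (W := W) (α := α) j
  have hℓ0 : ℓ ≠ 0 := H.prime.ne_zero
  have hζM0 : IsPrimitiveRoot (zA F L M ζ) ℓ := zA_prim H.lhyp
  have hζM : (zA F L M ζ) ^ ℓ = 1 := hζM0.pow_eq_one
  have hjz : (j : Ω →+* M) (zA F L Ω ζ) = zA F L M ζ := map_zA j ζ
  have hzF : zA F L M ζ = algebraMap F M (algebraMap k F ζ) := G13_zA hFM ζ
  have hζF : IsPrimitiveRoot (algebraMap k F ζ) ℓ :=
    H.zeta.map_of_injective (algebraMap k F).injective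
  have hf : cOver k F L M (arr W α) = lineW W (aF F α) (tA F L M) := cOver_arr hFM
  have hfK : ((curveL k F L (arr W α)).map (algebraMap L K)).map (algebraMap K M) =
      cOver k F L M (arr W α) := by
    rw [Polynomial.map_map, ← IsScalarTower.algebraMap_eq]
  have hFK : ∀ c : F, ∃ x : K, algebraMap K M x = algebraMap F M c := fun c =>
    ⟨algebraMap L K (algebraMap F[X] L (C c)), by
      rw [← IsScalarTower.algebraMap_apply, ← hFM]⟩
  have htK : ∃ x : K, algebraMap K M x = tA F L M :=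
    ⟨algebraMap L K (algebraMap F[X] L X), by
      rw [← IsScalarTower.algebraMap_apply]
      rfl⟩
  have hΓ := LocCtx.locGrp hv hfK hinv hval hFK htK
  have hℓK : (ℓ : K) ≠ 0 := by
    have h1 := natCast_L_ne F H (L := L)
    intro h0
    apply h1
    apply (algebraMap L K).injective
    rw [map_natCast, h0, map_zero]
  have hp : (ringExpChar K).Coprime ℓ := G13_coprime H.prime hℓK
  -- the automorphism `u`
  let u : Sym (cOver k F L M (arr W α)) := ⟨w, ga8_sym j γ w hjw⟩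
  have hwP := ga8_poly j γ w hjw
  have huF : ∀ c : F, w (algebraMap F M c) = algebraMap F M (resF γ c) := by
    intro c
    rw [hFM, hwP, Polynomial.map_C, hFM]
    rfl
  have hut : w (tA F L M) = tA F L M := by
    have := hwP X
    rwa [Polynomial.map_X] at this
  have hmapk : ∀ P : k[X], (P.map (algebraMap k F)).map (resF γ : F →+* F) =
      P.map (algebraMap k F) := by
    intro P
    rw [Polynomial.map_map]
    congr 1
    exact (resF γ : F →ₐ[k] F).comp_algebraMap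
  have hwζ : w (zA F L M ζ) = zA F L M ζ := by
    rw [hzF, huF, AlgEquiv.commutes]
  -- conjugation by `w`
  have hwinv : ∀ x : K, w.symm (algebraMap K M x) = algebraMap K M (φ.symm x) := by
    intro x
    rw [RingEquiv.symm_apply_eq, hwφ, RingEquiv.apply_symm_apply]
  let cw : (M ≃ₐ[K] M) → (M ≃ₐ[K] M) := fun τ =>
    AlgEquiv.ofRingEquiv (f := (w.trans (τ : M ≃+* M)).trans w.symm) (by
      intro x
      change w.symm (τ (w (algebraMap K M x))) = algebraMap K M x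
      rw [hwφ, τ.commutes, hwinv, RingEquiv.symm_apply_apply])
  have hcw : ∀ τ x, cw τ x = w.symm (τ (w x)) := fun _ _ => rfl
  have hcwS : ∀ τ, u⁻¹ * galSym hfK τ * u = galSym hfK (cw τ) := by
    intro τ
    apply Subtype.ext
    ext x
    rfl
  have hτz : ∀ τ : M ≃ₐ[K] M, τ (zA F L M ζ) = zA F L M ζ := by
    intro τ
    rw [hzF]
    obtain ⟨x, hx⟩ := hFK (algebraMap k F ζ)
    rw [← hx, τ.commutes]
  -- the class `Q`
  set Q : JacOver ℓ (curveL k F L (arr W α)) M :=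
    vJ (zA F L M ζ) hζM (vJ (zA F L M ζ) hζM Q₂) with hQ
  have hQc : ∀ (τ : M ≃ₐ[K] M) (τ' : Ω ≃ₐ[L] Ω), (∀ x, j (τ' x) = τ (j x)) →
      push ℓ (curveL k F L (arr W α)) j
        (vJ (zA F L Ω ζ) hζ (vJ (zA F L Ω ζ) hζ (c 2 τ'))) = symJ (galSym hfK τ) Q - Q := by
    intro τ τ' hτ
    have hτζ : ((galSym hfK τ : Sym (cOver k F L M (arr W α))) : M ≃+* M) (zA F L M ζ) =
        zA F L M ζ := hτz τ
    have h1 : push ℓ (curveL k F L (arr W α)) j
        (vJ (zA F L Ω ζ) hζ (vJ (zA F L Ω ζ) hζ (c 2 τ'))) =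
        vJ (zA F L M ζ) hζM (vJ (zA F L M ζ) hζM
          (push ℓ (curveL k F L (arr W α)) j (c 2 τ'))) := by
      have e1 : ∀ X : JacOver ℓ (curveL k F L (arr W α)) Ω,
          jacMap ℓ (j : Ω →+* M) hjm (vJ (zA F L Ω ζ) hζ X) =
            vJ (zA F L M ζ) hζM (jacMap ℓ (j : Ω →+* M) hjm X) := fun X =>
        ga8_vJ (j : Ω →+* M) hjm (zA F L Ω ζ) (zA F L M ζ) hζ hζM hjz X
      have e2 := e1 (vJ (zA F L Ω ζ) hζ (c 2 τ'))
      rw [e1 (c 2 τ')] at e2
      exact e2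
    rw [h1, hQ₂ τ τ' hτ, vJ_sub, vJ_sub]
    have h2 : push ℓ (curveL k F L (arr W α)) (τ.restrictScalars L : M →ₐ[L] M) Q₂ =
        symJ (galSym hfK τ) Q₂ := rfl
    rw [h2, vJ_symJ _ _ _ hτζ, vJ_symJ _ _ _ hτζ]
  obtain ⟨z', hz', hzn'⟩ := h'.ex
  have hres : ∀ τ : M ≃ₐ[K] M, ∃ τ' : Ω ≃ₐ[L] Ω, ∀ x, j (τ' x) = τ (j x) := fun τ =>
    exists_restrict j (τ.restrictScalars L)
  have hji : Function.Injective j := (j : Ω →+* M).injective
  -- the functions over `M`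
  let qM : M → ℤ := Function.extend j q 0
  let bM : M → ℤ := Function.extend j b 0
  have hqM : ∀ x, qM (j x) = q x := fun x => hji.extend_apply _ _ x
  have hbM : ∀ x, bM (j x) = b x := fun x => hji.extend_apply _ _ x
  have hroot : ∀ i, aeval (tA F L M) (aF F α i) = j (rt k F L Ω α i) := by
    intro i
    rw [map_rt, rt_eq hFM]
  have hTP : ∀ m : F → ℤ, j (TP (aF F α) (tA F L Ω) m) =
      ∏ s' ∈ SS (aF F α), (tA F L M - algebraMap F M s') ^ m s' := fun m =>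
    map_TP hF hFM j m
  have hzJ : ∀ (x : M) (hx : x ^ ℓ = 1) (P : JacOver ℓ (curveL k F L (arr W α)) M),
      x = zA F L M ζ → zJ x hx P = zJ (zA F L M ζ) hζM P := by
    rintro _ _ _ rfl
    rfl
  -- exponents over `Ω` from exponents over `M`
  have hexp : ∀ (y : ι → Ω) (τ : M ≃ₐ[K] M) (τ' : Ω ≃ₐ[L] Ω), (∀ x, j (τ' x) = τ (j x)) →
      ∀ n : M → ℤ, (∀ i, ((galSym hfK τ : Sym (cOver k F L M (arr W α))) : M ≃+* M) (j (y i)) =
        algebraMap F M (algebraMap k F ζ) ^ n (aeval (tA F L M) (aF F α i)) * j (y i)) →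
      ∀ i, τ' (y i) = zA F L Ω ζ ^ (n ∘ j) (rt k F L Ω α i) * y i := by
    intro y τ τ' hτ' n hn i
    apply hji
    have h2 := hn i
    rw [galSym_apply, hroot i, ← hzF] at h2
    rw [hτ', h2, map_mul, map_zpow₀]
    congr 2
    exact hjz.symm
  have key := node_formula' (ℓ := ℓ) (p := ringExpChar K) H.prime H.cop hv hg hp hf hζF (by
      rw [← hzF]
      exact hζM0) hΓ u (resF γ : F ≃+* F) hvw huF hut (fun i => hmapk (α i))
    ((resF γ).commutes ζ)
    (by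
      rintro _ ⟨τ, rfl⟩
      exact ⟨cw τ, (hcwS τ).symm⟩)
    hγ e e' (h.node s hS) (h'.node s hS) (fun i => j (z i)) (fun i => j (z' i))
    (fun i => by rw [← map_pow, hz, hTP]) (fun i => by rw [← map_pow, hz', hTP]) Q
    (by
      rintro _ ⟨τ, rfl⟩ n hn
      obtain ⟨τ', hτ'⟩ := hres τ
      rw [← hQc τ τ' hτ', hzJ _ _ _ hzF.symm]
      have e1 := ga8_zJ (j : Ω →+* M) hjm (zA F L Ω ζ) (zA F L M ζ) hζ hζM hjz
        (vJ (zA F L Ω ζ) hζ (vJ (zA F L Ω ζ) hζ (c 2 τ')))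
      have e2 : zJ (zA F L M ζ) hζM (push ℓ (curveL k F L (arr W α)) j
          (vJ (zA F L Ω ζ) hζ (vJ (zA F L Ω ζ) hζ (c 2 τ')))) =
          push ℓ (curveL k F L (arr W α)) j (zJ (zA F L Ω ζ) hζ
            (vJ (zA F L Ω ζ) hζ (vJ (zA F L Ω ζ) hζ (c 2 τ')))) := e1.symm
      rw [e2, ← map_sub, level_two H hc, hzn τ' _ (hexp z τ τ' hτ' n hn)]
      exact jacMap_rm (j : Ω →+* M) hjm (n ∘ j) n (fun θ _ => rfl))
    bM qM
    (by
      intro i
      rw [hroot i, hqM, ← hzF]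
      change w (j (z i)) = _
      rw [← hjw, hzq i, map_mul, map_zpow₀]
      congr 2)
    (push ℓ (curveL k F L (arr W α)) j A)
    (by
      rw [hzJ _ _ _ hzF.symm]
      have e1 := ga8_zJ (j : Ω →+* M) hjm (zA F L Ω ζ) (zA F L M ζ) hζ hζM hjz A
      have e2 : zJ (zA F L M ζ) hζM (push ℓ (curveL k F L (arr W α)) j A) =
          push ℓ (curveL k F L (arr W α)) j (zJ (zA F L Ω ζ) hζ A) := e1.symm
      rw [e2, ← map_sub, hA]
      exact jacMap_rm (j : Ω →+* M) hjm (fun θ => b θ - q θ) (fun θ => bM θ - qM θ)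
        (fun θ _ => by
          have h1 := hbM θ
          have h2 := hqM θ
          change bM (j θ) - qM (j θ) = b θ - q θ
          rw [h1, h2]))
    (by
      rintro _ ⟨τ, rfl⟩ n hn
      obtain ⟨τ', hτ'⟩ := hres τ
      have hσ : ∀ x, j (conjG γ⁻¹ τ' x) = cw τ (j x) := by
        intro x
        rw [conjG_inv_apply, hcw, ← hjw, ← hτ']
        have h1 := hjw ((γ : Ω ≃+* Ω).symm (τ' ((γ : Ω ≃+* Ω) x)))
        rw [RingEquiv.apply_symm_apply] at h1
        rw [h1, RingEquiv.symm_apply_apply]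
      have h1 := hR τ'
      rw [hzn' τ' _ (hexp z' τ τ' hτ' n hn)] at h1
      have h2 := congrArg (push ℓ (curveL k F L (arr W α)) j) h1
      rw [map_add, map_sub, map_sub, hQc τ τ' hτ'] at h2
      have e0 : push ℓ (curveL k F L (arr W α)) j (rm (n ∘ j)) = rm n :=
        jacMap_rm (j : Ω →+* M) hjm (n ∘ j) n (fun θ _ => rfl)
      have e1 : push ℓ (curveL k F L (arr W α)) j (symJ (toSym (arr W α) γ)
          (vJ (zA F L Ω ζ) hζ (vJ (zA F L Ω ζ) hζ (c 2 (conjG γ⁻¹ τ'))))) =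
          symJ u (push ℓ (curveL k F L (arr W α)) j
          (vJ (zA F L Ω ζ) hζ (vJ (zA F L Ω ζ) hζ (c 2 (conjG γ⁻¹ τ'))))) :=
        ga8_sq _ (j : Ω →+* M) _ _ hjm _ hjw _
      have e2 : push ℓ (curveL k F L (arr W α)) j
          (symJ (toSym (arr W α) (galA k F τ')) A) =
          symJ (galSym hfK τ) (push ℓ (curveL k F L (arr W α)) j A) :=
        ga8_sq _ (j : Ω →+* M) _ _ hjm _ hτ' _
      rw [e0, e1, e2, hQc (cw τ) (conjG γ⁻¹ τ') hσ, ← hcwS τ] at h2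
      exact h2)
    hii hs x hx
  rw [hroot i, hroot i', hbM, hbM] at key
  exact key

/-- The formula for the exponents of `y`, if `γ c - c - (1 - Z) y` is torsion. -/
theorem exists_formula (hF : CompatF F L Ω) (H : AHyp ℓ W α ζ) {c y : Coch ℓ k F L Ω (arr W α)}
    (hc : IsTateCocycle ℓ (curveL k F L (arr W α)) c) (hLT : LTc c)
    (hy : IsTateCocycle ℓ (curveL k F L (arr W α)) y) {e e' : ι → F → ℤ} (h : HasExp hζ c e)
    (h' : HasExp hζ y e') (γ : AutO k F L Ω) (hγ : ∀ s ∈ SS (aF F α), resF γ s = s)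
    (hrel : TTc (act γ c - c - (y - Lns.zC ζ hζ y))) :
    ∃ b : ι → ℤ, ∀ i i' : ι, i ≠ i' → ∀ s, (aF F α i).eval s = (aF F α i').eval s → ∀ x : F,
      x ^ ℓ = nodeW W (aF F α) e i i' s →
        resF γ x = algebraMap k F ζ ^ (W i * e' i s - W i * W i' * (b i' - b i)) * x := by
  have hFc : IsAlgClosed F := IsAlgClosure.isAlgClosed k
  have hΩalg : Algebra.IsAlgebraic L Ω := IsAlgClosure.isAlgebraic
  obtain ⟨z, b, hz, hzn, hrl⟩ := exists_relation hF H hc hy h γ hγ hrel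
  refine ⟨fun i => b (rt k F L Ω α i), fun i i' hii s hs x hx => ?_⟩
  have hUs : resF γ s = s := hγ s (mem_SS_of_eq H.geomF hii hs)
  have hφ : ∃ φ : (plc s).adicCompletion L ≃+* (plc s).adicCompletion L,
      (∀ x : L, φ (algebraMap L _ x) = algebraMap L _ (coefL L (resF γ : F ≃+* F) x)) ∧
      ∀ x, Valued.v (φ x) = Valued.v x := by
    have h1 := exists_adic_equiv L (resF γ : F ≃+* F) s
    have h2 : (resF γ : F ≃+* F) s = s := hUs
    rwa [h2] at h1
  obtain ⟨φ, hφL, hφv⟩ := hφ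
  let _ : Algebra F (AlgebraicClosure ((plc s).adicCompletion L)) :=
    ((algebraMap L (AlgebraicClosure ((plc s).adicCompletion L))).comp
      ((algebraMap F[X] L).comp (C : F →+* F[X]))).toAlgebra
  have hFM : CompatF F L (AlgebraicClosure ((plc s).adicCompletion L)) := fun _ => rfl
  have hXL : ∀ P : F[X], algebraMap ((plc s).adicCompletion L)
      (AlgebraicClosure ((plc s).adicCompletion L))
      (algebraMap F[X] ((plc s).adicCompletion L) P) =
      algebraMap L (AlgebraicClosure ((plc s).adicCompletion L)) (algebraMap F[X] L P) := by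
    intro P
    rw [IsScalarTower.algebraMap_apply F[X] L ((plc s).adicCompletion L),
      ← IsScalarTower.algebraMap_apply L ((plc s).adicCompletion L)]
  obtain ⟨v, hv, hval, hinv, hsemi⟩ := exists_locCtx (L := L)
    (M := AlgebraicClosure ((plc s).adicCompletion L)) s (fun c => by rw [hXL, hFM])
  rw [hXL] at hv hval
  obtain ⟨w, hw⟩ := exists_extend_alg
    (M := AlgebraicClosure ((plc s).adicCompletion L)) φ
  have hwL : ∀ x : L, w (algebraMap L (AlgebraicClosure ((plc s).adicCompletion L)) x) =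
      algebraMap L (AlgebraicClosure ((plc s).adicCompletion L))
        (coefL L (resF γ : F ≃+* F) x) := by
    intro x
    rw [IsScalarTower.algebraMap_apply L ((plc s).adicCompletion L), hw, hφL,
      ← IsScalarTower.algebraMap_apply L ((plc s).adicCompletion L)]
  let j : Ω →ₐ[L] AlgebraicClosure ((plc s).adicCompletion L) := IsAlgClosed.lift
  obtain ⟨γ₀, hγ₀, hjγ₀⟩ := exists_compat j (coefL L (resF γ : F ≃+* F)) w hwL
  have hγP : ∀ P : F[X], γ₀ (algebraMap L Ω (algebraMap F[X] L P)) =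
      algebraMap L Ω (algebraMap F[X] L (P.map (resF γ : F →+* F))) := by
    intro P
    rw [hγ₀, coefL_algebraMap]
    rfl
  let γ' : AutO k F L Ω := ⟨γ₀, fun p => by
    have h1 := hγP (p.map (algebraMap k F))
    have h2 : (p.map (algebraMap k F)).map (resF γ : F →+* F) = p.map (algebraMap k F) := by
      rw [Polynomial.map_map]
      congr 1
      exact (resF γ : F →ₐ[k] F).comp_algebraMap
    rw [h2] at h1
    exact h1⟩
  have hres : resF γ' = resF γ := by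
    ext x
    have h1 := resF_spec γ' (C x)
    have h2 := hγP (C x)
    have h3 : (γ' : Ω ≃+* Ω) (algebraMap L Ω (algebraMap F[X] L (C x))) =
      γ₀ (algebraMap L Ω (algebraMap F[X] L (C x))) := rfl
    rw [h3, h2] at h1
    have h4 := IsFractionRing.injective F[X] L ((algebraMap L Ω).injective h1)
    rw [Polynomial.map_C, Polynomial.map_C] at h4
    exact (C_injective h4).symm
  obtain ⟨A, q, hq, hA, hR⟩ := hrl γ' hres
  obtain ⟨Q₂, hQ₂⟩ := hLT s 2 (AlgebraicClosure ((plc s).adicCompletion L)) j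
  have key := ga8_local hF H hc h h' γ' (by rw [hres]; exact hγ) hz hzn hq hA hR
    (K := (plc s).adicCompletion L) hFM hv hinv hval j w φ hw (hsemi w φ hφv hw) hjγ₀ Q₂ hQ₂
    hii hs x hx
  rwa [hres] at key

end Pool.Agent.Lib.MP_89bcae_ag.Wt.Lns
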