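import Mathlib
import Pool.Agent.Lib.MP_89bcae_ag.DefsW45
import Pool.Agent.Lib.MP_89bcae_ag.DefsArrW14
import Pool.Agent.Lib.MP_89bcae_ag.Wl.GA09

/-!
# The theorem for the curves `y ^ ℓ = ∏ (x - α_i(t))`
-/

open Polynomial IsDedekindDomain

open scoped Classical

namespace Pool.Agent.Lib.MP_89bcae_ag.Wt.Lns

open Pool.Agent.Lib.MP_89bcae_ag.Sup Pool.Agent.Lib.MP_89bcae_ag.Sup.Lns

universe u

variable {ι : Type} [Fintype ι] [LinearOrder ι]

/-- The invariant Selmer classes are torsion. -/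
theorem main {ℓ : ℕ} (k F L Ω : Type u) [Field k] [Field F] [Algebra k F] [IsAlgClosure k F]
    [Field L] [Algebra F[X] L] [IsFractionRing F[X] L] [Field Ω] [Algebra L Ω] [IsAlgClosure L Ω]
    (W : ι → ℕ) (α : ι → k[X]) (ζ : k) (H : AHyp ℓ W α ζ) (hI : ArrIndep ℓ k F W α)
    (k' : IntermediateField k F) [FiniteDimensional k k']
    (c : ℕ → (Ω ≃ₐ[L] Ω) → JacOver ℓ (curveL k F L (arr W α)) Ω)
    (hc : IsTateCocycle ℓ (curveL k F L (arr W α)) c)
    (hloc : ∀ (v : HeightOneSpectrum F[X]) (n : ℕ),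
      IsLocallyTrivial ℓ (curveL k F L (arr W α)) (c n) (v.adicCompletion L))
    (hfix : ∀ (γ : Ω ≃+* Ω) hγ, (∀ p : k'[X], γ (base k' F L Ω p) = base k' F L Ω p) →
      IsFixedBy ℓ (curveL k F L (arr W α)) c γ hγ) :
    IsTrivial ℓ (curveL k F L (arr W α)) fun n g => ℓ • c n g := by
  letI : Algebra F Ω := ((algebraMap L Ω).comp ((algebraMap F[X] L).comp C)).toAlgebra
  have hF : CompatF F L Ω := fun c => rfl
  haveI : IsAlgClosed Ω := IsAlgClosure.isAlgClosed L
  haveI : IsGood ℓ (cOver k F L Ω (arr W α)) := isGood_arr H Ω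
  have hζ0 : IsPrimitiveRoot (zA F L Ω ζ) ℓ := zA_prim H.lhyp
  have hζ : (zA F L Ω ζ) ^ ℓ = 1 := hζ0.pow_eq_one
  have hW : WWc (k := k) (F := F) (L := L) (Ω := Ω) (P := arr W α) c := by
    refine ⟨hc, fun a n => hloc (plc a) n, fun γ => ?_⟩
    obtain ⟨M, hM, hMx⟩ := G20_exists_pow k' (resF γ)
    refine ⟨M, hM, TTc.of_isFixedBy H.lhyp hc (γ ^ M) (hfix _ _ fun p => ?_)⟩
    have h1 : base k' F L Ω p =
        algebraMap L Ω (algebraMap F[X] L (p.map (algebraMap k' F))) := rfl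
    rw [h1, resF_spec, Polynomial.map_map]
    have h2 : ((resF (γ ^ M) : F ≃ₐ[k] F) : F →+* F).comp (algebraMap k' F) =
        algebraMap k' F := by
      refine RingHom.ext fun x => ?_
      rw [map_pow]
      exact hMx x
    rw [h2]
  have hT : TTc (k := k) (F := F) (L := L) (Ω := Ω) (P := arr W α) c := TTc.of_WWc hF H hI hW
  -- `(1 - Z) c` is trivial, and `ℓ = (1 - Z) v`
  have h1 := (hT.sub_zC_trc (torsRam hF H) hζ).2
  intro n
  obtain ⟨A, hA, hA'⟩ := h1 n
  refine ⟨vJ (zA F L Ω ζ) hζ A, ?_, fun σ => ?_⟩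
  · rw [← vJ_smul, hA]
    have h2 := vJ_smul (f := cOver k F L Ω (arr W α)) (zA F L Ω ζ) hζ 0 0
    rwa [zero_smul, zero_smul] at h2
  · rw [push_eq, ← vJ_symJ _ _ _ (zA_fixed ζ (galA k F σ)), ← vJ_sub]
    have h2 := hA' σ
    rw [push_eq] at h2
    rw [← h2]
    change ℓ • c n σ = vJ (zA F L Ω ζ) hζ (c n σ - zJ (zA F L Ω ζ) hζ (c n σ))
    rw [vJ_sub, vJ_zJ]
    exact (vJ_sub_zJ (zA F L Ω ζ) hζ0 (c n σ)).symm

section

variable {k : Type u} (F L Ω : Type u) [Field k] [Field F] [Algebra k F] [IsAlgClosure k F]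
  [Field L] [Algebra F[X] L] [IsFractionRing F[X] L] [Field Ω] [Algebra L Ω] [IsAlgClosure L Ω]

private lemma curveL_arr (W : ι → ℕ) (α : ι → k[X]) :
    curveL k F L (arr W α) = weightedPoly k F L W α := by
  unfold curveL arr weightedPoly
  rw [Polynomial.map_prod]
  refine Finset.prod_congr rfl fun i _ => ?_
  rw [Polynomial.map_pow, Polynomial.map_sub, map_X, map_C]

private lemma mem_nodes {α : ι → k[X]} (hg : AGeom (aF F α)) {s : F} :
    s ∈ Superelliptic.nodes k F α ↔ s ∈ SS (aF F α) := by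
  rw [mem_SS hg]
  unfold Superelliptic.nodes aF
  rw [Set.mem_ofPred_eq]
  simp only [eval_map_algebraMap]

/-- The two forms of the arithmetic condition. -/
private lemma indep_conv {W : ι → ℕ} {α : ι → k[X]} (hg : AGeom (aF F α)) {ℓ : ℕ}
    (h : Superelliptic.ArrangementIndependentW ℓ k F W α) : ArrIndep ℓ k F W α := by
  have hS : (SS (aF F α) : Set F) = Superelliptic.nodes k F α := by
    ext s
    exact (mem_nodes F hg).symm
  intro e κ c hκ0 hκ hc hnode hw
  rw [hS] at hκ hc hw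
  have hev : ∀ (i : ι) (s : F), (aF F α i).eval s = aeval s (α i) := by
    intro i s
    unfold aF
    rw [eval_map_algebraMap]
  obtain ⟨b, hb⟩ := h e κ c hκ0 hκ hc
    (by
      intro s hs i
      have h1 := hnode s ((mem_nodes F hg).1 hs) (aeval s (α i))
      simp only [hev] at h1
      exact h1)
    (by
      intro i j s hij hs
      obtain ⟨w, hwK, hwe⟩ := hw i j s hij (by rw [hev, hev]; exact hs)
      refine ⟨w, hwK, ?_⟩
      rw [hwe]
      unfold nodeV
      have h1 : (derivative (aF F α i - aF F α j)).eval s =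
          aeval s (derivative (α i - α j)) := by
        unfold aF
        rw [← Polynomial.map_sub, derivative_map, eval_map_algebraMap]
      have h2 : ∀ P : Finset ι, (∀ l, l ∈ P ↔ l ≠ i ∧ l ≠ j) →
          ∏ l ∈ P, (aeval s (α i) - aeval s (α l)) ^ (-(W l : ℤ) * e i s) =
          ∏ l ∈ (Finset.univ.erase i).erase j,
            ((aF F α i).eval s - (aF F α l).eval s) ^ (-(W l : ℤ) * e i s) := by
        intro P hP
        refine Finset.prod_congr ?_ fun l _ => ?_
        · ext l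
          rw [hP]
          simp only [Finset.mem_erase, Finset.mem_univ, and_true]
          exact and_comm
        · rw [hev, hev]
      have h3 : ∏ᶠ s' ∈ {s' ∈ Superelliptic.nodes k F α | s' ≠ s},
          (s - s') ^ ((W j : ℤ) * (e i s' - e j s')) =
          ∏ s' ∈ (SS (aF F α)).erase s, (s - s') ^ ((W j : ℤ) * (e i s' - e j s')) := by
        have h4 : {s' ∈ Superelliptic.nodes k F α | s' ≠ s} =
            (((SS (aF F α)).erase s : Finset F) : Set F) := by
          ext s'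
          rw [Finset.coe_erase, Set.mem_sdiff, Set.mem_singleton_iff, hS]
          exact Iff.rfl
        rw [h4, finprod_mem_coe_finset]
      rw [h1, h3, h2]
      · ring
      · intro l
        simp)
  refine ⟨b, fun i j s hij hs => hb i j s hij ?_⟩
  rw [hev, hev] at hs
  exact hs

/-- The theorem with the definitions of `DefsW45`. -/
theorem arrangementW {ℓ : ℕ} (hℓ : ℓ.Prime) (hk : (ℓ : k) ≠ 0) {ζ : k}
    (hζ : IsPrimitiveRoot ζ ℓ) (W : ι → ℕ) (hW : ∀ i, (W i).Coprime ℓ)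
    (hsum : (∑ i, W i).Coprime ℓ) (α : ι → k[X]) (hα : Superelliptic.IsArrangement α)
    (hI : Superelliptic.ArrangementIndependentW ℓ k F W α)
    (k' : IntermediateField k F) [FiniteDimensional k k'] :
    TateClassesTorsionW ℓ L Ω W α k' := by
  have H : AHyp ℓ W α ζ := ⟨hℓ, hk, hζ, hW, hsum, ⟨hα.separable, hα.natDegree_ne_zero⟩⟩
  intro c hc hloc hfix
  have key : ∀ (f : L[X]) (hf : curveL k F L (arr W α) = f)
      (c : ℕ → (Ω ≃ₐ[L] Ω) → JacOver ℓ f Ω), IsTateCocycle ℓ f c →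
      (∀ (v : HeightOneSpectrum F[X]) (n : ℕ),
        IsLocallyTrivial ℓ f (c n) (v.adicCompletion L)) →
      (∀ (γ : Ω ≃+* Ω) hγ, (∀ p : k'[X], γ (base k' F L Ω p) = base k' F L Ω p) →
        IsFixedBy ℓ f c γ hγ) →
      IsTrivial ℓ f fun n g => ℓ • c n g := by
    intro f hf
    subst hf
    intro c hc hloc hfix
    exact main k F L Ω W α ζ H (indep_conv F H.geomF hI) k' c hc hloc hfix
  exact key _ (curveL_arr F L W α) c hc hloc hfix

end

end Pool.Agent.Lib.MP_89bcae_ag.Wt.Lns
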